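import Pool.Agent.T2h42.AP.Stm

/-!
# Task ADD: additivity of the jumps
-/

set_option autoImplicit false

open Set Filter Topology Complex

namespace T2h42.AP

namespace ADD

theorem ev_ne (a : ℝ) : ∀ᶠ t : ℝ in (U : Filter ℝ), t ≠ a := by
  refine U_le ?_
  rcases le_or_gt a 0 with h | h
  · filter_upwards [self_mem_nhdsWithin] with t ht
    exact (lt_of_le_of_lt h ht).ne'
  · have h1 : ∀ᶠ t : ℝ in 𝓝 (0 : ℝ), t < a := Iio_mem_nhds h
    filter_upwards [nhdsWithin_le_nhds h1] with t ht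
    exact ht.ne

/-- the germ point; `σ = 1` on the left, `σ = -1` on the right -/
noncomputable def pt (x d : ℂ) (σ δ ε : ℝ) : ℂ := x + (ε : ℂ) * d * (1 + ((σ * δ : ℝ) : ℂ) * I)

theorem pt_im (x d : ℂ) (σ δ ε : ℝ) (c : ℂ) : (pt x d σ δ ε * cj c).im =
    (x * cj c).im + ε * ((d * cj c).im + σ * δ * (d * cj c).re) := by
  simp [pt, Complex.mul_im, Complex.mul_re, Complex.add_im, Complex.add_re]
  ring

theorem ev_notMem_ln (x d : ℂ) (hd : d ≠ 0) (σ : ℝ) (hσ : σ ≠ 0) (q : Circle × ℝ) :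
    ∀ᶠ δ : ℝ in (U : Filter ℝ), ∀ᶠ ε : ℝ in (U : Filter ℝ), pt x d σ δ ε ∉ ln q := by
  have hw : d * cj (q.1 : ℂ) ≠ 0 := by
    refine mul_ne_zero hd ?_
    simp [cj]
  have h1 : ∀ᶠ δ : ℝ in (U : Filter ℝ),
      (d * cj (q.1 : ℂ)).im + σ * δ * (d * cj (q.1 : ℂ)).re ≠ 0 := by
    by_cases hre : (d * cj (q.1 : ℂ)).re = 0
    · have him : (d * cj (q.1 : ℂ)).im ≠ 0 := by
        intro h
        exact hw (Complex.ext hre h)
      refine Eventually.of_forall fun δ => ?_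
      rw [hre]
      simpa using him
    · filter_upwards [ev_ne (-(d * cj (q.1 : ℂ)).im / (σ * (d * cj (q.1 : ℂ)).re))] with δ hδ h
      apply hδ
      rw [eq_div_iff (mul_ne_zero hσ hre)]
      linarith
  filter_upwards [h1] with δ hδ
  filter_upwards [ev_ne ((q.2 - (x * cj (q.1 : ℂ)).im) /
    ((d * cj (q.1 : ℂ)).im + σ * δ * (d * cj (q.1 : ℂ)).re))] with ε hε hmem
  apply hε
  have hmem' : (pt x d σ δ ε * cj (q.1 : ℂ)).im = q.2 := hmem
  rw [pt_im] at hmem'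
  rw [eq_div_iff hδ]
  linarith

theorem ev_notMem_NL (x d : ℂ) (hd : d ≠ 0) (σ : ℝ) (hσ : σ ≠ 0) (L : Finset (Circle × ℝ)) :
    ∀ᶠ δ : ℝ in (U : Filter ℝ), ∀ᶠ ε : ℝ in (U : Filter ℝ), pt x d σ δ ε ∉ NL L := by
  have h : ∀ᶠ δ : ℝ in (U : Filter ℝ), ∀ q ∈ L, ∀ᶠ ε : ℝ in (U : Filter ℝ),
      pt x d σ δ ε ∉ ln q :=
    (Filter.eventually_all_finset L).2 fun q _ => ev_notMem_ln x d hd σ hσ q
  filter_upwards [h] with δ hδ
  filter_upwards [(Filter.eventually_all_finset L).2 hδ] with ε hε hmem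
  simp only [NL, Set.mem_iUnion] at hmem
  obtain ⟨q, hq, hmem⟩ := hmem
  exact hε q hq hmem

/-- membership of the germ -/
def EvP (G : Set ℂ) (x d : ℂ) (σ : ℝ) : Prop :=
  ∀ᶠ δ : ℝ in (U : Filter ℝ), ∀ᶠ ε : ℝ in (U : Filter ℝ), pt x d σ δ ε ∈ G

open Classical in
/-- indicator of the germ -/
noncomputable def val (G : Set ℂ) (x d : ℂ) (σ : ℝ) : ℝ := if EvP G x d σ then 1 else 0

theorem ev_val (G : Set ℂ) (x d : ℂ) (σ : ℝ) :
    ∀ᶠ δ : ℝ in (U : Filter ℝ), ∀ᶠ ε : ℝ in (U : Filter ℝ),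
      ind G (pt x d σ δ ε) = val G x d σ := by
  by_cases h : EvP G x d σ
  · have h1 : val G x d σ = 1 := by simp [val, h]
    rw [h1]
    have h' := h
    unfold EvP at h'
    filter_upwards [h'] with δ hδ
    filter_upwards [hδ] with ε hε
    simp [ind, hε]
  · have h1 : val G x d σ = 0 := by simp [val, h]
    rw [h1]
    have h' := h
    unfold EvP at h'
    rw [← Ultrafilter.eventually_not] at h'
    filter_upwards [h'] with δ hδ
    rw [← Ultrafilter.eventually_not] at hδ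
    filter_upwards [hδ] with ε hε
    simp [ind, hε]

theorem val_sum {N : ℕ} {T : Set ℂ} {Q : Fin N → Set ℂ} {L : Finset (Circle × ℝ)}
    (h : ∀ z, z ∉ NL L → ind T z = ∑ i, ind (Q i) z) (x d : ℂ) (hd : d ≠ 0) (σ : ℝ)
    (hσ : σ ≠ 0) : val T x d σ = ∑ i, val (Q i) x d σ := by
  have h1 : ∀ᶠ δ : ℝ in (U : Filter ℝ), ∀ i, ∀ᶠ ε : ℝ in (U : Filter ℝ),
      ind (Q i) (pt x d σ δ ε) = val (Q i) x d σ :=
    Filter.eventually_all.2 fun i => ev_val (Q i) x d σ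
  obtain ⟨δ, h2, h3, h4⟩ := ((ev_val T x d σ).and (h1.and (ev_notMem_NL x d hd σ hσ L))).exists
  obtain ⟨ε, h5, h6, h7⟩ := (h2.and ((Filter.eventually_all.2 h3).and h4)).exists
  rw [← h5, h _ h7]
  exact Finset.sum_congr rfl fun i _ => h6 i

theorem lfP_iff (G : Set ℂ) (x d : ℂ) : LfP G x d ↔ EvP G x d 1 := by
  simp [LfP, EvP, pt]

theorem rtP_iff (G : Set ℂ) (x d : ℂ) : RtP G x d ↔ EvP G x d (-1) := by
  simp [RtP, EvP, pt, sub_eq_add_neg]

theorem jmp_eq (G : Set ℂ) (x d : ℂ) : jmp G x d = val G x d 1 - val G x d (-1) := by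
  unfold jmp val
  refine congrArg₂ (fun a b : ℝ => a - b) ?_ ?_
  · by_cases h : LfP G x d
    · rw [if_pos h, if_pos ((lfP_iff G x d).1 h)]
    · rw [if_neg h, if_neg fun h' => h ((lfP_iff G x d).2 h')]
  · by_cases h : RtP G x d
    · rw [if_pos h, if_pos ((rtP_iff G x d).1 h)]
    · rw [if_neg h, if_neg fun h' => h ((rtP_iff G x d).2 h')]

end ADD

open ADD in
theorem t_ADD : S_ADD := by
  intro N T Q L h x d hd
  rw [jmp_eq, val_sum h x d hd 1 one_ne_zero, val_sum h x d hd (-1) (by norm_num),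
    ← Finset.sum_sub_distrib]
  exact Finset.sum_congr rfl fun i _ => (jmp_eq _ _ _).symm

end T2h42.AP
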