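import Pool.Agent.T2h42.AP.Stm

/-!
Task ALG of the project AP (helper32): the linear algebra.
-/

set_option autoImplicit false

open Set Filter Topology Complex

namespace T2h42.AP

noncomputable section

namespace ALGp

/-- `1, √2` are linearly independent over `ℚ` -/
lemma ind2 (a b : ℚ) (h : (a : ℝ) + b * Real.sqrt 2 = 0) : a = 0 ∧ b = 0 := by
  have hb : b = 0 := by
    by_contra hb
    have h1 : Real.sqrt 2 = ((-a / b : ℚ) : ℝ) := by
      have hb' : (b : ℝ) ≠ 0 := by exact_mod_cast hb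
      push_cast
      field_simp
      linarith
    exact irrational_sqrt_two ⟨_, h1.symm⟩
  refine ⟨?_, hb⟩
  rw [hb] at h
  have : (a : ℝ) = 0 := by simpa using h
  exact_mod_cast this

/-- `√3` is irrational -/
lemma irr3 : Irrational (Real.sqrt 3) := by
  have := Nat.Prime.irrational_sqrt (p := 3) (by norm_num)
  exact_mod_cast this

lemma irr6 : Irrational (Real.sqrt 6) := by
  have h : ¬ IsSquare (6 : ℕ) := by
    rintro ⟨r, hr⟩
    have : r < 3 := by nlinarith
    interval_cases r <;> omega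
  have := irrational_sqrt_natCast_iff.2 h
  exact_mod_cast this

/-- `1, √3, √6` are linearly independent over `ℚ` -/
lemma ind3 (A B C : ℚ) (h : (A : ℝ) + B * Real.sqrt 3 + C * Real.sqrt 3 * Real.sqrt 2 = 0) :
    A = 0 ∧ B = 0 ∧ C = 0 := by
  have h3 : Real.sqrt 3 ^ 2 = 3 := Real.sq_sqrt (by norm_num)
  have h2 : Real.sqrt 2 ^ 2 = 2 := Real.sq_sqrt (by norm_num)
  have h1 : (A : ℝ) ^ 2 = 3 * B ^ 2 + 6 * C ^ 2 + 6 * B * C * Real.sqrt 2 := by
    have h4 : (A : ℝ) = - (B * Real.sqrt 3 + C * Real.sqrt 3 * Real.sqrt 2) := by linarith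
    rw [h4]
    have h5 : (-(B * Real.sqrt 3 + C * Real.sqrt 3 * Real.sqrt 2)) ^ 2 =
        Real.sqrt 3 ^ 2 * (B ^ 2 + 2 * B * C * Real.sqrt 2 + C ^ 2 * Real.sqrt 2 ^ 2) := by ring
    rw [h5, h3, h2]
    ring
  have h4 := ind2 (3 * B ^ 2 + 6 * C ^ 2 - A ^ 2) (6 * B * C) (by push_cast; linarith)
  obtain ⟨h5, h6⟩ := h4
  have h7 : B = 0 ∨ C = 0 := by
    rcases mul_eq_zero.1 h6 with h | h
    · left; linarith
    · right; exact h
  rcases h7 with h7 | h7
  · rw [h7] at h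
    have hC : C = 0 := by
      by_contra hC
      have h8 : Real.sqrt 6 = ((-A / C : ℚ) : ℝ) := by
        have hC' : (C : ℝ) ≠ 0 := by exact_mod_cast hC
        have h9 : Real.sqrt 6 = Real.sqrt 3 * Real.sqrt 2 := by
          rw [← Real.sqrt_mul (by norm_num)]
          norm_num
        push_cast
        rw [h9]
        field_simp
        have h10 : (A : ℝ) + C * Real.sqrt 3 * Real.sqrt 2 = 0 := by simpa using h
        linarith
      exact irr6 ⟨_, h8.symm⟩
    rw [hC] at h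
    refine ⟨?_, h7, hC⟩
    have : (A : ℝ) = 0 := by simpa using h
    exact_mod_cast this
  · rw [h7] at h
    have hB : B = 0 := by
      by_contra hB
      have h8 : Real.sqrt 3 = ((-A / B : ℚ) : ℝ) := by
        have hB' : (B : ℝ) ≠ 0 := by exact_mod_cast hB
        push_cast
        field_simp
        have h10 : (A : ℝ) + B * Real.sqrt 3 = 0 := by simpa using h
        linarith
      exact irr3 ⟨_, h8.symm⟩
    rw [hB] at h
    refine ⟨?_, hB, h7⟩
    have : (A : ℝ) = 0 := by simpa using h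
    exact_mod_cast this

/-- the four lengths -/
def xx (m s : ℝ) : Fin 4 → ℝ := ![m, Real.sqrt 3 * m, s, Real.sqrt 2 * s]

lemma indep (m s : ℝ) (N1 N2 : ℕ) (hm : 0 < m) (h1 : 0 < N1) (h2 : 0 < N2)
    (h : (N2 : ℝ) * (Real.sqrt 3 * m ^ 2) = N1 * s ^ 2) : LinearIndependent ℚ (xx m s) := by
  rw [Fintype.linearIndependent_iff]
  intro g hg
  simp only [xx, Fin.sum_univ_four, Matrix.cons_val_zero, Matrix.cons_val_one, Matrix.cons_val,
    Rat.smul_def] at hg
  set a := g 0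
  set b := g 1
  set c := g 2
  set d := g 3
  have hs3 : Real.sqrt 3 ^ 2 = 3 := Real.sq_sqrt (by norm_num)
  have hs2 : Real.sqrt 2 ^ 2 = 2 := Real.sq_sqrt (by norm_num)
  have e1 : m * ((a : ℝ) + b * Real.sqrt 3) = - (s * (c + d * Real.sqrt 2)) := by linarith
  have e2 : m ^ 2 * ((a : ℝ) + b * Real.sqrt 3) ^ 2 = s ^ 2 * (c + d * Real.sqrt 2) ^ 2 := by
    calc m ^ 2 * ((a : ℝ) + b * Real.sqrt 3) ^ 2 = (m * ((a : ℝ) + b * Real.sqrt 3)) ^ 2 := by ring
      _ = s ^ 2 * (c + d * Real.sqrt 2) ^ 2 := by rw [e1]; ring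
  have hN1 : (0 : ℝ) < N1 := by exact_mod_cast h1
  have hN2 : (0 : ℝ) < N2 := by exact_mod_cast h2
  have e3 : (N1 : ℝ) * ((a : ℝ) + b * Real.sqrt 3) ^ 2 =
      N2 * Real.sqrt 3 * (c + d * Real.sqrt 2) ^ 2 := by
    have e4 : m ^ 2 * ((N1 : ℝ) * ((a : ℝ) + b * Real.sqrt 3) ^ 2) =
        m ^ 2 * (N2 * Real.sqrt 3 * (c + d * Real.sqrt 2) ^ 2) := by
      calc m ^ 2 * ((N1 : ℝ) * ((a : ℝ) + b * Real.sqrt 3) ^ 2)
          = N1 * (m ^ 2 * ((a : ℝ) + b * Real.sqrt 3) ^ 2) := by ring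
        _ = (N1 * s ^ 2) * (c + d * Real.sqrt 2) ^ 2 := by rw [e2]; ring
        _ = m ^ 2 * (N2 * Real.sqrt 3 * (c + d * Real.sqrt 2) ^ 2) := by rw [← h]; ring
    exact mul_left_cancel₀ (by positivity) e4
  have e5 := ind3 (N1 * (a ^ 2 + 3 * b ^ 2)) (2 * N1 * a * b - N2 * (c ^ 2 + 2 * d ^ 2))
    (-(2 * N2 * c * d)) (by
      push_cast
      have e6 : (N1 : ℝ) * ((a : ℝ) + b * Real.sqrt 3) ^ 2 =
          N1 * (a ^ 2 + b ^ 2 * Real.sqrt 3 ^ 2) + 2 * N1 * a * b * Real.sqrt 3 := by ring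
      have e7 : N2 * Real.sqrt 3 * ((c : ℝ) + d * Real.sqrt 2) ^ 2 =
          N2 * Real.sqrt 3 * (c ^ 2 + d ^ 2 * Real.sqrt 2 ^ 2 + 2 * c * d * Real.sqrt 2) := by ring
      rw [e6, e7, hs3, hs2] at e3
      linarith)
  have hN1q : (N1 : ℚ) ≠ 0 := by exact_mod_cast h1.ne'
  have hN2q : (N2 : ℚ) ≠ 0 := by exact_mod_cast h2.ne'
  have e6 : a ^ 2 + 3 * b ^ 2 = 0 := (mul_eq_zero.1 e5.1).resolve_left hN1q
  have ha : a = 0 := by nlinarith [sq_nonneg a, sq_nonneg b]
  have hb : b = 0 := by nlinarith [sq_nonneg a, sq_nonneg b]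
  have e7 := e5.2.1
  rw [ha, mul_zero, zero_mul, zero_sub, neg_eq_zero] at e7
  have e8 : c ^ 2 + 2 * d ^ 2 = 0 := (mul_eq_zero.1 e7).resolve_left hN2q
  have hc : c = 0 := by nlinarith [sq_nonneg c, sq_nonneg d]
  have hd : d = 0 := by nlinarith [sq_nonneg c, sq_nonneg d]
  intro i
  fin_cases i
  · exact ha
  · exact hb
  · exact hc
  · exact hd

/-- dual additive maps -/
lemma duals (m s : ℝ) (hind : LinearIndependent ℚ (xx m s)) :
    ∃ π : Fin 4 → (ℝ →+ ℝ), ∀ j k, π j (xx m s k) = if j = k then 1 else 0 := by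
  let sp := Submodule.span ℚ (Set.range (xx m s))
  let bs : Module.Basis (Fin 4) ℚ sp := Module.Basis.span hind
  have hbs : ∀ k, ((bs k : sp) : ℝ) = xx m s k := fun k =>
    congrArg Subtype.val (Module.Basis.span_apply hind k)
  have h1 : ∀ j : Fin 4, ∃ f : ℝ →ₗ[ℚ] ℝ, ∀ k, f (xx m s k) = if j = k then 1 else 0 := by
    intro j
    let f0 : sp →ₗ[ℚ] ℝ := bs.constr ℚ fun k => if j = k then (1 : ℝ) else 0
    obtain ⟨f, hf⟩ := LinearMap.exists_extend f0
    refine ⟨f, fun k => ?_⟩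
    have h2 := LinearMap.congr_fun hf (bs k)
    rw [LinearMap.comp_apply, Submodule.subtype_apply, hbs] at h2
    rw [h2]
    exact bs.constr_basis ℚ _ k
  choose f hf using h1
  exact ⟨fun j => (f j).toAddMonoidHom, hf⟩

end ALGp

open ALGp in
theorem t_ALG : S_ALG := by
  intro m s N1 N2 hm hs h1 h2 h V hV
  obtain ⟨π, hπ⟩ := duals m s (indep m s N1 N2 hm h1 h2 h)
  let T : (Fin 4 → ℝ) →ₗ[ℝ] ℂ := ∑ j, (LinearMap.proj j : (Fin 4 → ℝ) →ₗ[ℝ] ℝ).smulRight (V (π j))
  have hT : ∀ c : Fin 4 → ℝ, T c = V (∑ j, c j • π j) := by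
    intro c
    rw [map_sum]
    simp only [T, LinearMap.sum_apply, LinearMap.smulRight_apply, LinearMap.proj_apply, map_smul]
  have hval : ∀ (c : Fin 4 → ℝ) (k : Fin 4), (∑ j, c j • π j) (xx m s k) = c k := by
    intro c k
    have h3 : (∑ j, c j • π j) (xx m s k) = ∑ j, c j * π j (xx m s k) := by
      rw [AddMonoidHom.finsetSum_apply]
      rfl
    rw [h3]
    simp only [hπ]
    simp
  -- the kernel is contained in a line
  have hker : ∀ c : Fin 4 → ℝ, c ∈ LinearMap.ker T →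
      c ∈ Submodule.span ℝ {xx m s} := by
    intro c hc
    rw [LinearMap.mem_ker, hT] at hc
    obtain ⟨g1, g2, g3⟩ := hV _ hc
    have v0 := hval c 0
    have v1 := hval c 1
    have v2 := hval c 2
    have v3 := hval c 3
    simp only [xx, Matrix.cons_val_zero, Matrix.cons_val_one, Matrix.cons_val] at v0 v1 v2 v3
    rw [v1, v0] at g1
    rw [v3, v2] at g2
    rw [v2, v0] at g3
    rw [Submodule.mem_span_singleton]
    refine ⟨c 0 / m, ?_⟩
    funext k
    fin_cases k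
    · simp [xx]
      field_simp
    · simp [xx]
      rw [g1]
      field_simp
    · simp [xx]
      field_simp
      linarith
    · simp [xx]
      rw [g2]
      field_simp
      rw [mul_comm (c 0) s, ← g3]
  have hle : LinearMap.ker T ≤ Submodule.span ℝ {xx m s} := hker
  have hd1 := Submodule.finrank_mono hle
  have hd2 : Module.finrank ℝ (Submodule.span ℝ {xx m s}) ≤ 1 := by
    have := finrank_span_le_card (R := ℝ) ({xx m s} : Set (Fin 4 → ℝ))
    simpa using this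
  have hd3 := LinearMap.finrank_range_add_finrank_ker T
  have hd4 : Module.finrank ℝ (LinearMap.range T) ≤ 2 := by
    have := Submodule.finrank_le (LinearMap.range T)
    rwa [Complex.finrank_real_complex] at this
  rw [Module.finrank_fin_fun] at hd3
  omega

end

end T2h42.AP
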