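import Pool.Agent.T2h42.AP.Stm

/-! Project AP, task AREA (helper30): areas. -/

set_option autoImplicit false

open Set Filter Topology Complex MeasureTheory

namespace T2h42.AP

namespace AREA

theorem vol_ln (q : Circle × ℝ) : volume (ln q) = 0 := by
  set e : ℂ := cj (q.1 : ℂ) with he
  have hne : (q.1 : ℂ) ≠ 0 := Circle.coe_ne_zero _
  set l : ℂ →ₗ[ℝ] ℝ := Complex.imLm.comp (LinearMap.mulRight ℝ e) with hl
  have hlz : ∀ z, l z = (z * e).im := fun z => rfl
  have hqe : (q.1 : ℂ) * e = 1 := by
    rw [he, Complex.mul_conj, Complex.normSq_eq_norm_sq, Circle.norm_coe]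
    norm_num
  have hker : (LinearMap.ker l) ≠ ⊤ := by
    intro h
    have h1 : (I * (q.1 : ℂ)) ∈ LinearMap.ker l := by rw [h]; exact Submodule.mem_top
    rw [LinearMap.mem_ker, hlz, mul_assoc, hqe, mul_one] at h1
    norm_num at h1
  have hs : ln q = (fun z => z + (-(q.2 * I * (q.1 : ℂ)))) ⁻¹' (LinearMap.ker l : Set ℂ) := by
    ext z
    simp only [ln, mem_ofPred_eq, mem_preimage, SetLike.mem_coe, LinearMap.mem_ker, hlz]
    have : (z + -(↑q.2 * I * (q.1 : ℂ))) * e = z * e - q.2 * I := by
      rw [add_mul, neg_mul, mul_assoc, hqe]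
      ring
    rw [this, ← he]
    simp only [sub_im, mul_im, ofReal_re, I_im, ofReal_im, I_re]
    constructor <;> intro h <;> linarith
  rw [hs, measure_preimage_add_right]
  exact Measure.addHaar_submodule _ _ hker

theorem vol_NL (L : Finset (Circle × ℝ)) : volume (NL L) = 0 := by
  unfold NL
  exact (measure_biUnion_null_iff L.countable_toSet).2 fun q _ => vol_ln q

theorem good_null (G : Set ℂ) (hG : Good G) : NullMeasurableSet G := by
  obtain ⟨-, L, hL⟩ := hG
  exact nullMeasurableSet_of_null_frontier (measure_mono_null hL (vol_NL L))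

theorem good_fin (G : Set ℂ) (hG : Good G) : volume G ≠ ⊤ := hG.1.measure_lt_top.ne

theorem iso_mp (φ : ℂ ≃ᵢ ℂ) : MeasurePreserving φ volume volume := by
  have h := (φ.toRealAffineIsometryEquiv.linearIsometryEquiv).measurePreserving
  have h2 := measurePreserving_add_right (volume : Measure ℂ) (φ 0)
  have h3 := h2.comp h
  have e : ((fun x => x + φ 0) ∘ φ.toRealAffineIsometryEquiv.linearIsometryEquiv) = φ := by
    ext z
    have := φ.toRealAffineIsometryEquiv.map_vadd 0 z
    simp only [vadd_eq_add, add_zero] at this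
    exact this.symm
  rw [e] at h3
  exact h3

theorem int_ind (G : Set ℂ) (hG : NullMeasurableSet G) : ∫ z, ind G z = (volume G).toReal := by
  have : (fun z => ind G z) = G.indicator (fun _ => (1 : ℝ)) := rfl
  rw [this, integral_indicator₀ hG]
  simp [Measure.real]

theorem integrable_ind (G : Set ℂ) (hG : NullMeasurableSet G) (hf : volume G ≠ ⊤) :
    Integrable (ind G) := by
  have : ind G = G.indicator (fun _ => (1 : ℝ)) := rfl
  rw [this]
  refine IntegrableOn.integrable_indicator₀ ?_ hG
  exact integrableOn_const hf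

theorem vol_Tri (p q : ℝ) (hp : 0 < p) (hq : 0 < q) :
    MeasurableSet (Tri p q) ∧ volume (Tri p q) = ENNReal.ofReal (p * q / 2) := by
  have hm : MeasurableSet (Tri p q) := by
    have h1 : MeasurableSet {z : ℂ | 0 < z.re} :=
      measurableSet_lt measurable_const Complex.measurable_re
    have h2 : MeasurableSet {z : ℂ | 0 < z.im} :=
      measurableSet_lt measurable_const Complex.measurable_im
    have h3 : MeasurableSet {z : ℂ | z.re / p + z.im / q < 1} :=
      measurableSet_lt ((Complex.measurable_re.div_const _).add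
        (Complex.measurable_im.div_const _)) measurable_const
    exact h1.inter (h2.inter h3)
  refine ⟨hm, ?_⟩
  have hpre : Tri p q = Complex.measurableEquivRealProd ⁻¹'
      (regionBetween (fun _ => (0 : ℝ)) (fun x => q * (1 - x / p)) (Ioo 0 p)) := by
    ext z
    simp only [Tri, mem_ofPred_eq, mem_preimage, regionBetween, mem_Ioo,
      Complex.measurableEquivRealProd_apply]
    constructor
    · rintro ⟨h1, h2, h3⟩
      have h4 : 0 < z.im / q := by positivity
      have h5 : 0 < z.re / p := by positivity
      refine ⟨⟨h1, ?_⟩, h2, ?_⟩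
      · have : z.re / p < 1 := by linarith
        rwa [div_lt_one hp] at this
      · have : z.im / q < 1 - z.re / p := by linarith
        rw [div_lt_iff₀ hq] at this
        linarith
    · rintro ⟨⟨h1, h2⟩, h3, h4⟩
      refine ⟨h1, h3, ?_⟩
      have : z.im / q < 1 - z.re / p := by
        rw [div_lt_iff₀ hq]
        linarith
      linarith
  have hmp := Complex.volume_preserving_equiv_real_prod
  have hc : Continuous (fun x : ℝ => q * (1 - x / p)) := by fun_prop
  rw [hpre, hmp.measure_preimage_equiv, Measure.volume_eq_prod,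
    volume_regionBetween_eq_integral (by simp) ?_ measurableSet_Ioo ?_]
  · congr 1
    rw [← integral_Ioc_eq_integral_Ioo, ← intervalIntegral.integral_of_le hp.le]
    have : ((fun x => q * (1 - x / p)) - fun _ => (0 : ℝ)) =
        fun y : ℝ => q - (q / p) * y := by
      funext y
      simp only [Pi.sub_apply]
      ring
    rw [this]
    rw [intervalIntegral.integral_sub (by simp) (by apply Continuous.intervalIntegrable; fun_prop),
      intervalIntegral.integral_const, intervalIntegral.integral_const_mul, integral_id]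
    simp only [smul_eq_mul]
    field_simp
    ring
  · exact (hc.integrableOn_Icc (a := 0) (b := p)).mono_set Ioo_subset_Icc_self
  · intro x hx
    have : x / p ≤ 1 := by rw [div_le_one hp]; exact hx.2.le
    have : 0 ≤ 1 - x / p := by linarith
    positivity

end AREA

open AREA in
theorem t_AREA : S_AREA := by
  rintro Q p q N hQ hp hq ⟨φ, L, h⟩
  obtain ⟨hTm, hTv⟩ := vol_Tri p q hp hq
  have hi : ∀ i, volume ((fun w => φ i w) '' Q) = volume Q ∧
      NullMeasurableSet ((fun w => φ i w) '' Q) := by
    intro i
    have he : (fun w => φ i w) '' Q = (φ i).symm ⁻¹' Q := (φ i).image_eq_preimage_symm Q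
    have hmp := iso_mp (φ i).symm
    rw [he]
    exact ⟨hmp.measure_preimage (good_null Q hQ),
      (good_null Q hQ).preimage hmp.quasiMeasurePreserving⟩
  have hae : ∀ᵐ z ∂(volume : Measure ℂ), ind (Tri p q) z = ∑ i, ind ((fun w => φ i w) '' Q) z := by
    have := measure_eq_zero_iff_ae_notMem.1 (vol_NL L)
    filter_upwards [this] with z hz
    exact h z hz
  have hint : ∫ z, ind (Tri p q) z = ∫ z, ∑ i, ind ((fun w => φ i w) '' Q) z :=
    integral_congr_ae hae
  rw [int_ind _ hTm.nullMeasurableSet, hTv, ENNReal.toReal_ofReal (by positivity),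
    integral_finsetSum _ (fun i _ => integrable_ind _ (hi i).2 (by
      rw [(hi i).1]; exact good_fin Q hQ))] at hint
  rw [hint]
  have : ∀ i, ∫ z, ind ((fun w => φ i w) '' Q) z = (volume Q).toReal := fun i => by
    rw [int_ind _ (hi i).2, (hi i).1]
  simp only [this]
  rw [Finset.sum_const, Finset.card_univ, Fintype.card_fin, nsmul_eq_mul]

end T2h42.AP
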