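import Pool.Agent.T2h42.AP.Stm

set_option autoImplicit false

/-! Task CELL of project AP (helper97). -/

open Set

namespace T2h42.AP

noncomputable section

theorem bisector (a b : ℂ) (hab : a ≠ b) :
    ∃ q : Circle × ℝ, ∀ z, dist z a = dist z b → z ∈ ln q := by
  have hv : b - a ≠ 0 := sub_ne_zero.2 (Ne.symm hab)
  have hn : (‖b - a‖ : ℝ) ≠ 0 := norm_ne_zero_iff.2 hv
  have hnc : ((‖b - a‖ : ℝ) : ℂ) ≠ 0 := Complex.ofReal_ne_zero.2 hn
  let d : Circle := ⟨Complex.I * (b - a) / (‖b - a‖ : ℝ), by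
    show Complex.I * (b - a) / (‖b - a‖ : ℝ) ∈ Metric.sphere (0 : ℂ) 1
    rw [mem_sphere_zero_iff_norm, norm_div, norm_mul, Complex.norm_I, one_mul,
      Complex.norm_real, norm_norm, div_self hn]⟩
  refine ⟨(d, (((a.re ^ 2 + a.im ^ 2) - (b.re ^ 2 + b.im ^ 2)) / 2) / ‖b - a‖), fun z hz => ?_⟩
  have h1 : dist z a ^ 2 = dist z b ^ 2 := by rw [hz]
  rw [Complex.dist_eq, Complex.dist_eq, ← Complex.normSq_eq_norm_sq,
    ← Complex.normSq_eq_norm_sq, Complex.normSq_apply, Complex.normSq_apply] at h1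
  simp only [Complex.sub_re, Complex.sub_im] at h1
  show (z * (starRingEnd ℂ) (d : ℂ)).im = _
  have h2 : (d : ℂ) = Complex.I * (b - a) / (‖b - a‖ : ℝ) := rfl
  rw [h2, map_div₀, map_mul, Complex.conj_I, Complex.conj_ofReal, mul_div_assoc',
    Complex.div_ofReal_im]
  congr 1
  simp
  linarith

open Classical in
theorem cell_lines (W : Subgroup (ℂ ≃ᵢ ℂ)) (p0 : ℂ) (hW : (W : Set (ℂ ≃ᵢ ℂ)).Finite)
    (hne : ∀ w ∈ W, ∀ w' ∈ W, w ≠ w' → w p0 ≠ w' p0) :
    ∃ L : Finset (Circle × ℝ), ∀ z, z ∉ NL L → ∀ w ∈ W, ∀ w' ∈ W, w ≠ w' →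
      dist z (w p0) ≠ dist z (w' p0) := by
  let f : (ℂ ≃ᵢ ℂ) × (ℂ ≃ᵢ ℂ) → Circle × ℝ := fun p =>
    if h : p.1 p0 ≠ p.2 p0 then (bisector _ _ h).choose else (1, 0)
  refine ⟨(hW.toFinset ×ˢ hW.toFinset).image f, fun z hz w hw w' hw' hww hd => hz ?_⟩
  have h := hne w hw w' hw' hww
  have h1 : f (w, w') = (bisector _ _ h).choose := dif_pos h
  have h2 := (bisector _ _ h).choose_spec z hd
  refine mem_biUnion (x := f (w, w')) ?_ ?_
  · rw [Finset.mem_coe, Finset.mem_image]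
    exact ⟨(w, w'), by simp [hw, hw'], rfl⟩
  · rw [h1]
    exact h2

theorem t_CELL : S_CELL := by
  intro W p0 hW hfix
  have hne : ∀ w ∈ W, ∀ w' ∈ W, w ≠ w' → w p0 ≠ w' p0 := by
    intro w hw w' hw' hww h
    refine hfix (w⁻¹ * w') (mul_mem (inv_mem hw) hw') (fun h1 => hww ?_) ?_
    · have : w' = w * (w⁻¹ * w') := by group
      rw [this, h1, mul_one]
    · show w⁻¹ (w' p0) = p0
      rw [← h]
      exact w.symm_apply_apply p0
  obtain ⟨L, hL⟩ := cell_lines W p0 hW hne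
  have hopen : IsOpen (cell W p0) := by
    have h1 : cell W p0 = ⋂ w ∈ (W : Set (ℂ ≃ᵢ ℂ)),
        {z | w ≠ 1 → dist z p0 < dist z (w p0)} := by
      ext z
      simp [cell]
    rw [h1]
    refine hW.isOpen_biInter fun w _ => ?_
    by_cases hw1 : w = 1
    · have : {z : ℂ | w ≠ 1 → dist z p0 < dist z (w p0)} = univ := by
        ext z; simp [hw1]
      rw [this]
      exact isOpen_univ
    · have : {z : ℂ | w ≠ 1 → dist z p0 < dist z (w p0)} =
          {z | dist z p0 < dist z (w p0)} := by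
        ext z; simp [hw1]
      rw [this]
      exact isOpen_lt (by fun_prop) (by fun_prop)
  have himg : ∀ w ∈ W, ∀ y ∈ cell W p0, ∀ w' ∈ W, w ≠ w' →
      dist (w y) (w p0) < dist (w y) (w' p0) := by
    intro w hw y hy w' hw' hww
    have h1 := hy (w⁻¹ * w') (mul_mem (inv_mem hw) hw') (fun h1 => hww (by
      have : w' = w * (w⁻¹ * w') := by group
      rw [this, h1, mul_one]))
    rw [w.dist_eq]
    have h2 : w ((w⁻¹ * w') p0) = w' p0 := w.apply_symm_apply _
    rw [← h2, w.dist_eq]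
    exact h1
  refine ⟨⟨L, ?_, ?_⟩, ?_⟩
  · intro z hz
    by_contra hzL
    by_cases h1 : ∃ w ∈ W, dist z (w p0) < dist z p0
    · obtain ⟨w, hw, hlt⟩ := h1
      have hw1 : w ≠ 1 := by
        rintro rfl
        exact lt_irrefl _ hlt
      have h2 : IsOpen {y : ℂ | dist y (w p0) < dist y p0} :=
        isOpen_lt (by fun_prop) (by fun_prop)
      have h3 : z ∈ closure (cell W p0) := hz.1
      obtain ⟨y, hy1, hy2⟩ := mem_closure_iff.1 h3 _ h2 hlt
      have h4 := hy2 w hw hw1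
      exact lt_asymm h4 hy1
    · push Not at h1
      apply hz.2
      rw [hopen.interior_eq]
      intro w hw hw1
      exact lt_of_le_of_ne (h1 w hw) (hL z hzL 1 (one_mem W) w hw (Ne.symm hw1))
  · intro z hzL
    obtain ⟨w, hw, hmin⟩ := Set.exists_min_image (W : Set (ℂ ≃ᵢ ℂ)) (fun w => dist z (w p0)) hW
      ⟨1, one_mem W⟩
    refine ⟨w, hw, w⁻¹ z, ?_, w.apply_symm_apply z⟩
    intro w' hw' hw'1
    have e1 : dist (w⁻¹ z) p0 = dist z (w p0) := by
      rw [← w.dist_eq]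
      congr 1
      exact w.apply_symm_apply z
    have e2 : dist (w⁻¹ z) (w' p0) = dist z ((w * w') p0) := by
      rw [← w.dist_eq]
      congr 1
      exact w.apply_symm_apply z
    rw [e1, e2]
    refine lt_of_le_of_ne (hmin _ (mul_mem hw hw')) (hL z hzL w hw _ (mul_mem hw hw') ?_)
    intro h
    apply hw'1
    have : w' = w⁻¹ * (w * w') := by group
    rw [this, ← h]
    group
  · intro w hw w' hw' hww
    rw [Set.disjoint_left]
    rintro _ ⟨y, hy, rfl⟩ ⟨y', hy', h⟩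
    have h' : w' y' = w y := h
    have h1 := himg w hw y hy w' hw' hww
    have h2 := himg w' hw' y' hy' w hw (Ne.symm hww)
    rw [h'] at h2
    exact lt_asymm h1 h2

end

end T2h42.AP
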