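import Pool.Agent.T2h42.AP.Stm

/-!
Task DIR of the project AP (helper32): a fundamental piece of the prototile tiles the triangle.
-/

set_option autoImplicit false

open Set Filter Topology Complex

namespace T2h42.AP

noncomputable section

namespace DIRp

lemma mkC (d : ℂ) (h : ‖d‖ = 1) : ∃ e : Circle, (e : ℂ) = d :=
  ⟨⟨d, mem_sphere_zero_iff_norm.2 h⟩, rfl⟩

lemma ln_image (hK : H74R2.WT.T_K0) (φ : ℂ ≃ᵢ ℂ) (q : Circle × ℝ) :
    ∃ q' : Circle × ℝ, (fun z => φ z) '' ln q ⊆ ln q' := by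
  obtain ⟨u, b, hu, h⟩ := hK φ
  have huu : u * cj u = 1 := by
    rw [Complex.mul_conj, Complex.normSq_eq_norm_sq, hu]
    norm_num
  have hq : ‖(q.1 : ℂ)‖ = 1 := Circle.norm_coe q.1
  have cjm : ∀ x y : ℂ, cj (x * y) = cj x * cj y := fun x y => map_mul _ x y
  have cjc : ∀ x : ℂ, cj (cj x) = x := fun x => Complex.conj_conj x
  have cji : ∀ x : ℂ, (cj x).im = - x.im := fun x => Complex.conj_im x
  rcases h with h | h
  · obtain ⟨e, he⟩ := mkC (u * (q.1 : ℂ)) (by rw [norm_mul, hu, hq, one_mul])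
    refine ⟨(e, q.2 + (b * cj (u * (q.1 : ℂ))).im), ?_⟩
    rintro _ ⟨z, hz, rfl⟩
    have hz' : (z * cj (q.1 : ℂ)).im = q.2 := hz
    show (φ z * cj (e : ℂ)).im = q.2 + (b * cj (u * (q.1 : ℂ))).im
    have h1 : φ z * cj (u * (q.1 : ℂ)) = z * cj (q.1 : ℂ) + b * cj (u * (q.1 : ℂ)) := by
      rw [h z, cjm]
      linear_combination (z * cj (q.1 : ℂ)) * huu
    rw [he, h1, Complex.add_im, hz']
  · obtain ⟨e, he⟩ := mkC (u * cj (q.1 : ℂ)) (by rw [norm_mul, hu, Complex.norm_conj, hq, one_mul])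
    refine ⟨(e, - q.2 + (b * cj (u * cj (q.1 : ℂ))).im), ?_⟩
    rintro _ ⟨z, hz, rfl⟩
    have hz' : (z * cj (q.1 : ℂ)).im = q.2 := hz
    show (φ z * cj (e : ℂ)).im = - q.2 + (b * cj (u * cj (q.1 : ℂ))).im
    have h1 : φ z * cj (u * cj (q.1 : ℂ)) =
        cj (z * cj (q.1 : ℂ)) + b * cj (u * cj (q.1 : ℂ)) := by
      rw [h z, cjm, cjm, cjc]
      linear_combination (cj z * (q.1 : ℂ)) * huu
    rw [he, h1, Complex.add_im, cji, hz']

lemma NL_image (hK : H74R2.WT.T_K0) (φ : ℂ ≃ᵢ ℂ) (L : Finset (Circle × ℝ)) :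
    ∃ L' : Finset (Circle × ℝ), (fun z => φ z) '' NL L ⊆ NL L' := by
  classical
  choose f hf using ln_image hK φ
  refine ⟨L.image f, ?_⟩
  rintro _ ⟨z, hz, rfl⟩
  obtain ⟨q, hq, hzq⟩ := mem_iUnion₂.1 hz
  exact mem_iUnion₂.2 ⟨f q, Finset.mem_image_of_mem f hq, hf q ⟨z, hzq, rfl⟩⟩

lemma NL_images (hK : H74R2.WT.T_K0) (L : Finset (Circle × ℝ)) {ι : Type} (F : Finset ι)
    (φ : ι → (ℂ ≃ᵢ ℂ)) :
    ∃ L' : Finset (Circle × ℝ), ∀ i ∈ F, (fun z => φ i z) '' NL L ⊆ NL L' := by
  classical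
  choose f hf using fun i => NL_image hK (φ i) L
  refine ⟨F.biUnion f, fun i hi z hz => ?_⟩
  obtain ⟨q, hq, hzq⟩ := mem_iUnion₂.1 (hf i hz)
  exact mem_iUnion₂.2 ⟨q, Finset.mem_biUnion.2 ⟨i, hi, hq⟩, hzq⟩

lemma NL_mono {L L' : Finset (Circle × ℝ)} (h : L ⊆ L') : NL L ⊆ NL L' := by
  intro z hz
  obtain ⟨q, hq, hzq⟩ := mem_iUnion₂.1 hz
  exact mem_iUnion₂.2 ⟨q, h hq, hzq⟩

lemma dsq (z w : ℂ) : dist z w ^ 2 = (z.re - w.re) ^ 2 + (z.im - w.im) ^ 2 := by
  rw [Complex.dist_eq, ← Complex.normSq_eq_norm_sq, Complex.normSq_apply, Complex.sub_re,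
    Complex.sub_im]
  ring

/-- third coordinate of the triangle -/
def lam3 (p q : ℝ) (z : ℂ) : ℝ := 1 - z.re / p - z.im / q

lemma refl3 (p q : ℝ) (hp : 0 < p) (hq : 0 < q) (y : ℂ) :
    ((p : ℂ) + ((-p + q * I) / (-p - q * I)) * cj (y - p)) =
      ⟨y.re + 2 * p * q * lam3 p q y * q / (p ^ 2 + q ^ 2),
        y.im + 2 * p * q * lam3 p q y * p / (p ^ 2 + q ^ 2)⟩ := by
  have h1 : (-(p : ℂ) - q * I) ≠ 0 := by
    intro h
    have := congrArg Complex.re h
    simp at this
    exact hp.ne' this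
  have h2 : (p ^ 2 + q ^ 2 : ℝ) ≠ 0 := by positivity
  have h3 : ((p : ℂ) + ((-p + q * I) / (-p - q * I)) * cj (y - p)) =
      (p : ℂ) + ((-p + q * I) * (-p + q * I) / ((p ^ 2 + q ^ 2 : ℝ) : ℂ)) * cj (y - p) := by
    have h4 : ((-(p : ℂ) + q * I) / (-p - q * I)) =
        ((-p + q * I) * (-p + q * I) / ((p ^ 2 + q ^ 2 : ℝ) : ℂ)) := by
      rw [div_eq_div_iff h1 (by exact_mod_cast h2)]
      push_cast
      linear_combination (-(p : ℂ) + q * I) * (q ^ 2) * Complex.I_sq
    rw [h4]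
  rw [h3]
  have h5 : ((p ^ 2 + q ^ 2 : ℝ) : ℂ) ≠ 0 := by exact_mod_cast h2
  apply Complex.ext
  · simp only [Complex.add_re, Complex.mul_re, Complex.div_re, Complex.mul_im, Complex.div_im,
      Complex.conj_re, Complex.conj_im, Complex.sub_re, Complex.sub_im, Complex.ofReal_re,
      Complex.ofReal_im, Complex.add_im, Complex.neg_re, Complex.neg_im, Complex.I_re,
      Complex.I_im, Complex.normSq_ofReal, lam3]
    field_simp
    ring
  · simp only [Complex.add_re, Complex.mul_re, Complex.div_re, Complex.mul_im, Complex.div_im,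
      Complex.conj_re, Complex.conj_im, Complex.sub_re, Complex.sub_im, Complex.ofReal_re,
      Complex.ofReal_im, Complex.add_im, Complex.neg_re, Complex.neg_im, Complex.I_re,
      Complex.I_im, Complex.normSq_ofReal, lam3]
    field_simp
    ring

lemma dist3 (p q : ℝ) (hp : 0 < p) (hq : 0 < q) (z y : ℂ) :
    dist z ((p : ℂ) + ((-p + q * I) / (-p - q * I)) * cj (y - p)) ^ 2 - dist z y ^ 2 =
      4 * p ^ 2 * q ^ 2 / (p ^ 2 + q ^ 2) * (lam3 p q z * lam3 p q y) := by
  rw [refl3 p q hp hq, dsq, dsq]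
  have h2 : (p ^ 2 + q ^ 2 : ℝ) ≠ 0 := by positivity
  simp only [lam3]
  field_simp
  ring

end DIRp

open DIRp in
theorem t_DIR : S_DIR := by
  classical
  intro hSYF hGENP hCELL hSIDE hK hO P hP
  -- the finite group of the prototile
  have hWfin : {w : ℂ ≃ᵢ ℂ | (fun z => w z) '' P = P}.Finite := hSYF hK P hP
  let W : Subgroup (ℂ ≃ᵢ ℂ) :=
    { carrier := {w : ℂ ≃ᵢ ℂ | (fun z => w z) '' P = P}
      one_mem' := by
        show (fun z => (1 : ℂ ≃ᵢ ℂ) z) '' P = P
        simp
      mul_mem' := by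
        intro g h hg hh
        have hg' : (fun z => g z) '' P = P := hg
        have hh' : (fun z => h z) '' P = P := hh
        show (fun z => (g * h) z) '' P = P
        conv_rhs => rw [← hg', ← hh']
        rw [image_image]
        rfl
      inv_mem' := by
        intro g hg
        have hg' : (fun z => g z) '' P = P := hg
        show (fun z => g⁻¹ z) '' P = P
        conv_lhs => rw [← hg']
        rw [image_image]
        have : ∀ z, g⁻¹ (g z) = z := fun z => g.symm_apply_apply z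
        simp only [this, image_id'] }
  have hWmem : ∀ w, w ∈ W ↔ (fun z => w z) '' P = P := fun w => Iff.rfl
  have hWf : (W : Set (ℂ ≃ᵢ ℂ)).Finite := hWfin
  obtain ⟨p0, hp0⟩ := hGENP hK (W : Set (ℂ ≃ᵢ ℂ)) hWf
  obtain ⟨⟨L2, hL2, hcov⟩, hdis⟩ := hCELL W p0 hWf hp0
  obtain ⟨L1, hL1⟩ := hP.fr
  have hPcl : IsClosed P := hP.cpt.isClosed
  have hWint : ∀ w ∈ W, (fun z => w z) '' interior P = interior P := by
    intro w hw
    have h1 := (hWmem w).1 hw
    have h2 : (fun z => w z) '' interior P = interior ((fun z => w z) '' P) :=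
      w.toHomeomorph.image_interior P
    rw [h2, h1]
  refine ⟨interior P ∩ cell W p0, ⟨(hP.cpt.isBounded.subset interior_subset).subset
    inter_subset_left, L1 ∪ L2, ?_⟩, ?_⟩
  · -- the frontier
    intro z hz
    have h1 := frontier_inter_subset _ _ hz
    rcases h1 with h1 | h1
    · have h2 : z ∈ frontier P := frontier_interior_subset h1.1
      exact NL_mono Finset.subset_union_left (hL1 h2)
    · exact NL_mono Finset.subset_union_right (hL2 h1.2)
  intro T hT p q hp hq hR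
  obtain ⟨⟨a, haT, ha⟩, ⟨c, hcT, hc⟩, ⟨b, hbT, hb⟩⟩ := hR
  have ha' : ∀ z, a z = cj z := fun z => ha z
  have hc' : ∀ z, c z = - cj z := fun z => hc z
  have hb' : ∀ z, b z = p + ((-p + q * I) / (-p - q * I)) * cj (z - p) := fun z => hb z
  obtain ⟨_, _, hfin, _, _⟩ := hO P T ⟨hP.cpt, hP.conn.nonempty, hP.reg⟩ hT
  have hF := hfin (p + q)
  set F : Finset (Set ℂ) := hF.toFinset with hFdef
  have hFmem : ∀ A, A ∈ F ↔ A ∈ T ∧ (A ∩ Metric.closedBall 0 (p + q)).Nonempty := by
    intro A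
    rw [hFdef, Set.Finite.mem_toFinset]
    rfl
  have hφex : ∀ A : Set ℂ, ∃ g : ℂ ≃ᵢ ℂ, A ∈ T → A = (fun z => g z) '' P := by
    intro A
    by_cases hA : A ∈ T
    · obtain ⟨g, hg⟩ := hT.tile A hA
      exact ⟨g, fun _ => hg⟩
    · exact ⟨1, fun h => absurd h hA⟩
  choose φ hφ using hφex
  let piece : Set ℂ × (ℂ ≃ᵢ ℂ) → Set ℂ :=
    fun x => (fun z => (φ x.1 * x.2) z) '' (interior P ∩ cell W p0)
  -- the dichotomy
  have hdich : ∀ A ∈ T, ∀ w ∈ W, piece (A, w) ⊆ Tri p q ∨ Disjoint (piece (A, w)) (Tri p q) := by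
    intro A hA w hw
    have hAT : (fun z => φ A z) '' P ∈ T := by rw [← hφ A hA]; exact hA
    have hside : ∀ (r : ℂ ≃ᵢ ℂ) (lam : ℂ → ℝ) (k : ℝ), r ∈ H74R2.WT.Sym T → r ≠ 1 →
        Continuous lam → 0 < k →
        (∀ z y, dist z (r y) ^ 2 - dist z y ^ 2 = k * (lam z * lam y)) →
        (∀ z ∈ interior P ∩ cell W p0, 0 < lam (φ A (w z))) ∨
        (∀ z ∈ interior P ∩ cell W p0, lam (φ A (w z)) < 0) := by
      intro r lam k hr hr1 hlam hk hdist
      exact hSIDE P T r (φ A) lam k W p0 hP hT hr hr1 hAT hlam hk hdist hWmem w hw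
    have h1 := hside a Complex.im 4 haT (by
      intro h
      have h2 := ha' I
      rw [h] at h2
      have h3 := congrArg Complex.im h2
      simp at h3
      norm_num at h3) Complex.continuous_im (by norm_num) (by
      intro z y
      rw [ha', dsq, dsq, Complex.conj_re, Complex.conj_im]
      ring)
    have h2 := hside c Complex.re 4 hcT (by
      intro h
      have h2 := hc' 1
      rw [h] at h2
      have h3 := congrArg Complex.re h2
      simp at h3
      norm_num at h3) Complex.continuous_re (by norm_num) (by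
      intro z y
      rw [hc', dsq, dsq, Complex.neg_re, Complex.neg_im, Complex.conj_re, Complex.conj_im]
      ring)
    have h3 := hside b (lam3 p q) (4 * p ^ 2 * q ^ 2 / (p ^ 2 + q ^ 2)) hbT (by
      intro h
      have h2 := dist3 p q hp hq 0 0
      rw [← hb', h] at h2
      have h4 : lam3 p q 0 = 1 := by simp [lam3]
      rw [h4] at h2
      simp only [IsometryEquiv.coe_one, id_eq, sub_self, mul_one] at h2
      have h5 : 0 < 4 * p ^ 2 * q ^ 2 / (p ^ 2 + q ^ 2) := by positivity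
      exact h5.ne h2) (by
        unfold lam3
        fun_prop) (by positivity) (by
      intro z y
      rw [hb']
      exact dist3 p q hp hq z y)
    by_cases hall : (∀ z ∈ interior P ∩ cell W p0, 0 < (φ A (w z)).im) ∧
      (∀ z ∈ interior P ∩ cell W p0, 0 < (φ A (w z)).re) ∧
      (∀ z ∈ interior P ∩ cell W p0, 0 < lam3 p q (φ A (w z)))
    · left
      rintro _ ⟨z, hz, rfl⟩
      obtain ⟨g1, g2, g3⟩ := hall
      refine ⟨g2 z hz, g1 z hz, ?_⟩
      have h4 := g3 z hz
      simp only [lam3] at h4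
      show (φ A (w z)).re / p + (φ A (w z)).im / q < 1
      linarith
    · right
      rw [Set.disjoint_left]
      rintro _ ⟨z, hz, rfl⟩ hzT
      apply hall
      obtain ⟨t1, t2, t3⟩ := hzT
      have t1' : 0 < (φ A (w z)).re := t1
      have t2' : 0 < (φ A (w z)).im := t2
      have t3' : 0 < lam3 p q (φ A (w z)) := by
        have t3'' : (φ A (w z)).re / p + (φ A (w z)).im / q < 1 := t3
        simp only [lam3]
        linarith
      refine ⟨?_, ?_, ?_⟩
      · rcases h1 with h1 | h1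
        · exact h1
        · exact absurd (h1 z hz) (not_lt.2 t2'.le)
      · rcases h2 with h2 | h2
        · exact h2
        · exact absurd (h2 z hz) (not_lt.2 t1'.le)
      · rcases h3 with h3 | h3
        · exact h3
        · exact absurd (h3 z hz) (not_lt.2 t3'.le)
  -- the lines
  obtain ⟨L', hL'⟩ := NL_images hK (L1 ∪ L2) F φ
  -- the index set
  let Wf : Finset (ℂ ≃ᵢ ℂ) := hWf.toFinset
  have hWfm : ∀ w, w ∈ Wf ↔ w ∈ W := by
    intro w
    simp only [Wf, Set.Finite.mem_toFinset, SetLike.mem_coe]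
  let K : Finset (Set ℂ × (ℂ ≃ᵢ ℂ)) := (F ×ˢ Wf).filter fun x => piece x ⊆ Tri p q
  have hKm : ∀ x, x ∈ K ↔ (x.1 ∈ F ∧ x.2 ∈ W) ∧ piece x ⊆ Tri p q := by
    intro x
    simp only [K, Finset.mem_filter, Finset.mem_product, hWfm]
  refine ⟨K.card, fun i => φ (K.equivFin.symm i).1.1 * (K.equivFin.symm i).1.2, L', ?_⟩
  intro z hz
  have hsum : ∑ i : Fin K.card, ind ((fun w => (φ (K.equivFin.symm i).1.1 *
      (K.equivFin.symm i).1.2) w) '' (interior P ∩ cell W p0)) z = ∑ x ∈ K, ind (piece x) z := by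
    rw [← Finset.sum_coe_sort K (fun x => ind (piece x) z)]
    exact Equiv.sum_comp K.equivFin.symm (fun x : K => ind (piece x.1) z)
  rw [hsum]
  -- uniqueness
  have huniq : ∀ x ∈ K, ∀ y ∈ K, z ∈ piece x → z ∈ piece y → x = y := by
    rintro ⟨A, w⟩ hx ⟨A', w'⟩ hy ⟨z1, hz1, hz1'⟩ ⟨z2, hz2, hz2'⟩
    have hx' := (hKm _).1 hx
    have hy' := (hKm _).1 hy
    have hAT := ((hFmem A).1 hx'.1.1).1
    have hAT' := ((hFmem A').1 hy'.1.1).1
    have e1 : φ A (w z1) = z := hz1'
    have e2 : φ A' (w' z2) = z := hz2'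
    have hin : ∀ (A : Set ℂ) (hA : A ∈ T) (w : ℂ ≃ᵢ ℂ) (hw : w ∈ W) (z1 : ℂ)
        (hz1 : z1 ∈ interior P), φ A (w z1) ∈ interior A := by
      intro A hA w hw z1 hz1
      have h1 : interior A = (fun z => φ A z) '' interior P := by
        conv_lhs => rw [hφ A hA]
        exact ((φ A).toHomeomorph.image_interior P).symm
      rw [h1]
      refine ⟨w z1, ?_, rfl⟩
      rw [← hWint w hw]
      exact ⟨z1, hz1, rfl⟩
    have hAA : A = A' := by
      by_contra hne
      have h1 := hT.disj hAT hAT' hne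
      have h2 := hin A hAT w hx'.1.2 z1 hz1.1
      have h3 := hin A' hAT' w' hy'.1.2 z2 hz2.1
      rw [e1] at h2
      rw [e2] at h3
      exact Set.disjoint_left.1 h1 h2 h3
    subst hAA
    have h4 : w z1 = w' z2 := (φ A).injective (e1.trans e2.symm)
    have hww : w = w' := by
      by_contra hne
      refine Set.disjoint_left.1 (hdis w hx'.1.2 w' hy'.1.2 hne) ⟨z1, hz1.2, rfl⟩ ?_
      exact ⟨z2, hz2.2, h4.symm⟩
    rw [hww]
  by_cases hzT : z ∈ Tri p q
  · -- existence
    obtain ⟨x, hxK, hzx⟩ : ∃ x ∈ K, z ∈ piece x := by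
      have h1 : z ∈ ⋃₀ T := by rw [hT.cover]; exact mem_univ z
      obtain ⟨A, hAT, hzA⟩ := h1
      have hzball : z ∈ Metric.closedBall (0 : ℂ) (p + q) := by
        obtain ⟨t1, t2, t3⟩ := hzT
        have t4 : z.re < p := by
          have : z.re / p < 1 := by
            have : 0 < z.im / q := div_pos t2 hq
            linarith
          rwa [div_lt_one hp] at this
        have t5 : z.im < q := by
          have : z.im / q < 1 := by
            have : 0 < z.re / p := div_pos t1 hp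
            linarith
          rwa [div_lt_one hq] at this
        rw [mem_closedBall_zero_iff]
        refine (Complex.norm_le_abs_re_add_abs_im z).trans ?_
        rw [abs_of_pos t1, abs_of_pos t2]
        linarith
      have hAF : A ∈ F := (hFmem A).2 ⟨hAT, z, hzA, hzball⟩
      have hzA' := hzA
      rw [hφ A hAT] at hzA'
      obtain ⟨y, hyP, hyz⟩ := hzA'
      have hyz' : φ A y = z := hyz
      have hyL : y ∉ NL (L1 ∪ L2) := by
        intro h
        exact hz (hL' A hAF ⟨y, h, hyz⟩)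
      have hyint : y ∈ interior P := by
        by_contra h
        refine hyL (NL_mono Finset.subset_union_left (hL1 ?_))
        exact ⟨subset_closure hyP, h⟩
      obtain ⟨w, hw, y1, hy1, hy1'⟩ := hcov y fun h => hyL (NL_mono Finset.subset_union_right h)
      have hy1'' : w y1 = y := hy1'
      have hy1int : y1 ∈ interior P := by
        have h2 := hWint w hw
        rw [← h2] at hyint
        obtain ⟨y2, hy2, hy2'⟩ := hyint
        have : y1 = y2 := w.injective (hy1''.trans hy2'.symm)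
        rw [this]
        exact hy2
      have hzp : z ∈ piece (A, w) := by
        refine ⟨y1, ⟨hy1int, hy1⟩, ?_⟩
        show φ A (w y1) = z
        rw [hy1'', hyz']
      refine ⟨(A, w), (hKm _).2 ⟨⟨hAF, hw⟩, ?_⟩, hzp⟩
      rcases hdich A hAT w hw with h | h
      · exact h
      · exact absurd hzT (Set.disjoint_left.1 h hzp)
    rw [Finset.sum_eq_single x]
    · simp only [ind]
      rw [Set.indicator_of_mem hzT, Set.indicator_of_mem hzx]
    · intro y hy hyx
      simp only [ind]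
      refine Set.indicator_of_notMem ?_ _
      intro h
      exact hyx (huniq y hy x hxK h hzx)
    · intro h
      exact absurd hxK h
  · rw [Finset.sum_eq_zero]
    · simp only [ind]
      exact Set.indicator_of_notMem hzT _
    · intro x hx
      simp only [ind]
      refine Set.indicator_of_notMem ?_ _
      intro h
      exact hzT (((hKm x).1 hx).2 h)

end

end T2h42.AP
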