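import Pool.Agent.T2h42.AP.Stm

set_option autoImplicit false

open Set Filter Topology Complex

namespace T2h42.AP

noncomputable section

theorem t_FINS : S_FINS := by
  intro hL G hG
  obtain ⟨-, L, hLG⟩ := hG
  have h1 : {q : Circle × ℝ | Dn G (q.1 : ℂ) q.2 ≠ 0} ⊆
      (L : Set (Circle × ℝ)) ∪ ⋃ q' ∈ (L : Set (Circle × ℝ)),
        {q : Circle × ℝ | (q'.1 : ℂ) = - (q.1 : ℂ) ∧ q'.2 = - q.2} := by
    intro q hq
    by_contra hcon
    simp only [mem_union, mem_iUnion, not_or, not_exists] at hcon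
    refine hq (hL G L hLG q fun q' hq' => ⟨?_, fun h => hcon.2 q' hq' h⟩)
    rintro rfl
    exact hcon.1 hq'
  refine Set.Finite.subset (L.finite_toSet.union (L.finite_toSet.biUnion fun q' _ => ?_)) h1
  refine Set.Subsingleton.finite ?_
  rintro ⟨a, x⟩ ⟨h2, h3⟩ ⟨b, y⟩ ⟨h4, h5⟩
  have e1 : (a : ℂ) = b := by
    have := h2.symm.trans h4
    simpa using this
  have e2 : x = y := by
    have := h3.symm.trans h5
    simpa using this
  exact Prod.ext (Circle.ext e1) e2

theorem t_VLIN : S_VLIN := by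
  intro hL hF Φ G hG
  have hfin := hF hL G hG
  let s : Finset (Circle × ℝ) := hfin.toFinset
  refine ⟨∑ q ∈ s, (LinearMap.mk (AddHom.mk (fun g : ℝ →+ ℝ =>
      ((Φ g (Dn G (q.1 : ℂ) q.2) : ℝ) : ℂ) * (q.1 : ℂ)) ?_) ?_ : (ℝ →+ ℝ) →ₗ[ℝ] ℂ), ?_⟩
  · intro g g'
    rw [map_add, LinearMap.add_apply, Complex.ofReal_add, add_mul]
  · intro c g
    simp only [map_smul, LinearMap.smul_apply, smul_eq_mul, Complex.ofReal_mul, RingHom.id_apply,
      Complex.real_smul]
    ring
  · intro g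
    rw [LinearMap.sum_apply]
    unfold VV
    rw [finsum_eq_sum_of_support_subset (s := s)]
    · rfl
    · intro q hq
      simp only [s, Finite.coe_toFinset, mem_setOf_eq]
      intro h
      apply hq
      show ((Φ g (Dn G (q.1 : ℂ) q.2) : ℝ) : ℂ) * (q.1 : ℂ) = 0
      rw [h, map_zero, Complex.ofReal_zero, zero_mul]

end

end T2h42.AP
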