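import Pool.Agent.T2h42.AP.Stm

set_option autoImplicit false

/-! Task GE4 of project AP (helper97). -/

namespace T2h42.AP

open H74R2.WT H74R2.WT.N34

noncomputable section

/-- the order of `z ↦ u z + l`, `u ≠ 1`, is the order of `u` -/
theorem ord_rt (g : ℂ ≃ᵢ ℂ) (u l : ℂ) (hu : u ≠ 1) (h : ∀ z, g z = u * z + l) :
    orderOf g = orderOf u := by
  rw [orderOf_eq_orderOf_iff]
  have h1 : (1 : ℂ) - u ≠ 0 := sub_ne_zero.2 (Ne.symm hu)
  have hf : u * (l / (1 - u)) + l = l / (1 - u) := by
    field_simp
    ring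
  have key : ∀ (n : ℕ) (z : ℂ), (g ^ n) z = u ^ n * (z - l / (1 - u)) + l / (1 - u) := by
    intro n
    induction n with
    | zero => intro z; simp
    | succ n ih =>
      intro z
      rw [pow_succ']
      show g ((g ^ n) z) = _
      rw [ih, h, pow_succ']
      linear_combination hf
  intro n
  constructor
  · intro hn
    have e := key n (1 + l / (1 - u))
    rw [hn] at e
    have e' : (1 : ℂ) + l / (1 - u) = u ^ n * (1 + l / (1 - u) - l / (1 - u)) + l / (1 - u) := e
    linear_combination -e'
  · intro hn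
    ext z
    rw [key, hn]
    show _ = z
    ring

theorem ord_coe {G : Subgroup (ℂ ≃ᵢ ℂ)} (x : G) (u l : ℂ) (n : ℕ) (hu : u ≠ 1)
    (h : ∀ z, (x : ℂ ≃ᵢ ℂ) z = u * z + l) (hn : orderOf u = n) : orderOf x = n := by
  rw [← Subgroup.orderOf_coe, ord_rt _ u l hu h, hn]

theorem ord_I : orderOf Complex.I = 4 := by
  rw [orderOf_eq_iff (by norm_num)]
  constructor
  · exact Complex.I_pow_four
  · intro m hm hm0
    interval_cases m
    · intro h
      have := congrArg Complex.re h
      simp at this
    · rw [Complex.I_sq]; norm_num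
    · rw [Complex.I_pow_three]
      intro h
      have := congrArg Complex.re h
      simp at this

theorem ord_neg : orderOf (-1 : ℂ) = 2 := by
  rw [orderOf_eq_iff (by norm_num)]
  constructor
  · norm_num
  · intro m hm hm0
    interval_cases m
    norm_num

theorem e3_sq' : e3 * e3 = e3 - 1 := by
  have h := e3_sq
  simp only [Int.cast_one, one_mul] at h
  exact h

theorem e3_cj' : (starRingEnd ℂ) e3 = 1 - e3 := by
  have h := e3_cj
  simp only [Int.cast_one] at h
  exact h

theorem e3_ne_one : e3 ≠ 1 := by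
  intro h
  have := congrArg Complex.im h
  exact e3_im (by simpa using this)

theorem e3_ne_zero : e3 ≠ 0 := by
  intro h
  have := congrArg Complex.im h
  exact e3_im (by simpa using this)

theorem ord_e3 : orderOf e3 = 6 := by
  have h := e3_sq'
  rw [orderOf_eq_iff (by norm_num)]
  constructor
  · linear_combination (e3 ^ 4 + e3 ^ 3 - e3 - 1) * h
  · intro m hm hm0
    interval_cases m
    · rw [pow_one]; exact e3_ne_one
    · intro hh
      have e : e3 = 2 := by linear_combination hh - h
      have := congrArg Complex.im e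
      exact e3_im (by simpa using this)
    · intro hh
      have e : (2 : ℂ) = 0 := by linear_combination (e3 + 1) * h - hh
      norm_num at e
    · intro hh
      have e : e3 = -1 := by linear_combination (e3 ^ 2 + e3) * h - hh
      have := congrArg Complex.im e
      exact e3_im (by simpa using this)
    · intro hh
      have e : e3 = 0 := by linear_combination (e3 ^ 3 + e3 ^ 2 - 1) * h - hh
      exact e3_ne_zero e

theorem ord_w3 : orderOf w3 = 3 := by
  have h := w3_sq
  rw [orderOf_eq_iff (by norm_num)]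
  constructor
  · exact w3_cube
  · intro m hm hm0
    interval_cases m
    · rw [pow_one]; exact w3_ne
    · intro hh
      have e : w3 = -2 := by linear_combination h - hh
      rw [e] at h
      norm_num at h

theorem t_GE4 : S_GE4 := by
  have I4 : (-Complex.I) ^ 4 = 1 := by
    linear_combination (Complex.I * Complex.I - 1) * Complex.I_mul_I
  refine ⟨⟨rf 1 hn1 0, Or.inr ⟨trivial, 1, one_mem _, one_pow _, 0, zero_mem _, fun z => ?_⟩⟩,
    ⟨rf (-Complex.I) hnnI (1 + Complex.I), Or.inr ⟨trivial, -Complex.I, neg_mem dat4.mem, I4,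
      1 + Complex.I, add_mem (one_mem _) dat4.mem, fun z => ?_⟩⟩,
    ⟨rf (-1) hnn1 0, Or.inr ⟨trivial, -1, neg_mem (one_mem _), by norm_num, 0, zero_mem _,
      fun z => ?_⟩⟩, ?_, ?_, ?_, ?_, ?_, ?_, ?_⟩
  · rw [rf_apply, add_zero, add_zero]
  · rw [rf_apply, add_zero]
  · rw [rf_apply, add_zero, add_zero]
  · apply Subtype.ext
    ext z
    show (1 : ℂ) * (starRingEnd ℂ) (1 * (starRingEnd ℂ) z + 0) + 0 = z
    simp
  · apply Subtype.ext
    ext z
    show (-Complex.I) * (starRingEnd ℂ) (-Complex.I * (starRingEnd ℂ) z + (1 + Complex.I)) +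
      (1 + Complex.I) = z
    simp only [map_add, map_mul, map_neg, map_one, Complex.conj_conj, Complex.conj_I]
    linear_combination (1 - z) * Complex.I_mul_I
  · apply Subtype.ext
    ext z
    show (-1 : ℂ) * (starRingEnd ℂ) (-1 * (starRingEnd ℂ) z + 0) + 0 = z
    simp
  · refine ord_coe _ Complex.I (1 - Complex.I) 4 ?_ (fun z => ?_) ord_I
    · intro h
      have := congrArg Complex.re h
      simp at this
    · show (1 : ℂ) * (starRingEnd ℂ) (-Complex.I * (starRingEnd ℂ) z + (1 + Complex.I)) + 0 = _
      simp only [map_add, map_mul, map_neg, map_one, Complex.conj_conj, Complex.conj_I]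
      ring
  · refine ord_coe _ Complex.I (1 + Complex.I) 4 ?_ (fun z => ?_) ord_I
    · intro h
      have := congrArg Complex.re h
      simp at this
    · show (-Complex.I) * (starRingEnd ℂ) (-1 * (starRingEnd ℂ) z + 0) + (1 + Complex.I) = _
      simp only [map_add, map_mul, map_neg, map_one, map_zero, Complex.conj_conj, Complex.conj_I]
      ring
  · refine ord_coe _ (-1) 0 2 (by norm_num) (fun z => ?_) ord_neg
    show (1 : ℂ) * (starRingEnd ℂ) (-1 * (starRingEnd ℂ) z + 0) + 0 = _
    simp
  · intro h
    have h1 := congrArg (fun g : G4 => (g : ℂ ≃ᵢ ℂ) 0) h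
    have h2 : (1 : ℂ) * (starRingEnd ℂ) (-Complex.I * (starRingEnd ℂ) (-1 * (starRingEnd ℂ)
      ((1 : ℂ) * (starRingEnd ℂ) (-Complex.I * (starRingEnd ℂ) (-1 * (starRingEnd ℂ) 0 + 0) +
        (1 + Complex.I)) + 0) + 0) + (1 + Complex.I)) + 0 = 0 := h1
    simp only [map_add, map_mul, map_neg, map_one, map_zero, Complex.conj_conj,
      Complex.conj_I] at h2
    have h3 := congrArg Complex.re h2
    norm_num at h3

end

end T2h42.AP
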