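import Pool.Agent.T2h42.AP.GE4

set_option autoImplicit false

/-! Task GE6 of project AP (helper97). -/

namespace T2h42.AP

open H74R2.WT H74R2.WT.N34

noncomputable section

theorem t_GE6 : S_GE6 := by
  have hs := e3_sq'
  have hc := e3_cj'
  have hn : ‖(-1 : ℂ)‖ = 1 := by simp
  have hp : ‖(1 : ℂ)‖ = 1 := by simp
  have c6 : (1 - e3) ^ 6 = 1 := by
    linear_combination (e3 ^ 4 - 5 * e3 ^ 3 + 9 * e3 ^ 2 - 6 * e3) * hs
  have hb : ‖(1 - e3 : ℂ)‖ = 1 := Complex.norm_eq_one_of_pow_eq_one c6 (by norm_num)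
  refine ⟨⟨rf 1 hp 0, Or.inr ⟨trivial, 1, one_mem _, one_pow _, 0, zero_mem _, fun z => ?_⟩⟩,
    ⟨rf (1 - e3) hb e3, Or.inr ⟨trivial, 1 - e3, sub_mem (one_mem _) ⟨0, 1, by simp⟩, c6,
      e3, ⟨0, 1, by simp⟩, fun z => ?_⟩⟩,
    ⟨rf (-1) hn 0, Or.inr ⟨trivial, -1, neg_mem (one_mem _), by norm_num, 0, zero_mem _,
      fun z => ?_⟩⟩, ?_, ?_, ?_, ?_, ?_, ?_, ?_⟩
  · rw [rf_apply, add_zero, add_zero]
  · rw [rf_apply, add_zero]
  · rw [rf_apply, add_zero, add_zero]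
  · apply Subtype.ext
    ext z
    show (1 : ℂ) * (starRingEnd ℂ) (1 * (starRingEnd ℂ) z + 0) + 0 = z
    simp
  · apply Subtype.ext
    ext z
    show (1 - e3) * (starRingEnd ℂ) ((1 - e3) * (starRingEnd ℂ) z + e3) + e3 = z
    simp only [map_add, map_mul, map_sub, map_one, Complex.conj_conj, hc]
    linear_combination (1 - z) * hs
  · apply Subtype.ext
    ext z
    show (-1 : ℂ) * (starRingEnd ℂ) (-1 * (starRingEnd ℂ) z + 0) + 0 = z
    simp
  · refine ord_coe _ e3 (1 - e3) 6 e3_ne_one (fun z => ?_) ord_e3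
    show (1 : ℂ) * (starRingEnd ℂ) ((1 - e3) * (starRingEnd ℂ) z + e3) + 0 = _
    simp only [map_add, map_mul, map_sub, map_one, Complex.conj_conj, hc]
    ring
  · refine ord_coe _ w3 e3 3 w3_ne (fun z => ?_) ord_w3
    show (1 - e3) * (starRingEnd ℂ) (-1 * (starRingEnd ℂ) z + 0) + e3 = _
    simp only [map_add, map_mul, map_neg, map_one, map_zero, Complex.conj_conj]
    unfold w3
    ring
  · refine ord_coe _ (-1) 0 2 (by norm_num) (fun z => ?_) ord_neg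
    show (1 : ℂ) * (starRingEnd ℂ) (-1 * (starRingEnd ℂ) z + 0) + 0 = _
    simp
  · intro h
    have h1 := congrArg (fun g : G6 => (g : ℂ ≃ᵢ ℂ) 0) h
    have h2 : (1 : ℂ) * (starRingEnd ℂ) ((1 - e3) * (starRingEnd ℂ) (-1 * (starRingEnd ℂ)
      ((1 : ℂ) * (starRingEnd ℂ) ((1 - e3) * (starRingEnd ℂ) (-1 * (starRingEnd ℂ) 0 + 0) +
        e3) + 0) + 0) + e3) + 0 = 0 := h1
    simp only [map_add, map_mul, map_neg, map_one, map_zero, map_sub, Complex.conj_conj,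
      hc] at h2
    apply e3_ne_one
    linear_combination (-1 / 2 : ℂ) * h2 - (1 / 2 : ℂ) * hs

end

end T2h42.AP
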