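import Pool.Agent.T2h42.AP.Stm

/-!
Task GENP of project AP (helper42): a point in general position. (helper22)
The point is taken on the parabola `t + i t²`.
-/

set_option autoImplicit false

open Complex Polynomial

namespace T2h42.AP

/-- the parabola -/
noncomputable def par (t : ℝ) : ℂ := (t : ℂ) + I * (t : ℂ) ^ 2

theorem cj_par (t : ℝ) : (starRingEnd ℂ) (par t) = (t : ℂ) - I * (t : ℂ) ^ 2 := by
  simp [par, Complex.conj_ofReal, sub_eq_add_neg]

theorem fin_quad (α β γ : ℂ) (h : α ≠ 0 ∨ β ≠ 0 ∨ γ ≠ 0) :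
    {t : ℝ | α + β * (t : ℂ) + γ * (t : ℂ) ^ 2 = 0}.Finite := by
  have hP : (C α + C β * X + C γ * X ^ 2 : ℂ[X]) ≠ 0 := by
    intro h0
    have c0 := congrArg (fun P => P.coeff 0) h0
    have c1 := congrArg (fun P => P.coeff 1) h0
    have c2 := congrArg (fun P => P.coeff 2) h0
    simp [coeff_X, coeff_C, coeff_X_pow] at c0 c1 c2
    rcases h with h | h | h
    · exact h c0
    · exact h c1
    · exact h c2
  have h1 : {z : ℂ | (C α + C β * X + C γ * X ^ 2 : ℂ[X]).IsRoot z}.Finite :=
    Polynomial.finite_setOfPred_isRoot hP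
  refine (h1.preimage (Complex.ofReal_injective.injOn)).subset ?_
  intro t ht
  have ht' : α + β * (t : ℂ) + γ * (t : ℂ) ^ 2 = 0 := ht
  show (C α + C β * X + C γ * X ^ 2 : ℂ[X]).eval (t : ℂ) = 0
  simpa using ht'

theorem fin_fix (hK : H74R2.WT.T_K0) (w : ℂ ≃ᵢ ℂ) (hw : w ≠ 1) :
    {t : ℝ | w (par t) = par t}.Finite := by
  obtain ⟨u, b, hu, h | h⟩ := hK w
  · -- direct case
    refine (fin_quad b (u - 1) ((u - 1) * I) ?_).subset ?_
    · by_contra hcon
      push Not at hcon
      obtain ⟨hb, hu1, -⟩ := hcon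
      apply hw
      have hu1 : u = 1 := sub_eq_zero.mp hu1
      ext z
      rw [h z, hb, hu1]
      simp
    · intro t ht
      have ht' : w (par t) = par t := ht
      rw [h] at ht'
      show b + (u - 1) * (t : ℂ) + ((u - 1) * I) * (t : ℂ) ^ 2 = 0
      simp only [par] at ht'
      linear_combination ht'
  · refine (fin_quad b (u - 1) (-(u + 1) * I) ?_).subset ?_
    · by_contra hcon
      push Not at hcon
      obtain ⟨hb, hu1, hu2⟩ := hcon
      have hu1 : u = 1 := sub_eq_zero.mp hu1
      rw [hu1] at hu2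
      have := mul_eq_zero.mp hu2
      rcases this with h3 | h3
      · norm_num at h3
      · exact I_ne_zero h3
    · intro t ht
      have ht' : w (par t) = par t := ht
      rw [h, cj_par] at ht'
      show b + (u - 1) * (t : ℂ) + (-(u + 1) * I) * (t : ℂ) ^ 2 = 0
      simp only [par] at ht'
      linear_combination ht'

theorem t_GENP : S_GENP := by
  intro hK W hW
  have hfin : (⋃ w ∈ W \ {1}, {t : ℝ | w (par t) = par t}).Finite := by
    refine Set.Finite.biUnion (hW.subset Set.sdiff_subset) ?_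
    intro w hw
    exact fin_fix hK w (fun h => hw.2 h)
  obtain ⟨t, ht⟩ := hfin.infinite_compl.nonempty
  refine ⟨par t, fun w hw hw1 hfix => ht ?_⟩
  exact Set.mem_biUnion (⟨hw, hw1⟩ : w ∈ W \ {1}) hfix

end T2h42.AP
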