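import Pool.Agent.T2h42.AP.Stm

/-!
Task GG of the project AP (helper32): geometry of three involutions.
-/

set_option autoImplicit false

open Set Filter Topology Complex

namespace T2h42.AP

noncomputable section

namespace GGp

lemma cjm (x y : ℂ) : cj (x * y) = cj x * cj y := map_mul _ x y
lemma cja (x y : ℂ) : cj (x + y) = cj x + cj y := map_add _ x y
lemma cjs (x y : ℂ) : cj (x - y) = cj x - cj y := map_sub _ x y
lemma cjn (x : ℂ) : cj (-x) = - cj x := map_neg _ x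
lemma cjc (x : ℂ) : cj (cj x) = x := Complex.conj_conj x
lemma cj_re (x : ℂ) : (cj x).re = x.re := Complex.conj_re x
lemma cj_im (x : ℂ) : (cj x).im = - x.im := Complex.conj_im x
lemma ucj (u : ℂ) (hu : ‖u‖ = 1) : u * cj u = 1 := by
  have h := Complex.mul_conj u
  rw [Complex.normSq_eq_norm_sq, hu] at h
  rw [h]
  norm_num

/-- orientation preserving with parameters -/
def Di (g : ℂ ≃ᵢ ℂ) (u b : ℂ) : Prop := ‖u‖ = 1 ∧ ∀ z, g z = u * z + b

/-- orientation reversing with parameters -/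
def In (g : ℂ ≃ᵢ ℂ) (u b : ℂ) : Prop := ‖u‖ = 1 ∧ ∀ z, g z = u * cj z + b

lemma mulA (g h : ℂ ≃ᵢ ℂ) (z : ℂ) : (g * h) z = g (h z) := rfl

lemma oneA (z : ℂ) : (1 : ℂ ≃ᵢ ℂ) z = z := rfl

lemma Di_mul {g h : ℂ ≃ᵢ ℂ} {u b v c : ℂ} (hg : Di g u b) (hh : Di h v c) :
    Di (g * h) (u * v) (u * c + b) := by
  refine ⟨by rw [norm_mul, hg.1, hh.1, one_mul], fun z => ?_⟩
  rw [mulA, hh.2, hg.2]
  ring

lemma In_mul_In {g h : ℂ ≃ᵢ ℂ} {u b v c : ℂ} (hg : In g u b) (hh : In h v c) :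
    Di (g * h) (u * cj v) (u * cj c + b) := by
  refine ⟨by rw [norm_mul, hg.1, Complex.norm_conj, hh.1, one_mul], fun z => ?_⟩
  rw [mulA, hh.2, hg.2, cja, cjm, cjc]
  ring

lemma Di_mul_In {g h : ℂ ≃ᵢ ℂ} {u b v c : ℂ} (hg : Di g u b) (hh : In h v c) :
    In (g * h) (u * v) (u * c + b) := by
  refine ⟨by rw [norm_mul, hg.1, hh.1, one_mul], fun z => ?_⟩
  rw [mulA, hh.2, hg.2]
  ring

lemma In_mul_Di {g h : ℂ ≃ᵢ ℂ} {u b v c : ℂ} (hg : In g u b) (hh : Di h v c) :
    In (g * h) (u * cj v) (u * cj c + b) := by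
  refine ⟨by rw [norm_mul, hg.1, Complex.norm_conj, hh.1, one_mul], fun z => ?_⟩
  rw [mulA, hh.2, hg.2, cja, cjm]
  ring

lemma Di_pow {g : ℂ ≃ᵢ ℂ} {v β : ℂ} (hg : Di g v β) (j : ℕ) (z : ℂ) :
    (g ^ j) z = v ^ j * z + (∑ i ∈ Finset.range j, v ^ i) * β := by
  induction j with
  | zero => simp
  | succ j ih =>
    rw [pow_succ', mulA, ih, hg.2, Finset.sum_range_succ' (fun i => v ^ i) j]
    have h1 : ∑ k ∈ Finset.range j, v ^ (k + 1) = v * ∑ k ∈ Finset.range j, v ^ k := by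
      rw [Finset.mul_sum]
      exact Finset.sum_congr rfl fun k _ => pow_succ' v k
    rw [h1]
    ring

/-- parameters of the identity -/
lemma Di_one {g : ℂ ≃ᵢ ℂ} {v β : ℂ} (hg : Di g v β) (h1 : g = 1) : v = 1 ∧ β = 0 := by
  have h2 := hg.2 0
  have h3 := hg.2 1
  rw [h1, oneA] at h2 h3
  have h4 : β = 0 := by
    rw [mul_zero, zero_add] at h2
    exact h2.symm
  rw [h4] at h3
  refine ⟨?_, h4⟩
  rw [mul_one, add_zero] at h3
  exact h3.symm

/-- translations of finite order are trivial -/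
lemma tr_fin {g : ℂ ≃ᵢ ℂ} {β : ℂ} (hg : ∀ z, g z = z + β) {n : ℕ} (hn : 0 < n) (h : g ^ n = 1) :
    g = 1 := by
  have hD : Di g 1 β := ⟨norm_one, fun z => by rw [hg, one_mul]⟩
  have h1 := Di_pow hD n 0
  rw [h, oneA] at h1
  simp only [one_pow, Finset.sum_const, Finset.card_range, nsmul_eq_mul, mul_one, mul_zero,
    zero_add] at h1
  have h2 : β = 0 := by
    rcases mul_eq_zero.1 h1.symm with h3 | h3
    · exact absurd (Nat.cast_eq_zero.1 h3) hn.ne'
    · exact h3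
  ext z
  rw [hg, h2, add_zero, oneA]

/-- if the square is a translation and the order is finite, the square is trivial -/
lemma sq_tr {x : ℂ ≃ᵢ ℂ} {β : ℂ} (hx : ∀ z, (x * x) z = z + β) (h3 : 3 ≤ orderOf x) : False := by
  have hpos : 0 < orderOf x := by omega
  have h1 : (x * x) ^ orderOf x = 1 := by
    rw [← pow_two, ← pow_mul, mul_comm, pow_mul, pow_orderOf_eq_one, one_pow]
  have h2 := tr_fin hx hpos h1
  rw [← pow_two] at h2
  have h4 := orderOf_dvd_of_pow_eq_one h2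
  have h5 := Nat.le_of_dvd (by norm_num) h4
  omega

lemma In_sq {x : ℂ ≃ᵢ ℂ} {u β : ℂ} (hx : In x u β) : ∀ z, (x * x) z = z + (u * cj β + β) := by
  intro z
  have h := (In_mul_In hx hx).2 z
  rw [h, ucj u hx.1, one_mul]

lemma Di_inv {g : ℂ ≃ᵢ ℂ} {u b : ℂ} (hg : Di g u b) (h : g * g = 1) : u * u = 1 :=
  (Di_one (Di_mul hg hg) h).1

lemma both_In (hK : H74R2.WT.T_K0) {g h : ℂ ≃ᵢ ℂ} (hg : g * g = 1) (hh : h * h = 1)
    (h3 : 3 ≤ orderOf (g * h)) : (∃ u b, In g u b) ∧ ∃ v c, In h v c := by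
  obtain ⟨u, b, hu, h1⟩ := hK g
  obtain ⟨v, c, hv, h2⟩ := hK h
  rcases h1 with h1 | h1 <;> rcases h2 with h2 | h2
  · exfalso
    have hD1 : Di g u b := ⟨hu, h1⟩
    have hD2 : Di h v c := ⟨hv, h2⟩
    have hu2 := Di_inv hD1 hg
    have hv2 := Di_inv hD2 hh
    have hD := Di_mul hD1 hD2
    have hDD := Di_mul hD hD
    refine sq_tr (β := u * v * (u * c + b) + (u * c + b)) (fun z => ?_) h3
    rw [hDD.2]
    linear_combination (v * v * z) * hu2 + z * hv2
  · exfalso
    exact sq_tr (In_sq (Di_mul_In ⟨hu, h1⟩ ⟨hv, h2⟩)) h3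
  · exfalso
    exact sq_tr (In_sq (In_mul_Di ⟨hu, h1⟩ ⟨hv, h2⟩)) h3
  · exact ⟨⟨u, b, hu, h1⟩, ⟨v, c, hv, h2⟩⟩

/-- rotation part of an element of finite order -/
lemma rot {x : ℂ ≃ᵢ ℂ} {v β : ℂ} (hx : Di x v β) (h3 : 3 ≤ orderOf x) :
    v ^ orderOf x = 1 ∧ ∀ j, 0 < j → j < orderOf x → v ^ j ≠ 1 := by
  have hpow : ∀ j, x ^ j = 1 → v ^ j = 1 := by
    intro j hj
    have h0 := Di_pow hx j 0
    have h1 := Di_pow hx j 1
    rw [hj, oneA] at h0 h1
    rw [mul_zero, zero_add] at h0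
    rw [← h0, add_zero, mul_one] at h1
    exact h1.symm
  have hv1 : v ≠ 1 := by
    intro hv
    have h1 : ∀ z, x z = z + β := fun z => by rw [hx.2, hv, one_mul]
    have h2 := tr_fin h1 (n := orderOf x) (by omega) (pow_orderOf_eq_one x)
    rw [h2, orderOf_one] at h3
    omega
  refine ⟨hpow _ (pow_orderOf_eq_one x), fun j hj0 hj h => ?_⟩
  have hgeo : ∑ i ∈ Finset.range j, v ^ i = 0 := by
    have h1 := geom_sum_mul v j
    rw [h, sub_self] at h1
    exact (mul_eq_zero.1 h1).resolve_right (sub_ne_zero.2 hv1)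
  have h1 : x ^ j = 1 := by
    ext z
    rw [Di_pow hx, h, hgeo, zero_mul, one_mul, add_zero, oneA]
  have h2 := orderOf_dvd_of_pow_eq_one h1
  have h4 := Nat.le_of_dvd hj0 h2
  omega

/-- the last formula -/
lemma mirror (x y : ℝ) (hx : 0 < x) (hy : 0 < y) (u w : ℂ)
    (hu : u * cj ((x : ℂ) + y * I) + (x + y * I) = 0) (p q : ℝ)
    (hp : p = (x ^ 2 + y ^ 2) / (2 * x)) (hq : q = (x ^ 2 + y ^ 2) / (2 * y)) :
    u * cj w + (x + y * I) = p + ((-p + q * I) / (-p - q * I)) * cj (w - p) := by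
  have hc : cj ((x : ℂ) + y * I) = x - y * I := by
    rw [cja, cjm]
    have h1 : cj (x : ℂ) = x := Complex.conj_ofReal x
    have h2 : cj (y : ℂ) = y := Complex.conj_ofReal y
    have h3 : cj I = - I := Complex.conj_I
    rw [h1, h2, h3]
    ring
  rw [hc] at hu
  have hn : ((x : ℂ) - y * I) ≠ 0 := by
    intro h
    have := congrArg Complex.re h
    simp at this
    exact hx.ne' this
  have hpp : 0 < p := by rw [hp]; positivity
  have hd : (-(p : ℂ) - q * I) ≠ 0 := by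
    intro h
    have := congrArg Complex.re h
    simp at this
    exact hpp.ne' this
  have hpx : (2 * (p : ℂ) * x) = x ^ 2 + y ^ 2 := by
    have : 2 * p * x = x ^ 2 + y ^ 2 := by rw [hp]; field_simp
    exact_mod_cast this
  have hqy : (2 * (q : ℂ) * y) = x ^ 2 + y ^ 2 := by
    have : 2 * q * y = x ^ 2 + y ^ 2 := by rw [hq]; field_simp
    exact_mod_cast this
  have hpq : (p : ℂ) * x = q * y := by
    linear_combination (1 / 2 : ℂ) * hpx - (1 / 2 : ℂ) * hqy
  have hu1 : (-(p : ℂ) + q * I) / (-p - q * I) = u := by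
    rw [div_eq_iff hd]
    have h1 : ((-(p : ℂ) + q * I) - u * (-p - q * I)) * ((x : ℂ) - y * I) = 0 := by
      have h2 : u * ((x : ℂ) - y * I) = - (x + y * I) := by linear_combination hu
      have h3 : ((-(p : ℂ) + q * I) - u * (-p - q * I)) * ((x : ℂ) - y * I) =
          (-(p : ℂ) + q * I) * (x - y * I) + (x + y * I) * (-p - q * I) := by
        linear_combination (p + q * I) * h2
      rw [h3]
      linear_combination (-2 : ℂ) * hpq - 2 * (q : ℂ) * y * Complex.I_sq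
    have h4 := (mul_eq_zero.1 h1).resolve_right hn
    linear_combination h4
  rw [hu1, cjs]
  have h2 : cj (p : ℂ) = p := Complex.conj_ofReal p
  rw [h2]
  have h5 : ((p : ℂ) * (1 - u) - (x + y * I)) * ((x : ℂ) - y * I) = 0 := by
    linear_combination (-(p : ℂ)) * hu + hpx + (y : ℂ) ^ 2 * Complex.I_sq
  have h6 := (mul_eq_zero.1 h5).resolve_right hn
  linear_combination (-1 : ℂ) * h6

lemma exD (u b : ℂ) (hu : ‖u‖ = 1) : ∃ g : ℂ ≃ᵢ ℂ, ∀ z, g z = u * z + b := by
  obtain ⟨U, hU⟩ : ∃ U : Circle, (U : ℂ) = u := ⟨⟨u, mem_sphere_zero_iff_norm.2 hu⟩, rfl⟩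
  refine ⟨(rotation U).toIsometryEquiv.trans (IsometryEquiv.addRight b), fun z => ?_⟩
  show rotation U z + b = u * z + b
  rw [rotation_apply, hU]

lemma exI (u b : ℂ) (hu : ‖u‖ = 1) : ∃ g : ℂ ≃ᵢ ℂ, ∀ z, g z = u * cj z + b := by
  obtain ⟨g, hg⟩ := exD u b hu
  refine ⟨(Complex.conjLIE.toIsometryEquiv).trans g, fun z => ?_⟩
  show g (cj z) = _
  rw [hg]

/-- normal form of the three reflections -/
def PP (a b c ψ : ℂ ≃ᵢ ℂ) (u β : ℂ) : Prop :=
  (∀ z, ψ (a z) = cj (ψ z)) ∧ (∀ z, ψ (c z) = - cj (ψ z)) ∧ ∀ z, ψ (b z) = u * cj (ψ z) + β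

lemma PP_neg {a b c ψ : ℂ ≃ᵢ ℂ} {u β : ℂ} (h : PP a b c ψ u β) :
    ∃ ψ', PP a b c ψ' u (-β) := by
  obtain ⟨g, hg⟩ := exD (-1) 0 (by simp)
  have hn : ∀ z, (ψ.trans g) z = - ψ z := by
    intro z
    show g (ψ z) = _
    rw [hg]
    ring
  refine ⟨ψ.trans g, fun z => ?_, fun z => ?_, fun z => ?_⟩
  · rw [hn, hn, h.1, cjn]
  · rw [hn, hn, h.2.1, cjn]
  · rw [hn, hn, h.2.2, cjn]
    ring

lemma PP_cj {a b c ψ : ℂ ≃ᵢ ℂ} {u β : ℂ} (h : PP a b c ψ u β) :
    ∃ ψ', PP a b c ψ' (cj u) (cj β) := by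
  obtain ⟨g, hg⟩ := exI 1 0 (by simp)
  have hn : ∀ z, (ψ.trans g) z = cj (ψ z) := by
    intro z
    show g (ψ z) = _
    rw [hg]
    ring
  refine ⟨ψ.trans g, fun z => ?_, fun z => ?_, fun z => ?_⟩
  · rw [hn, hn, h.1]
  · rw [hn, hn, h.2.1, cjn]
  · rw [hn, hn, h.2.2, cja, cjm]

lemma signs {a b c ψ : ℂ ≃ᵢ ℂ} {u β : ℂ} (h : PP a b c ψ u β) (hu : u * cj β + β = 0)
    (hre : β.re ≠ 0) (him : β.im ≠ 0) :
    ∃ ψ' u' β', PP a b c ψ' u' β' ∧ u' * cj β' + β' = 0 ∧ 0 < β'.re ∧ 0 < β'.im ∧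
      u'.re = u.re := by
  have hu2 : cj u * cj (cj β) + cj β = 0 := by
    have := congrArg cj hu
    rw [cja, cjm] at this
    rw [this]
    exact map_zero _
  rcases lt_or_gt_of_ne hre with h1 | h1 <;> rcases lt_or_gt_of_ne him with h2 | h2
  · obtain ⟨ψ', h'⟩ := PP_neg h
    refine ⟨ψ', u, -β, h', ?_, ?_, ?_, rfl⟩
    · rw [cjn]
      linear_combination (-1 : ℂ) * hu
    · rw [Complex.neg_re]; linarith
    · rw [Complex.neg_im]; linarith
  · obtain ⟨ψ', h'⟩ := PP_cj h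
    obtain ⟨ψ'', h''⟩ := PP_neg h'
    refine ⟨ψ'', cj u, -cj β, h'', ?_, ?_, ?_, cj_re u⟩
    · rw [cjn]
      linear_combination (-1 : ℂ) * hu2
    · rw [Complex.neg_re, cj_re]; linarith
    · rw [Complex.neg_im, cj_im]; linarith
  · obtain ⟨ψ', h'⟩ := PP_cj h
    refine ⟨ψ', cj u, cj β, h', hu2, ?_, ?_, cj_re u⟩
    · rw [cj_re]; exact h1
    · rw [cj_im]; linarith
  · exact ⟨ψ, u, β, h, hu, h1, h2, rfl⟩

/-- the normal form -/
lemma normal (hK : H74R2.WT.T_K0) (a b c : ℂ ≃ᵢ ℂ) (ha : a * a = 1) (hb : b * b = 1)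
    (hc : c * c = 1) (hab : 3 ≤ orderOf (a * b)) (hbc : 3 ≤ orderOf (b * c))
    (hac : orderOf (a * c) = 2) (habc : (a * b * c) * (a * b * c) ≠ 1) :
    ∃ (v : ℂ), ‖v‖ = 1 ∧ v ^ orderOf (a * b) = 1 ∧
      (∀ j, 0 < j → j < orderOf (a * b) → v ^ j ≠ 1) ∧
      ∃ (ψ : ℂ ≃ᵢ ℂ) (x y : ℝ), 0 < x ∧ 0 < y ∧ v.re * (x ^ 2 + y ^ 2) = y ^ 2 - x ^ 2 ∧
        (∀ z, ψ (a z) = cj (ψ z)) ∧ (∀ z, ψ (c z) = - cj (ψ z)) ∧
        ∀ p q : ℝ, p = (x ^ 2 + y ^ 2) / (2 * x) → q = (x ^ 2 + y ^ 2) / (2 * y) →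
          ∀ z, ψ (b z) = p + ((-p + q * I) / (-p - q * I)) * cj (ψ z - p) := by
  obtain ⟨⟨ua, βa, hA⟩, ⟨ub, βb, hB⟩⟩ := both_In hK ha hb hab
  obtain ⟨_, ⟨uc, βc, hC⟩⟩ := both_In hK hb hc hbc
  have hua := ucj ua hA.1
  have hub := ucj ub hB.1
  have huc := ucj uc hC.1
  -- the involutions
  have hinv : ∀ (g : ℂ ≃ᵢ ℂ) (u β : ℂ), In g u β → g * g = 1 → u * cj β + β = 0 := by
    intro g u β hg h
    have h1 := In_sq hg 0
    rw [h, oneA, zero_add] at h1
    exact h1.symm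
  have hβa := hinv a ua βa hA ha
  have hβb := hinv b ub βb hB hb
  have hβc := hinv c uc βc hC hc
  -- the product `a c`
  have hACd := In_mul_In hA hC
  have hAC2 : (a * c) * (a * c) = 1 := by
    have h := pow_orderOf_eq_one (a * c)
    rw [hac, pow_two] at h
    exact h
  have hv2 := Di_one (Di_mul hACd hACd) hAC2
  have hv : ua * cj uc = -1 := by
    rcases mul_self_eq_one_iff.1 hv2.1 with h | h
    · exfalso
      have h1 := hv2.2
      rw [h, one_mul, ← two_mul] at h1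
      have h2 : ua * cj βc + βa = 0 := by
        rcases mul_eq_zero.1 h1 with h3 | h3
        · norm_num at h3
        · exact h3
      have h3 : a * c = 1 := by
        ext z
        rw [hACd.2, h, h2, oneA]
        ring
      rw [h3, orderOf_one] at hac
      norm_num at hac
    · exact h
  have huac : ua = - uc := by
    linear_combination uc * hv - ua * huc
  -- the fixed point
  have h1 : ua * cj βc = βc := by
    rw [huac]
    linear_combination (-1 : ℂ) * hβc
  have h2 : uc * cj βa = βa := by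
    have h3 : uc = - ua := by rw [huac]; ring
    rw [h3]
    linear_combination (-1 : ℂ) * hβa
  obtain ⟨z0, hz0⟩ : ∃ z0 : ℂ, 2 * z0 = βa + βc := ⟨(βa + βc) / 2, by ring⟩
  have hz0c : 2 * cj z0 = cj βa + cj βc := by
    have := congrArg cj hz0
    rw [cjm, cja] at this
    have h2 : cj (2 : ℂ) = 2 := Complex.conj_ofNat 2
    rw [h2] at this
    exact this
  have haz : a z0 = z0 := by
    rw [hA.2]
    linear_combination (ua / 2) * hz0c + (1 / 2 : ℂ) * hβa + (1 / 2 : ℂ) * h1 - (1 / 2 : ℂ) * hz0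
  have hcz : c z0 = z0 := by
    rw [hC.2]
    linear_combination (uc / 2) * hz0c + (1 / 2 : ℂ) * hβc + (1 / 2 : ℂ) * h2 - (1 / 2 : ℂ) * hz0
  -- the square root
  obtain ⟨ζ, hζ⟩ := IsAlgClosed.exists_pow_nat_eq ua (n := 2) (by norm_num)
  have hζn : ‖ζ‖ = 1 := by
    have h3 := congrArg norm hζ
    rw [norm_pow, hA.1] at h3
    exact (pow_eq_one_iff_of_nonneg (norm_nonneg ζ) (by norm_num)).1 h3
  have hζζ := ucj ζ hζn
  have hζc : ‖cj ζ‖ = 1 := by rw [Complex.norm_conj]; exact hζn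
  obtain ⟨ψ, hψ⟩ := exD (cj ζ) (- cj ζ * z0) hζc
  have hψ' : ∀ z, ψ z = cj ζ * (z - z0) := fun z => by rw [hψ]; ring
  have hψi : ∀ z, z = z0 + ζ * ψ z := by
    intro z
    rw [hψ']
    linear_combination (-(z - z0)) * hζζ
  have hPP : PP a b c ψ (ub * cj ua) (ψ (b z0)) := by
    have hcz' : ∀ z, cj (ψ z) = ζ * (cj z - cj z0) := by
      intro z
      rw [hψ', cjm, cjs, cjc]
    refine ⟨fun z => ?_, fun z => ?_, fun z => ?_⟩
    · rw [hcz', hψ']
      have h3 : a z - z0 = ua * (cj z - cj z0) := by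
        conv_lhs => rw [← haz]
        rw [hA.2, hA.2]
        ring
      rw [h3, ← hζ]
      linear_combination (ζ * (cj z - cj z0)) * hζζ
    · rw [hcz', hψ']
      have h3 : c z - z0 = uc * (cj z - cj z0) := by
        conv_lhs => rw [← hcz]
        rw [hC.2, hC.2]
        ring
      have h4 : uc = - ζ ^ 2 := by rw [hζ, huac]; ring
      rw [h3, h4]
      linear_combination (-ζ * (cj z - cj z0)) * hζζ
    · rw [hcz', hψ', hψ', hB.2, hB.2, ← hζ]
      have h5 : cj (ζ ^ 2) = cj ζ * cj ζ := by rw [pow_two, cjm]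
      rw [h5]
      linear_combination (-(ub * cj ζ * (cj z - cj z0))) * hζζ
  -- the parameters of `b`
  have hβ' : ub * cj ua * cj (ψ (b z0)) + ψ (b z0) = 0 := by
    have h3 : ψ (b (b z0)) = ub * cj ua * cj (ψ (b z0)) + ψ (b z0) := hPP.2.2 (b z0)
    have h4 : b (b z0) = z0 := by
      rw [← mulA, hb, oneA]
    rw [h4] at h3
    rw [← h3, hψ', sub_self, mul_zero]
  -- the rotation part of `a b`
  have hABd := In_mul_In hA hB
  have hrot := rot hABd hab
  set v := ua * cj ub with hvdef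
  have hvn : ‖v‖ = 1 := hABd.1
  have hvu : ub * cj ua = cj v := by
    rw [hvdef, cjm, cjc]
    ring
  rw [hvu] at hPP hβ'
  have hβ0 : ψ (b z0) ≠ 0 := by
    intro h
    apply habc
    have hbz : b z0 = z0 := by
      have h3 := hψi (b z0)
      rw [h, mul_zero, add_zero] at h3
      exact h3
    have hABC := Di_mul_In hABd hC
    have h3 := In_sq hABC
    have h4 : (a * b * c) z0 = z0 := by
      rw [mulA, hcz, mulA, hbz, haz]
    have h5 : (a * b * c * (a * b * c)) z0 = z0 := by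
      rw [mulA, h4, h4]
    have h6 := h3 z0
    rw [h5] at h6
    ext z
    rw [h3 z, oneA]
    linear_combination (-1 : ℂ) * h6
  set β := ψ (b z0) with hβdef
  -- real and imaginary parts
  have hnsq : cj v * ((β.re ^ 2 + β.im ^ 2 : ℝ) : ℂ) = - (β * β) := by
    have h3 : β * cj β = ((β.re ^ 2 + β.im ^ 2 : ℝ) : ℂ) := by
      have h4 := Complex.mul_conj β
      rw [Complex.normSq_apply] at h4
      rw [← pow_two, ← pow_two] at h4
      exact h4
    rw [← h3]
    linear_combination β * hβ'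
  have hvre : v.re * (β.re ^ 2 + β.im ^ 2) = β.im ^ 2 - β.re ^ 2 := by
    have h3 := congrArg Complex.re hnsq
    rw [Complex.re_mul_ofReal, Complex.neg_re, Complex.mul_re, cj_re] at h3
    rw [h3]
    ring
  have hvim : v.im * (β.re ^ 2 + β.im ^ 2) = 2 * β.re * β.im := by
    have h3 := congrArg Complex.im hnsq
    rw [Complex.im_mul_ofReal, Complex.neg_im, Complex.mul_im, cj_im] at h3
    linear_combination (-1 : ℝ) * h3
  have hvim0 : v.im ≠ 0 := by
    intro h
    have h3 : v = (v.re : ℂ) := by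
      apply Complex.ext
      · simp
      · simp [h]
    have h4 : v ^ 2 = 1 := by
      have h5 := ucj v hvn
      have h6 : cj v = v := by
        rw [h3]
        exact Complex.conj_ofReal _
      rw [h6] at h5
      rw [pow_two]
      exact h5
    exact hrot.2 2 (by norm_num) (by omega) h4
  have hn0 : β.re ^ 2 + β.im ^ 2 ≠ 0 := by
    intro h
    apply hβ0
    have h3 : β.re = 0 := by nlinarith [sq_nonneg β.re, sq_nonneg β.im]
    have h4 : β.im = 0 := by nlinarith [sq_nonneg β.re, sq_nonneg β.im]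
    exact Complex.ext h3 h4
  have hprod : β.re * β.im ≠ 0 := by
    intro h
    have h3 : v.im * (β.re ^ 2 + β.im ^ 2) = 0 := by
      rw [hvim]
      linear_combination (2 : ℝ) * h
    rcases mul_eq_zero.1 h3 with h4 | h4
    · exact hvim0 h4
    · exact hn0 h4
  obtain ⟨ψ', u', β', hPP', hu', hre', him', hur⟩ := signs hPP hβ' (left_ne_zero_of_mul hprod)
    (right_ne_zero_of_mul hprod)
  refine ⟨v, hvn, hrot.1, hrot.2, ψ', β'.re, β'.im, hre', him', ?_, hPP'.1, hPP'.2.1, ?_⟩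
  · have h3 : β' * cj β' = ((β'.re ^ 2 + β'.im ^ 2 : ℝ) : ℂ) := by
      have h4 := Complex.mul_conj β'
      rw [Complex.normSq_apply] at h4
      rw [← pow_two, ← pow_two] at h4
      exact h4
    have h4 : u' * ((β'.re ^ 2 + β'.im ^ 2 : ℝ) : ℂ) = - (β' * β') := by
      rw [← h3]
      linear_combination β' * hu'
    have h5 := congrArg Complex.re h4
    rw [Complex.re_mul_ofReal, Complex.neg_re, Complex.mul_re] at h5
    rw [cj_re] at hur
    rw [← hur]
    linear_combination h5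
  · intro p q hp hq z
    have h3 : ((β'.re : ℂ) + β'.im * I) = β' := Complex.re_add_im β'
    have h4 := mirror β'.re β'.im hre' him' u' (ψ' z) (by rw [h3]; exact hu') p q hp hq
    rw [h3] at h4
    rw [← h4]
    exact hPP'.2.2 z

end GGp

open GGp in
theorem t_GG : S_GG := by
  intro hK
  constructor
  · rintro a b c ⟨ha, hb, hc, hab, hbc, hac, habc⟩
    obtain ⟨v, hvn, hv1, hv2, ψ, x, y, hx, hy, hxy, h1, h2, h3⟩ := normal hK a b c ha hb hc
      (by rw [hab]; norm_num) (by rw [hbc]; norm_num) hac habc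
    rw [hab] at hv1 hv2
    have hv3 : v ^ 2 = -1 := by
      have h4 : (v ^ 2 - 1) * (v ^ 2 + 1) = 0 := by linear_combination hv1
      rcases mul_eq_zero.1 h4 with h5 | h5
      · exact absurd (sub_eq_zero.1 h5) (hv2 2 (by norm_num) (by norm_num))
      · linear_combination h5
    have hre : v.re = 0 := by
      have h4 := congrArg (fun t => t * cj v) hv3
      have h5 := ucj v hvn
      have h6 : v + cj v = 0 := by
        have h7 : v ^ 2 * cj v = v := by rw [pow_two, mul_assoc, h5, mul_one]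
        have h8 : v ^ 2 * cj v = -1 * cj v := h4
        rw [h7] at h8
        linear_combination h8
      have h7 := congrArg Complex.re h6
      rw [Complex.add_re, cj_re, Complex.zero_re] at h7
      linarith
    rw [hre, zero_mul] at hxy
    have hxy' : y = x := by
      have : (y - x) * (y + x) = 0 := by linear_combination (-1 : ℝ) * hxy
      rcases mul_eq_zero.1 this with h4 | h4
      · linarith
      · linarith
    subst hxy'
    refine ⟨ψ, y, hx, h1, h2, fun z => ?_⟩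
    have h4 : y = (y ^ 2 + y ^ 2) / (2 * y) := by
      field_simp
      ring
    exact h3 y y h4 h4 z
  · rintro a b c ⟨ha, hb, hc, hab, hbc, hac, habc⟩
    obtain ⟨v, hvn, hv1, hv2, ψ, x, y, hx, hy, hxy, h1, h2, h3⟩ := normal hK a b c ha hb hc
      (by rw [hab]; norm_num) (by rw [hbc]) hac habc
    rw [hab] at hv1 hv2
    have hv3 : v ^ 3 = -1 := by
      have h4 : (v ^ 3 - 1) * (v ^ 3 + 1) = 0 := by linear_combination hv1
      rcases mul_eq_zero.1 h4 with h5 | h5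
      · exact absurd (sub_eq_zero.1 h5) (hv2 3 (by norm_num) (by norm_num))
      · linear_combination h5
    have hv4 : v ^ 2 - v + 1 = 0 := by
      have h4 : (v + 1) * (v ^ 2 - v + 1) = 0 := by linear_combination hv3
      rcases mul_eq_zero.1 h4 with h5 | h5
      · exfalso
        refine hv2 2 (by norm_num) (by norm_num) ?_
        linear_combination (v - 1) * h5
      · exact h5
    have hre : v.re = 1 / 2 := by
      have h5 := ucj v hvn
      have h6 : v - 1 + cj v = 0 := by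
        linear_combination (cj v) * hv4 + (1 - v) * h5
      have h7 := congrArg Complex.re h6
      rw [Complex.add_re, Complex.sub_re, cj_re, Complex.one_re, Complex.zero_re] at h7
      linarith
    rw [hre] at hxy
    have hxy' : y = Real.sqrt 3 * x := by
      have h4 : y ^ 2 = (Real.sqrt 3 * x) ^ 2 := by
        rw [mul_pow, Real.sq_sqrt (by norm_num)]
        linarith
      exact (pow_left_inj₀ hy.le (by positivity) (by norm_num)).1 h4
    have hs : Real.sqrt 3 ^ 2 = 3 := Real.sq_sqrt (by norm_num)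
    have hs0 : 0 < Real.sqrt 3 := Real.sqrt_pos.2 (by norm_num)
    refine ⟨ψ, 2 * x, 2 * x / Real.sqrt 3, by positivity, by field_simp, h1, h2, fun z => ?_⟩
    refine h3 (2 * x) (2 * x / Real.sqrt 3) ?_ ?_ z
    · rw [hxy', mul_pow, hs]
      field_simp
      ring
    · rw [hxy', mul_pow, hs]
      field_simp
      ring

end

end T2h42.AP
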