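import Pool.Agent.T2h42.AP.Stm

/-!
Task GRP of project AP (helper42): transport through the isomorphism. (helper22)
-/

set_option autoImplicit false

open Complex

namespace T2h42.AP

theorem rel_transport {G H : Type} [Group G] [Group H] (f : G →* H) (hf : Function.Injective f)
    (k l : ℕ) (a b c : G) (h : Rel k l a b c) : Rel k l (f a) (f b) (f c) := by
  obtain ⟨h1, h2, h3, h4, h5, h6, h7⟩ := h
  refine ⟨?_, ?_, ?_, ?_, ?_, ?_, ?_⟩
  · rw [← map_mul, h1, map_one]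
  · rw [← map_mul, h2, map_one]
  · rw [← map_mul, h3, map_one]
  · rw [← map_mul, orderOf_injective f hf, h4]
  · rw [← map_mul, orderOf_injective f hf, h5]
  · rw [← map_mul, orderOf_injective f hf, h6]
  · intro h
    apply h7
    apply hf
    rw [map_one, ← h]
    simp only [map_mul]

theorem t_GRP : S_GRP := by
  intro h4 h6 hGG hK
  obtain ⟨g4, g6⟩ := hGG hK
  constructor
  · rintro G ⟨e⟩
    obtain ⟨a, b, c, hr⟩ := h4
    let f : G4 →* (ℂ ≃ᵢ ℂ) := G.subtype.comp e.symm.toMonoidHom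
    have hf : Function.Injective f := by
      intro x y hxy
      exact e.symm.injective (Subtype.ext hxy)
    obtain ⟨ψ, s, hs, ha, hc, hb⟩ := g4 _ _ _ (rel_transport f hf 4 4 a b c hr)
    exact ⟨ψ, s, hs, ⟨f a, (e.symm a).2, ha⟩, ⟨f c, (e.symm c).2, hc⟩,
      ⟨f b, (e.symm b).2, hb⟩⟩
  · rintro G ⟨e⟩
    obtain ⟨a, b, c, hr⟩ := h6
    let f : G6 →* (ℂ ≃ᵢ ℂ) := G.subtype.comp e.symm.toMonoidHom
    have hf : Function.Injective f := by
      intro x y hxy
      exact e.symm.injective (Subtype.ext hxy)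
    obtain ⟨ψ, p, m, hm, hp, ha, hc, hb⟩ := g6 _ _ _ (rel_transport f hf 6 3 a b c hr)
    exact ⟨ψ, p, m, hm, hp, ⟨f a, (e.symm a).2, ha⟩, ⟨f c, (e.symm c).2, hc⟩,
      ⟨f b, (e.symm b).2, hb⟩⟩

end T2h42.AP
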