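import Pool.Agent.T2h42.AP.Stm

/-! Project AP, task INT (helper3): existence of the `g`-length integral. -/

set_option autoImplicit false
set_option linter.all false

open Set Filter Topology Complex

namespace T2h42.AP

noncomputable section

namespace INT

/-- the value on an interval -/
def w (p : ℝ × ℝ) : (ℝ →+ ℝ) →ₗ[ℝ] ℝ where
  toFun g := if p.1 ≤ p.2 then g p.2 - g p.1 else 0
  map_add' g g' := by
    split_ifs
    · rw [AddMonoidHom.add_apply, AddMonoidHom.add_apply]
      ring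
    · rw [add_zero]
  map_smul' c g := by
    simp only [RingHom.id_apply, smul_eq_mul]
    split_ifs
    · rw [AddMonoidHom.smul_apply, AddMonoidHom.smul_apply, smul_eq_mul, smul_eq_mul]
      ring
    · rw [mul_zero]

/-- the indicator function of an interval -/
def v (p : ℝ × ℝ) : ℝ → ℝ := (Ico p.1 p.2).indicator (fun _ => (1 : ℝ))

open Classical in
/-- the coefficients -/
def ka (p : ℝ × ℝ) (τ : ℝ) : ℝ :=
  if p.1 < p.2 then (if p.2 = τ then 1 else 0) - (if p.1 = τ then 1 else 0) else 0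

theorem w_eq (p : ℝ × ℝ) (E : Finset ℝ) (h1 : p.1 ∈ E) (h2 : p.2 ∈ E) (g : ℝ →+ ℝ) :
    w p g = ∑ τ ∈ E, g τ * ka p τ := by
  classical
  show (if p.1 ≤ p.2 then g p.2 - g p.1 else 0) = _
  unfold ka
  rcases lt_trichotomy p.1 p.2 with h | h | h
  · rw [if_pos h.le]
    simp only [if_pos h, mul_sub, mul_ite, mul_one, mul_zero]
    rw [Finset.sum_sub_distrib, Finset.sum_ite_eq, Finset.sum_ite_eq, if_pos h1, if_pos h2]
  · rw [if_pos h.le, h, sub_self]
    simp
  · rw [if_neg (not_le.2 h)]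
    simp only [if_neg (not_lt.2 h.le), mul_zero, Finset.sum_const_zero]

theorem ka_eq (p : ℝ × ℝ) (τ ε : ℝ) (hε : 0 < ε) (h1 : ¬ (τ - ε ≤ p.1 ∧ p.1 < τ))
    (h2 : ¬ (τ - ε ≤ p.2 ∧ p.2 < τ)) : ka p τ = v p (τ - ε) - v p τ := by
  classical
  unfold ka v
  simp only [indicator_apply, mem_Ico]
  rw [not_and, not_lt] at h1 h2
  by_cases hlt : p.1 < p.2
  · rw [if_pos hlt]
    by_cases hb : p.2 = τ
    · have ha : p.1 ≠ τ := by
        intro h
        linarith
      have h3 : p.1 ≤ τ - ε := by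
        by_contra h4
        have := h1 (by linarith)
        linarith
      rw [if_pos hb, if_neg ha, if_pos ⟨h3, by linarith⟩, if_neg (fun h => by linarith [h.2])]
    · rw [if_neg hb]
      by_cases ha : p.1 = τ
      · rw [if_pos ha, if_neg (fun h => by linarith [h.1]), if_pos ⟨ha.le, by linarith⟩]
      · rw [if_neg ha, sub_zero]
        have h5 : (p.1 ≤ τ - ε ∧ τ - ε < p.2) ↔ (p.1 ≤ τ ∧ τ < p.2) := by
          constructor
          · rintro ⟨h6, h7⟩
            refine ⟨by linarith, lt_of_le_of_ne ?_ (Ne.symm hb)⟩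
            exact h2 h7.le
          · rintro ⟨h6, h7⟩
            refine ⟨?_, by linarith⟩
            by_contra h8
            have h9 := h1 (by linarith)
            exact ha (le_antisymm h6 h9)
        simp only [h5, sub_self]
  · rw [if_neg hlt, if_neg (fun h => hlt (by linarith [h.1, h.2])),
      if_neg (fun h => hlt (by linarith [h.1, h.2])), sub_zero]

theorem ker_le (f : (ℝ × ℝ) →₀ ℝ) (hf : Finsupp.linearCombination ℝ v f = 0) :
    Finsupp.linearCombination ℝ w f = 0 := by
  classical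
  ext g
  rw [Finsupp.linearCombination_apply, Finsupp.sum, LinearMap.sum_apply, LinearMap.zero_apply]
  obtain ⟨E, hE⟩ : ∃ E, E = f.support.image Prod.fst ∪ f.support.image Prod.snd := ⟨_, rfl⟩
  have hE1 : ∀ p ∈ f.support, p.1 ∈ E := fun p hp => by
    rw [hE]
    exact Finset.mem_union_left _ (Finset.mem_image_of_mem _ hp)
  have hE2 : ∀ p ∈ f.support, p.2 ∈ E := fun p hp => by
    rw [hE]
    exact Finset.mem_union_right _ (Finset.mem_image_of_mem _ hp)
  have h1 : ∀ p ∈ f.support, (f p • w p) g = ∑ τ ∈ E, g τ * (f p * ka p τ) := by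
    intro p hp
    rw [LinearMap.smul_apply, smul_eq_mul, w_eq p E (hE1 p hp) (hE2 p hp), Finset.mul_sum]
    refine Finset.sum_congr rfl fun τ _ => ?_
    ring
  rw [Finset.sum_congr rfl h1, Finset.sum_comm]
  refine Finset.sum_eq_zero fun τ _ => ?_
  rw [← Finset.mul_sum]
  have h2 : ∑ p ∈ f.support, f p * ka p τ = 0 := by
    have hev : ∀ᶠ ε : ℝ in 𝓝[>] (0 : ℝ), ∀ c ∈ E, ¬ (τ - ε ≤ c ∧ c < τ) := by
      rw [Filter.eventually_all_finset]
      intro c _
      by_cases hc : c < τ
      · have h3 : Ioo (0 : ℝ) (τ - c) ∈ 𝓝[>] (0 : ℝ) := Ioo_mem_nhdsGT (by linarith)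
        filter_upwards [h3] with ε hε h
        linarith [hε.2, h.1]
      · exact Filter.Eventually.of_forall fun ε h => hc h.2
    obtain ⟨ε, hε0, hε⟩ := (hev.and self_mem_nhdsWithin).exists
    have h4 : ∀ p ∈ f.support, f p * ka p τ = f p * v p (τ - ε) - f p * v p τ := by
      intro p hp
      rw [ka_eq p τ ε hε (hε0 _ (hE1 p hp)) (hε0 _ (hE2 p hp)), mul_sub]
    rw [Finset.sum_congr rfl h4, Finset.sum_sub_distrib]
    have h5 : ∀ t : ℝ, ∑ p ∈ f.support, f p * v p t = 0 := by
      intro t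
      have h6 := congrFun hf t
      rw [Finsupp.linearCombination_apply, Finsupp.sum, Finset.sum_apply] at h6
      exact h6
    rw [h5, h5, sub_self]
  rw [h2, mul_zero]

end INT

open INT

theorem t_INT : S_INT := by
  classical
  obtain ⟨T, hT⟩ : ∃ T : ((ℝ × ℝ) →₀ ℝ) →ₗ[ℝ] (ℝ → ℝ), T = Finsupp.linearCombination ℝ v := ⟨_, rfl⟩
  obtain ⟨σ, hσ⟩ := LinearMap.exists_rightInverse_of_surjective T.rangeRestrict
    (LinearMap.range_eq_top.2 (LinearMap.surjective_rangeRestrict T))
  obtain ⟨σ', hσ'⟩ := LinearMap.exists_extend σ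
  refine ⟨((Finsupp.linearCombination ℝ w).comp σ').flip, fun g a b hab => ?_⟩
  rw [LinearMap.flip_apply, LinearMap.comp_apply]
  obtain ⟨f, hf⟩ : ∃ f : (ℝ × ℝ) →₀ ℝ, f = Finsupp.single (a, b) 1 := ⟨_, rfl⟩
  have h1 : T f = (Ico a b).indicator (fun _ => (1 : ℝ)) := by
    rw [hT, hf, Finsupp.linearCombination_single, one_smul]
    rfl
  have h2 : Finsupp.linearCombination ℝ w f = w (a, b) := by
    rw [hf, Finsupp.linearCombination_single, one_smul]
  have h3 : σ' (T f) = σ (T.rangeRestrict f) := by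
    rw [← hσ']
    rfl
  have h4 : T (σ (T.rangeRestrict f)) = T f := by
    have h5 := LinearMap.congr_fun hσ (T.rangeRestrict f)
    exact congrArg Subtype.val h5
  have h6 : Finsupp.linearCombination ℝ w (σ (T.rangeRestrict f) - f) = 0 := by
    apply ker_le
    rw [← hT, map_sub, h4, sub_self]
  rw [map_sub, sub_eq_zero] at h6
  rw [← h1, h3, h6, h2]
  show (if a ≤ b then g b - g a else 0) = _
  rw [if_pos hab]

end

end T2h42.AP
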