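import Pool.Agent.T2h42.AP.ADD

/-!
# Task ISO: jumps of congruent copies
-/

set_option autoImplicit false

open Set Filter Topology Complex

namespace T2h42.AP

open ADD

theorem t_ISO : S_ISO := by
  intro φ u b G d h τ hu hd
  have key : ∀ v : ℂ, ‖v‖ = 1 → (((b * cj v).re : ℂ) + ((b * cj v).im : ℂ) * I) * v = b := by
    intro v hv
    have h1 : (((b * cj v).re : ℂ) + ((b * cj v).im : ℂ) * I) = b * cj v := Complex.re_add_im _
    rw [h1, mul_assoc, mul_comm (cj v) v, Complex.mul_conj, Complex.normSq_eq_norm_sq, hv]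
    simp
  constructor
  · intro hφ
    have hv : ‖u * d‖ = 1 := by rw [norm_mul, hu, hd, one_mul]
    have hx : ((τ : ℂ) + ((h + (b * cj (u * d)).im : ℝ) : ℂ) * I) * (u * d) =
        u * ((((τ - (b * cj (u * d)).re : ℝ) : ℂ) + (h : ℂ) * I) * d) + b := by
      have h2 := key (u * d) hv
      push_cast
      linear_combination h2
    have hval : ∀ σ : ℝ, val ((fun w => φ w) '' G)
        (((τ : ℂ) + ((h + (b * cj (u * d)).im : ℝ) : ℂ) * I) * (u * d)) (u * d) σ =
        val G ((((τ - (b * cj (u * d)).re : ℝ) : ℂ) + (h : ℂ) * I) * d) d σ := by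
      intro σ
      have hiff : EvP ((fun w => φ w) '' G)
          (((τ : ℂ) + ((h + (b * cj (u * d)).im : ℝ) : ℂ) * I) * (u * d)) (u * d) σ ↔
          EvP G ((((τ - (b * cj (u * d)).re : ℝ) : ℂ) + (h : ℂ) * I) * d) d σ := by
        unfold EvP
        have hpt : ∀ δ ε : ℝ, pt (((τ : ℂ) + ((h + (b * cj (u * d)).im : ℝ) : ℂ) * I) * (u * d))
            (u * d) σ δ ε ∈ (fun w => φ w) '' G ↔
            pt ((((τ - (b * cj (u * d)).re : ℝ) : ℂ) + (h : ℂ) * I) * d) d σ δ ε ∈ G := by
          intro δ ε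
          have h3 : pt (((τ : ℂ) + ((h + (b * cj (u * d)).im : ℝ) : ℂ) * I) * (u * d))
            (u * d) σ δ ε =
            φ (pt ((((τ - (b * cj (u * d)).re : ℝ) : ℂ) + (h : ℂ) * I) * d) d σ δ ε) := by
            rw [hφ, pt, pt, hx]
            ring
          rw [h3]
          exact Function.Injective.mem_set_image φ.injective
        simp only [hpt]
      unfold val
      by_cases hc : EvP G ((((τ - (b * cj (u * d)).re : ℝ) : ℂ) + (h : ℂ) * I) * d) d σ
      · rw [if_pos hc, if_pos (hiff.2 hc)]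
      · rw [if_neg hc, if_neg fun h' => hc (hiff.1 h')]
    unfold Dn
    rw [jmp_eq, jmp_eq, hval, hval]
  · intro hφ
    have hv : ‖u * cj d‖ = 1 := by rw [norm_mul, hu, RCLike.norm_conj, hd, one_mul]
    have hx : ((τ : ℂ) + ((-h + (b * cj (u * cj d)).im : ℝ) : ℂ) * I) * (u * cj d) =
        u * cj ((((τ - (b * cj (u * cj d)).re : ℝ) : ℂ) + (h : ℂ) * I) * d) + b := by
      have h2 := key (u * cj d) hv
      simp only [cj, map_mul, map_add, Complex.conj_ofReal, Complex.conj_I] at h2 ⊢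
      push_cast
      linear_combination h2
    have hval : ∀ σ σ' : ℝ, σ' = -σ → val ((fun w => φ w) '' G)
        (((τ : ℂ) + ((-h + (b * cj (u * cj d)).im : ℝ) : ℂ) * I) * (u * cj d)) (u * cj d) σ =
        val G ((((τ - (b * cj (u * cj d)).re : ℝ) : ℂ) + (h : ℂ) * I) * d) d σ' := by
      rintro σ _ rfl
      have hiff : EvP ((fun w => φ w) '' G)
          (((τ : ℂ) + ((-h + (b * cj (u * cj d)).im : ℝ) : ℂ) * I) * (u * cj d)) (u * cj d) σ ↔
          EvP G ((((τ - (b * cj (u * cj d)).re : ℝ) : ℂ) + (h : ℂ) * I) * d) d (-σ) := by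
        unfold EvP
        have hpt : ∀ δ ε : ℝ,
            pt (((τ : ℂ) + ((-h + (b * cj (u * cj d)).im : ℝ) : ℂ) * I) * (u * cj d))
            (u * cj d) σ δ ε ∈ (fun w => φ w) '' G ↔
            pt ((((τ - (b * cj (u * cj d)).re : ℝ) : ℂ) + (h : ℂ) * I) * d) d (-σ) δ ε ∈ G := by
          intro δ ε
          have h3 : pt (((τ : ℂ) + ((-h + (b * cj (u * cj d)).im : ℝ) : ℂ) * I) * (u * cj d))
            (u * cj d) σ δ ε =
            φ (pt ((((τ - (b * cj (u * cj d)).re : ℝ) : ℂ) + (h : ℂ) * I) * d) d (-σ) δ ε) := by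
            rw [hφ, pt, pt, hx]
            simp only [cj, map_mul, map_add, Complex.conj_ofReal, Complex.conj_I, map_one]
            push_cast
            ring
          rw [h3]
          exact Function.Injective.mem_set_image φ.injective
        simp only [hpt]
      unfold val
      by_cases hc : EvP G ((((τ - (b * cj (u * cj d)).re : ℝ) : ℂ) + (h : ℂ) * I) * d) d (-σ)
      · rw [if_pos hc, if_pos (hiff.2 hc)]
      · rw [if_neg hc, if_neg fun h' => hc (hiff.1 h')]
    unfold Dn
    rw [jmp_eq, jmp_eq, hval 1 (-1) (by norm_num), hval (-1) 1 (by norm_num)]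
    ring

end T2h42.AP
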