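import Pool.Agent.T2h42.AP.STEP

/-! Project AP, task LINE (helper3): off the lines of `L` there are no jumps. -/

set_option autoImplicit false
set_option linter.all false

open Set Filter Topology Complex

namespace T2h42.AP

noncomputable section

namespace Sg

theorem line_core (A wr wi : ℝ) (hw : wr ^ 2 + wi ^ 2 = 1) (h : A ≠ 0 ∨ wi ≠ 0) :
    ∀ᶠ δ : ℝ in 𝓝[>] (0 : ℝ), ∀ᶠ ε : ℝ in 𝓝[>] (0 : ℝ), ∀ η : ℝ, |η| ≤ δ →
      A + ε * (wi + η * wr) ≠ 0 := by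
  have hr : |wr| ≤ 1 := by
    rw [abs_le]
    constructor <;> nlinarith [sq_nonneg wi]
  have hi : |wi| ≤ 1 := by
    rw [abs_le]
    constructor <;> nlinarith [sq_nonneg wr]
  rcases eq_or_ne A 0 with hA | hA
  · have hwi : wi ≠ 0 := by
      rcases h with h | h
      · exact absurd hA h
      · exact h
    filter_upwards [ev_pos, ev_lt |wi| (abs_pos.2 hwi)] with δ hδ hδ'
    filter_upwards [ev_pos] with ε hε η hη he
    rw [hA, zero_add, mul_eq_zero] at he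
    rcases he with he | he
    · exact (ne_of_gt hε) he
    · have h1 : wi = -(η * wr) := by linarith
      have h2 : |wi| ≤ δ := by
        rw [h1, abs_neg, abs_mul]
        calc |η| * |wr| ≤ |η| * 1 := mul_le_mul_of_nonneg_left hr (abs_nonneg _)
          _ ≤ δ := by rw [mul_one]; exact hη
      linarith
  · filter_upwards [ev_pos, ev_lt 1 one_pos] with δ hδ hδ'
    filter_upwards [ev_pos, ev_lt (|A| / 2) (by have := abs_pos.2 hA; linarith)] with ε hε hε' η hη he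
    have h1 : A = -(ε * (wi + η * wr)) := by linarith
    have h2 : |wi + η * wr| ≤ 2 := by
      refine (abs_add_le _ _).trans ?_
      rw [abs_mul]
      have h3 : |η| * |wr| ≤ 1 * 1 := mul_le_mul (by linarith) hr (abs_nonneg _) (by norm_num)
      linarith
    have h3 : |A| ≤ ε * 2 := by
      rw [h1, abs_neg, abs_mul, abs_of_pos hε]
      exact mul_le_mul_of_nonneg_left h2 hε.le
    linarith

end Sg

open Sg

theorem t_LINE : S_LINE := by
  intro G L hL q hq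
  funext τ
  set x : ℂ := ((τ : ℂ) + (q.2 : ℂ) * I) * (q.1 : ℂ) with hx
  have hcj : ∀ d : Circle, cj (d : ℂ) * (d : ℂ) = 1 := by
    intro d
    have h1 := Complex.normSq_eq_conj_mul_self (z := (d : ℂ))
    rw [Circle.normSq_coe] at h1
    rw [← h1]
    simp
  have hcase : ∀ q' ∈ L, (x * cj (q'.1 : ℂ)).im - q'.2 ≠ 0 ∨ ((q.1 : ℂ) * cj (q'.1 : ℂ)).im ≠ 0 := by
    intro q' hq'
    by_contra hcon
    push Not at hcon
    obtain ⟨h1, h2⟩ := hcon
    obtain ⟨hn1, hn2⟩ := hq q' hq'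
    have h3 := norm_w q.1 q'.1
    rw [h2] at h3
    have h4 : ((q.1 : ℂ) * cj (q'.1 : ℂ)).re = 1 ∨ ((q.1 : ℂ) * cj (q'.1 : ℂ)).re = -1 := by
      have h5 : (((q.1 : ℂ) * cj (q'.1 : ℂ)).re) ^ 2 = 1 := by linarith
      exact eq_or_eq_neg_of_sq_eq_sq _ _ (by rw [h5, one_pow])
    rw [hx, im_pt, h2, mul_zero, zero_add] at h1
    rcases h4 with h4 | h4
    · have h6 : (q.1 : ℂ) * cj (q'.1 : ℂ) = 1 := Complex.ext (by simpa using h4) (by simpa using h2)
      have h7 : (q'.1 : ℂ) = (q.1 : ℂ) := by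
        calc (q'.1 : ℂ) = ((q.1 : ℂ) * cj (q'.1 : ℂ)) * (q'.1 : ℂ) := by rw [h6, one_mul]
          _ = (q.1 : ℂ) := by rw [mul_assoc, hcj, mul_one]
      apply hn1
      refine Prod.ext (Circle.ext h7) ?_
      rw [h4] at h1
      linarith
    · have h6 : (q.1 : ℂ) * cj (q'.1 : ℂ) = -1 := Complex.ext (by simpa using h4) (by simpa using h2)
      have h7 : (q'.1 : ℂ) = -(q.1 : ℂ) := by
        calc (q'.1 : ℂ) = -(((q.1 : ℂ) * cj (q'.1 : ℂ)) * (q'.1 : ℂ)) := by rw [h6]; ring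
          _ = -(q.1 : ℂ) := by rw [mul_assoc, hcj, mul_one]
      apply hn2
      refine ⟨h7, ?_⟩
      rw [h4] at h1
      linarith
  have h1 : ∀ᶠ δ : ℝ in 𝓝[>] (0 : ℝ), ∀ᶠ ε : ℝ in 𝓝[>] (0 : ℝ), ∀ q' ∈ L, ∀ η : ℝ, |η| ≤ δ →
      ((x * cj (q'.1 : ℂ)).im - q'.2) + ε * (((q.1 : ℂ) * cj (q'.1 : ℂ)).im +
        η * ((q.1 : ℂ) * cj (q'.1 : ℂ)).re) ≠ 0 := by
    have h2 : ∀ q' ∈ L, ∀ᶠ δ : ℝ in 𝓝[>] (0 : ℝ), ∀ᶠ ε : ℝ in 𝓝[>] (0 : ℝ), ∀ η : ℝ, |η| ≤ δ →
      ((x * cj (q'.1 : ℂ)).im - q'.2) + ε * (((q.1 : ℂ) * cj (q'.1 : ℂ)).im +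
        η * ((q.1 : ℂ) * cj (q'.1 : ℂ)).re) ≠ 0 := fun q' hq' =>
      line_core _ _ _ (norm_w q.1 q'.1) (hcase q' hq')
    have h3 := (Filter.eventually_all_finset L).2 h2
    filter_upwards [h3] with δ hδ
    exact (Filter.eventually_all_finset L).2 hδ
  have h4 : ∀ᶠ δ : ℝ in (U : Filter ℝ), ∀ᶠ ε : ℝ in (U : Filter ℝ),
      (x + (ε : ℂ) * (q.1 : ℂ) * (1 + (δ : ℂ) * I) ∈ G ↔
        x + (ε : ℂ) * (q.1 : ℂ) * (1 - (δ : ℂ) * I) ∈ G) := by
    refine ((h1.and ev_pos).filter_mono U_le).mono fun δ hδ =>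
      (hδ.1.filter_mono U_le).mono fun ε hε => ?_
    have hδp := hδ.2
    apply seg_iff G L hL
    intro z hz
    obtain ⟨a, b, ha, hb, hab, rfl⟩ := hz
    apply not_NL
    intro q' hq'
    have h5 := hε q' hq' ((a - b) * δ) (by
      rw [abs_mul, abs_of_pos hδp]
      have h6 : |a - b| ≤ 1 := by
        rw [abs_le]
        constructor <;> linarith
      nlinarith)
    have h6 : a • (x + (ε : ℂ) * (q.1 : ℂ) * (1 + (δ : ℂ) * I)) +
        b • (x + (ε : ℂ) * (q.1 : ℂ) * (1 - (δ : ℂ) * I)) =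
        x + (((ε : ℝ) : ℂ) + ((ε * ((a - b) * δ) : ℝ) : ℂ) * I) * (q.1 : ℂ) := by
      rw [Complex.real_smul, Complex.real_smul]
      have hb2 : b = 1 - a := by linarith
      have hb' : (b : ℂ) = 1 - a := by
        rw [hb2]
        push_cast
        ring
      push_cast
      rw [hb']
      ring
    rw [h6, add_mul, Complex.add_im, im_pt (q.1 : ℂ) (q'.1 : ℂ) ε (ε * ((a - b) * δ))]
    intro h7
    apply h5
    rw [← h7]
    ring
  have h5 : LfP G x (q.1 : ℂ) ↔ RtP G x (q.1 : ℂ) :=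
    Filter.eventually_congr (h4.mono fun δ hδ => Filter.eventually_congr hδ)
  show jmp G x (q.1 : ℂ) = 0
  unfold jmp
  by_cases hx1 : LfP G x (q.1 : ℂ)
  · rw [if_pos hx1, if_pos (h5.1 hx1), sub_self]
  · rw [if_neg hx1, if_neg (fun h => hx1 (h5.2 h)), sub_self]

end

end T2h42.AP
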