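import Pool.Agent.T2h42.AP.Stm

set_option autoImplicit false

/-! Task SIDE of project AP (helper97). -/

open Set

namespace T2h42.AP

noncomputable section

theorem int_image (φ : ℂ ≃ᵢ ℂ) (P : Set ℂ) :
    interior ((fun z => φ z) '' P) = (fun z => φ z) '' interior P :=
  (φ.toHomeomorph.image_interior P).symm

theorem t_SIDE : S_SIDE := by
  intro P T r φ lam c W p0 hP hT hr hr1 hφ hlam hc hd hW w hw
  have hwP : (fun z => w z) '' P = P := (hW w).1 hw
  have hwI : ∀ z ∈ interior P, w z ∈ interior P := by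
    intro z hz
    have h1 : w z ∈ (fun z => w z) '' interior P := ⟨z, hz, rfl⟩
    rwa [← int_image, hwP] at h1
  by_cases h0 : ∃ z0 ∈ interior P, lam (φ z0) = 0
  · obtain ⟨z0, hz0, hl0⟩ := h0
    have hfix : r (φ z0) = φ z0 := by
      have h1 := hd (φ z0) (φ z0)
      rw [hl0, dist_self] at h1
      have h2 : dist (φ z0) (r (φ z0)) = 0 := by
        have : dist (φ z0) (r (φ z0)) ^ 2 = 0 := by linarith
        exact pow_eq_zero_iff (two_ne_zero) |>.1 this
      exact (dist_eq_zero.1 h2).symm
    have hrA : (fun z => r z) '' ((fun z => φ z) '' P) ∈ T := hr.1 _ hφ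
    have heq : (fun z => φ z) '' P = (fun z => r z) '' ((fun z => φ z) '' P) := by
      by_contra hne
      have h1 : Disjoint (interior ((fun z => φ z) '' P))
        (interior ((fun z => r z) '' ((fun z => φ z) '' P))) := hT.disj hφ hrA hne
      rw [int_image r, int_image φ] at h1
      exact Set.disjoint_left.1 h1 ⟨z0, hz0, rfl⟩ ⟨φ z0, ⟨z0, hz0, rfl⟩, hfix⟩
    have hw'W : φ⁻¹ * r * φ ∈ W := by
      rw [hW]
      have h1 : (fun z => (φ⁻¹ * r * φ) z) '' P =
          (fun z => φ⁻¹ z) '' ((fun z => r z) '' ((fun z => φ z) '' P)) := by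
        rw [image_image, image_image]
        rfl
      rw [h1, ← heq, image_image]
      have h2 : ∀ z, φ⁻¹ (φ z) = z := fun z => φ.symm_apply_apply z
      simp only [h2, image_id']
    have hw'1 : φ⁻¹ * r * φ ≠ 1 := by
      intro h
      apply hr1
      have : r = φ * (φ⁻¹ * r * φ) * φ⁻¹ := by group
      rw [this, h]
      group
    have hkey : ∀ z ∈ interior P ∩ cell W p0, 0 < lam (φ (w z)) * lam (φ (w p0)) := by
      rintro z ⟨-, hz⟩
      have h1 := hz (w⁻¹ * (φ⁻¹ * r * φ) * w)
        (mul_mem (mul_mem (inv_mem hw) hw'W) hw) (by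
          intro h
          apply hw'1
          have : φ⁻¹ * r * φ = w * (w⁻¹ * (φ⁻¹ * r * φ) * w) * w⁻¹ := by group
          rw [this, h]
          group)
      have e1 : dist z ((w⁻¹ * (φ⁻¹ * r * φ) * w) p0) = dist (φ (w z)) (r (φ (w p0))) := by
        have : φ (w ((w⁻¹ * (φ⁻¹ * r * φ) * w) p0)) = r (φ (w p0)) := by
          have h2 : φ * (w * (w⁻¹ * (φ⁻¹ * r * φ) * w)) = r * φ * w := by group
          exact congrArg (fun g : ℂ ≃ᵢ ℂ => g p0) h2
        rw [← this, φ.dist_eq, w.dist_eq]
      have e2 : dist z p0 = dist (φ (w z)) (φ (w p0)) := by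
        rw [φ.dist_eq, w.dist_eq]
      rw [e1, e2] at h1
      have h3 := hd (φ (w z)) (φ (w p0))
      have h4 : 0 < c * (lam (φ (w z)) * lam (φ (w p0))) := by
        rw [← h3]
        have h5 := dist_nonneg (x := φ (w z)) (y := φ (w p0))
        nlinarith
      exact (mul_pos_iff_of_pos_left hc).1 h4
    by_cases hy : 0 < lam (φ (w p0))
    · left
      intro z hz
      exact (mul_pos_iff_of_pos_right hy).1 (hkey z hz)
    · right
      intro z hz
      have := hkey z hz
      by_contra hcon
      push Not at hcon hy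
      nlinarith [mul_nonneg hcon (neg_nonneg.2 hy)]
  · push Not at h0
    have hcont : ContinuousOn (fun z => lam (φ z)) (interior P) :=
      (hlam.comp φ.continuous).continuousOn
    have hpre : IsPreconnected (interior P) := hP.conn.isPreconnected
    by_cases h1 : ∃ z ∈ interior P, 0 < lam (φ z)
    · obtain ⟨z1, hz1, hp1⟩ := h1
      left
      rintro z ⟨hz, -⟩
      by_contra hcon
      push Not at hcon
      obtain ⟨z3, hz3, h3⟩ := hpre.intermediate_value (hwI z hz) hz1 hcont ⟨hcon, hp1.le⟩
      exact h0 z3 hz3 h3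
    · right
      push Not at h1
      rintro z ⟨hz, -⟩
      exact lt_of_le_of_ne (h1 _ (hwI z hz)) (h0 _ (hwI z hz))

end

end T2h42.AP
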