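import Pool.Agent.T2h42.AP.Stm

/-! Project AP, task STEP (helper3): the jump functions of good sets are step functions. -/

set_option autoImplicit false
set_option linter.all false

open Set Filter Topology Complex

namespace T2h42.AP

noncomputable section

namespace Sg

theorem seg_iff (G : Set ℂ) (L : Finset (Circle × ℝ)) (hL : frontier G ⊆ NL L) (x y : ℂ)
    (h : ∀ z ∈ segment ℝ x y, z ∉ NL L) : x ∈ G ↔ y ∈ G := by
  have hc : IsPreconnected (segment ℝ x y) := (convex_segment x y).isPreconnected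
  have key : ∀ u v : ℂ, u ∈ segment ℝ x y → v ∈ segment ℝ x y → u ∈ G → v ∈ G := by
    intro u v hu hv huG
    by_contra hvG
    have hfr : ∀ z ∈ segment ℝ x y, z ∉ frontier G := fun z hz hz' => h z hz (hL hz')
    obtain ⟨z, hz1, hz2, hz3⟩ := hc (interior G) (closure G)ᶜ isOpen_interior
      isClosed_closure.isOpen_compl (by
        intro z hz
        by_cases hzc : z ∈ closure G
        · left
          by_contra hzi
          exact hfr z hz ⟨hzc, hzi⟩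
        · right
          exact hzc)
      ⟨u, hu, by
        by_contra hui
        exact hfr u hu ⟨subset_closure huG, hui⟩⟩
      ⟨v, hv, fun hvc => hfr v hv ⟨hvc, fun hvi => hvG (interior_subset hvi)⟩⟩
    exact hz3 (subset_closure (interior_subset hz2))
  exact ⟨key x y (left_mem_segment ℝ x y) (right_mem_segment ℝ x y),
    key y x (right_mem_segment ℝ x y) (left_mem_segment ℝ x y)⟩

theorem ev_pos : ∀ᶠ ε : ℝ in 𝓝[>] (0 : ℝ), 0 < ε := self_mem_nhdsWithin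

theorem ev_lt (c : ℝ) (hc : 0 < c) : ∀ᶠ ε : ℝ in 𝓝[>] (0 : ℝ), ε < c := by
  filter_upwards [Ioo_mem_nhdsGT hc] with ε hε using hε.2

theorem ev_ne (c : ℝ) : ∀ᶠ ε : ℝ in 𝓝[>] (0 : ℝ), ε ≠ c := by
  rcases le_or_gt c 0 with h | h
  · filter_upwards [ev_pos] with ε hε
    intro h1
    rw [h1] at hε
    linarith
  · filter_upwards [ev_lt c h] with ε hε using ne_of_lt hε

theorem step_core (wr wi h h0 s τ τ' : ℝ) (hw : wr ^ 2 + wi ^ 2 = 1) (hs : s ≠ 0)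
    (hB : wi ≠ 0 → ¬ (τ < (h0 - h * wr) / wi ∧ (h0 - h * wr) / wi ≤ τ')) :
    ∀ᶠ δ : ℝ in 𝓝[>] (0 : ℝ), ∀ᶠ ε : ℝ in 𝓝[>] (0 : ℝ), ∀ σ : ℝ, τ ≤ σ → σ ≤ τ' →
      (σ + ε) * wi + (h + s * ε * δ) * wr ≠ h0 := by
  rcases eq_or_ne wi 0 with h0i | h0i
  · have hwr : wr ≠ 0 := by
      rintro rfl
      rw [h0i] at hw
      norm_num at hw
    filter_upwards [ev_pos] with δ hδ
    filter_upwards [ev_ne ((h0 / wr - h) / (s * δ))] with ε hε σ _ _ he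
    apply hε
    rw [h0i] at he
    have h1 : s * δ ≠ 0 := mul_ne_zero hs (ne_of_gt hδ)
    rw [eq_div_iff h1, eq_sub_iff_add_eq, eq_div_iff hwr]
    linarith
  · set b : ℝ := (h0 - h * wr) / wi with hb
    set k : ℝ := s * wr / wi with hk
    have hδ0 : 0 < 1 / (|k| + 1) := by positivity
    filter_upwards [ev_pos, ev_lt _ hδ0] with δ hδ hδ'
    have hc : 0 < 1 + δ * k := by
      rw [lt_div_iff₀ (by positivity)] at hδ'
      have h1 : -(δ * |k|) ≤ δ * k := by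
        have := neg_abs_le k
        nlinarith
      nlinarith
    have key : ∀ ε σ : ℝ, (σ + ε) * wi + (h + s * ε * δ) * wr = h0 → σ = b - ε * (1 + δ * k) := by
      intro ε σ he
      rw [hb, hk]
      field_simp
      linarith
    rcases le_or_gt b τ with hbt | hbt
    · filter_upwards [ev_pos] with ε hε σ hσ _ he
      have h1 := key ε σ he
      have h2 : 0 < ε * (1 + δ * k) := mul_pos hε hc
      linarith
    · have hbt' : τ' < b := by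
        by_contra hcon
        exact hB h0i ⟨hbt, not_lt.mp hcon⟩
      filter_upwards [ev_pos, ev_lt ((b - τ') / (1 + δ * k)) (div_pos (by linarith) hc)]
        with ε hε hε' σ _ hσ he
      have h1 := key ε σ he
      rw [lt_div_iff₀ hc] at hε'
      linarith

theorem im_pt (d d0 : ℂ) (a b : ℝ) :
    ((((a : ℂ) + (b : ℂ) * I) * d) * cj d0).im = a * (d * cj d0).im + b * (d * cj d0).re := by
  rw [mul_assoc, Complex.mul_im]
  simp

theorem norm_w (d d0 : Circle) : ((d : ℂ) * cj (d0 : ℂ)).re ^ 2 + ((d : ℂ) * cj (d0 : ℂ)).im ^ 2 = 1 := by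
  have h1 : Complex.normSq ((d : ℂ) * cj (d0 : ℂ)) = 1 := by
    rw [map_mul, Complex.normSq_conj, Circle.normSq_coe, Circle.normSq_coe, mul_one]
  rw [Complex.normSq_apply] at h1
  linarith [sq ((d : ℂ) * cj (d0 : ℂ)).re, sq ((d : ℂ) * cj (d0 : ℂ)).im]

theorem not_NL (L : Finset (Circle × ℝ)) (z : ℂ) (h : ∀ q ∈ L, (z * cj (q.1 : ℂ)).im ≠ q.2) :
    z ∉ NL L := by
  intro hz
  unfold NL at hz
  simp only [mem_iUnion] at hz
  obtain ⟨q, hq, hz⟩ := hz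
  exact h q hq hz

/-- the germ membership agrees at `τ` and `τ'` -/
theorem step_iff (G : Set ℂ) (L : Finset (Circle × ℝ)) (hL : frontier G ⊆ NL L) (d : Circle)
    (h s τ τ' : ℝ) (hs : s ≠ 0) (hτ : τ < τ')
    (hB : ∀ q ∈ L, ((d : ℂ) * cj (q.1 : ℂ)).im ≠ 0 →
      ¬ (τ < (q.2 - h * ((d : ℂ) * cj (q.1 : ℂ)).re) / ((d : ℂ) * cj (q.1 : ℂ)).im ∧
        (q.2 - h * ((d : ℂ) * cj (q.1 : ℂ)).re) / ((d : ℂ) * cj (q.1 : ℂ)).im ≤ τ')) :
    (∀ᶠ δ : ℝ in (U : Filter ℝ), ∀ᶠ ε : ℝ in (U : Filter ℝ),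
      ((τ : ℂ) + (h : ℂ) * I) * d + (ε : ℂ) * d * (1 + (s : ℂ) * (δ : ℂ) * I) ∈ G) ↔
    (∀ᶠ δ : ℝ in (U : Filter ℝ), ∀ᶠ ε : ℝ in (U : Filter ℝ),
      ((τ' : ℂ) + (h : ℂ) * I) * d + (ε : ℂ) * d * (1 + (s : ℂ) * (δ : ℂ) * I) ∈ G) := by
  have h1 : ∀ᶠ δ : ℝ in 𝓝[>] (0 : ℝ), ∀ᶠ ε : ℝ in 𝓝[>] (0 : ℝ), ∀ q ∈ L, ∀ σ : ℝ, τ ≤ σ →
      σ ≤ τ' → (σ + ε) * ((d : ℂ) * cj (q.1 : ℂ)).im + (h + s * ε * δ) *
        ((d : ℂ) * cj (q.1 : ℂ)).re ≠ q.2 := by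
    have h2 : ∀ q ∈ L, ∀ᶠ δ : ℝ in 𝓝[>] (0 : ℝ), ∀ᶠ ε : ℝ in 𝓝[>] (0 : ℝ), ∀ σ : ℝ, τ ≤ σ →
      σ ≤ τ' → (σ + ε) * ((d : ℂ) * cj (q.1 : ℂ)).im + (h + s * ε * δ) *
        ((d : ℂ) * cj (q.1 : ℂ)).re ≠ q.2 := fun q hq =>
      step_core _ _ h q.2 s τ τ' (norm_w d q.1) hs (hB q hq)
    have h3 := (Filter.eventually_all_finset L).2 h2
    filter_upwards [h3] with δ hδ
    exact (Filter.eventually_all_finset L).2 hδ
  have h4 : ∀ᶠ δ : ℝ in (U : Filter ℝ), ∀ᶠ ε : ℝ in (U : Filter ℝ),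
      (((τ : ℂ) + (h : ℂ) * I) * d + (ε : ℂ) * d * (1 + (s : ℂ) * (δ : ℂ) * I) ∈ G ↔
        ((τ' : ℂ) + (h : ℂ) * I) * d + (ε : ℂ) * d * (1 + (s : ℂ) * (δ : ℂ) * I) ∈ G) := by
    refine (h1.filter_mono U_le).mono fun δ hδ => (hδ.filter_mono U_le).mono fun ε hε => ?_
    apply seg_iff G L hL
    intro z hz
    obtain ⟨a, b, ha, hb, hab, rfl⟩ := hz
    apply not_NL
    intro q hq
    have hb1 : b = 1 - a := by linarith
    have h5 := hε q hq (a * τ + b * τ') (by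
        have h7 := mul_nonneg hb (sub_nonneg.2 hτ.le)
        have h8 : a * τ + b * τ' = τ + b * (τ' - τ) := by
          have : a = 1 - b := by linarith
          rw [this]
          ring
        linarith) (by
        have h7 := mul_nonneg ha (sub_nonneg.2 hτ.le)
        have h8 : a * τ + b * τ' = τ' - a * (τ' - τ) := by
          rw [hb1]
          ring
        linarith)
    have h6 : a • (((τ : ℂ) + (h : ℂ) * I) * d + (ε : ℂ) * d * (1 + (s : ℂ) * (δ : ℂ) * I)) +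
        b • (((τ' : ℂ) + (h : ℂ) * I) * d + (ε : ℂ) * d * (1 + (s : ℂ) * (δ : ℂ) * I)) =
        (((a * τ + b * τ' + ε : ℝ) : ℂ) + ((h + s * ε * δ : ℝ) : ℂ) * I) * d := by
      rw [Complex.real_smul, Complex.real_smul]
      have hb2 : b = 1 - a := by linarith
      have hb' : (b : ℂ) = 1 - a := by
        rw [hb2]
        push_cast
        ring
      push_cast
      rw [hb']
      ring
    rw [h6, im_pt]
    exact h5
  refine Filter.eventually_congr (h4.mono fun δ hδ => ?_)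
  exact Filter.eventually_congr hδ

theorem far (G : Set ℂ) (R : ℝ) (hG : G ⊆ Metric.closedBall 0 R) (x d c : ℂ) (hx : R < ‖x‖) :
    ∀ᶠ ε : ℝ in 𝓝[>] (0 : ℝ), x + (ε : ℂ) * d * c ∉ G := by
  have h1 : Continuous fun ε : ℝ => ‖x + (ε : ℂ) * d * c‖ := by fun_prop
  have h2 : Tendsto (fun ε : ℝ => ‖x + (ε : ℂ) * d * c‖) (𝓝[>] (0 : ℝ)) (𝓝 ‖x‖) := by
    have h3 := (h1.tendsto 0).mono_left (nhdsWithin_le_nhds (s := Ioi (0 : ℝ)))
    simpa using h3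
  filter_upwards [h2.eventually (lt_mem_nhds hx)] with ε hε hmem
  have h4 := hG hmem
  rw [mem_closedBall_zero_iff] at h4
  linarith

theorem lf_iff (G : Set ℂ) (x d : ℂ) : LfP G x d ↔
    (∀ᶠ δ : ℝ in (U : Filter ℝ), ∀ᶠ ε : ℝ in (U : Filter ℝ),
      x + (ε : ℂ) * d * (1 + ((1 : ℝ) : ℂ) * (δ : ℂ) * I) ∈ G) := by
  unfold LfP
  simp only [Complex.ofReal_one, one_mul]

theorem rt_iff (G : Set ℂ) (x d : ℂ) : RtP G x d ↔
    (∀ᶠ δ : ℝ in (U : Filter ℝ), ∀ᶠ ε : ℝ in (U : Filter ℝ),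
      x + (ε : ℂ) * d * (1 + ((-1 : ℝ) : ℂ) * (δ : ℂ) * I) ∈ G) := by
  unfold RtP
  simp only [Complex.ofReal_neg, Complex.ofReal_one, neg_mul, one_mul, ← sub_eq_add_neg]

theorem jmp_congr (G : Set ℂ) (x y d e : ℂ) (h1 : LfP G x d ↔ LfP G y e)
    (h2 : RtP G x d ↔ RtP G y e) : jmp G x d = jmp G y e := by
  unfold jmp
  by_cases hx1 : LfP G x d <;> by_cases hx2 : RtP G x d
  · rw [if_pos hx1, if_pos hx2, if_pos (h1.1 hx1), if_pos (h2.1 hx2)]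
  · rw [if_pos hx1, if_neg hx2, if_pos (h1.1 hx1), if_neg (fun h => hx2 (h2.2 h))]
  · rw [if_neg hx1, if_pos hx2, if_neg (fun h => hx1 (h1.2 h)), if_pos (h2.1 hx2)]
  · rw [if_neg hx1, if_neg hx2, if_neg (fun h => hx1 (h1.2 h)), if_neg (fun h => hx2 (h2.2 h))]

end Sg

open Sg

open Classical in
theorem t_STEP : S_STEP := by
  intro hSTP G hG q
  obtain ⟨hb, L, hL⟩ := hG
  obtain ⟨R, hR⟩ := hb.subset_closedBall 0
  refine hSTP _ (L.image fun q0 => (q0.2 - q.2 * ((q.1 : ℂ) * cj (q0.1 : ℂ)).re) /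
    ((q.1 : ℂ) * cj (q0.1 : ℂ)).im) R ?_ ?_
  · intro τ τ' hτ hB
    have hB' : ∀ q0 ∈ L, ((q.1 : ℂ) * cj (q0.1 : ℂ)).im ≠ 0 →
      ¬ (τ < (q0.2 - q.2 * ((q.1 : ℂ) * cj (q0.1 : ℂ)).re) / ((q.1 : ℂ) * cj (q0.1 : ℂ)).im ∧
        (q0.2 - q.2 * ((q.1 : ℂ) * cj (q0.1 : ℂ)).re) / ((q.1 : ℂ) * cj (q0.1 : ℂ)).im ≤ τ') :=
      fun q0 hq0 _ => hB _ (Finset.mem_image.2 ⟨q0, hq0, rfl⟩)
    unfold Dn
    apply jmp_congr
    · rw [lf_iff, lf_iff]
      exact step_iff G L hL q.1 q.2 1 τ τ' one_ne_zero hτ hB'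
    · rw [rt_iff, rt_iff]
      exact step_iff G L hL q.1 q.2 (-1) τ τ' (by norm_num) hτ hB'
  · intro τ hτ
    have hx : R < ‖((τ : ℂ) + (q.2 : ℂ) * I) * (q.1 : ℂ)‖ := by
      rw [norm_mul, Circle.norm_coe, mul_one]
      refine lt_of_lt_of_le hτ ?_
      have h1 := Complex.abs_re_le_norm ((τ : ℂ) + (q.2 : ℂ) * I)
      simpa using h1
    have h1 : ¬ LfP G (((τ : ℂ) + (q.2 : ℂ) * I) * (q.1 : ℂ)) (q.1 : ℂ) := by
      intro h
      obtain ⟨δ, hδ⟩ := h.exists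
      obtain ⟨ε, hε1, hε2⟩ := (hδ.and ((far G R hR _ (q.1 : ℂ) (1 + (δ : ℂ) * I) hx).filter_mono
        U_le)).exists
      exact hε2 hε1
    have h2 : ¬ RtP G (((τ : ℂ) + (q.2 : ℂ) * I) * (q.1 : ℂ)) (q.1 : ℂ) := by
      intro h
      obtain ⟨δ, hδ⟩ := h.exists
      obtain ⟨ε, hε1, hε2⟩ := (hδ.and ((far G R hR _ (q.1 : ℂ) (1 - (δ : ℂ) * I) hx).filter_mono
        U_le)).exists
      exact hε2 hε1
    unfold Dn jmp
    rw [if_neg h1, if_neg h2, sub_zero]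

end

end T2h42.AP
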