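import Pool.Agent.T2h42.AP.Stm

/-! Project AP, task STP (helper3): functions given by breakpoints are step functions. -/

set_option autoImplicit false
set_option linter.all false

open Set Filter Topology Complex

namespace T2h42.AP

theorem stp_aux (n : ℕ) : ∀ (D : ℝ → ℝ) (B : Finset ℝ) (R : ℝ), B.card = n →
    (∀ τ τ' : ℝ, τ < τ' → (∀ b ∈ B, ¬ (τ < b ∧ b ≤ τ')) → D τ = D τ') →
    (∀ τ : ℝ, R < |τ| → D τ = 0) → D ∈ SF := by
  induction n with
  | zero =>
    intro D B R hB h1 h2
    rw [Finset.card_eq_zero] at hB
    subst hB
    have h0 : D = 0 := by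
      funext τ
      have h3 : τ < |R| + |τ| + 1 := by
        have := le_abs_self τ
        have := abs_nonneg R
        linarith
      rw [h1 τ _ h3 (by simp)]
      refine h2 _ ?_
      rw [abs_of_pos (by positivity)]
      have := le_abs_self R
      have := abs_nonneg τ
      linarith
    rw [h0]
    exact SF.zero_mem
  | succ n ih =>
    intro D B R hB h1 h2
    have hne : B.Nonempty := by
      rw [← Finset.card_pos]
      omega
    obtain ⟨b, hbB, hle⟩ : ∃ b ∈ B, ∀ c ∈ B, c ≤ b :=
      ⟨B.max' hne, B.max'_mem hne, fun c hc => B.le_max' c hc⟩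
    have hz : ∀ τ, b ≤ τ → D τ = 0 := by
      intro τ hτ
      have h3 : τ < |R| + |τ| + 1 := by
        have := le_abs_self τ
        have := abs_nonneg R
        linarith
      rw [h1 τ _ h3 (fun c hc hc' => by
        have := hle c hc
        linarith [hc'.1])]
      refine h2 _ ?_
      rw [abs_of_pos (by positivity)]
      have := le_abs_self R
      have := abs_nonneg τ
      linarith
    have hcard : (B.erase b).card = n := by
      rw [Finset.card_erase_of_mem hbB, hB, Nat.add_sub_cancel]
    by_cases hB' : (B.erase b).Nonempty
    · obtain ⟨b', hbB', hle'⟩ : ∃ b' ∈ B.erase b, ∀ c ∈ B.erase b, c ≤ b' :=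
        ⟨(B.erase b).max' hB', (B.erase b).max'_mem hB', fun c hc => (B.erase b).le_max' c hc⟩
      have hlt : b' < b := lt_of_le_of_ne (hle b' (Finset.mem_of_mem_erase hbB'))
        (Finset.ne_of_mem_erase hbB')
      obtain ⟨D', hD'⟩ : ∃ D' : ℝ → ℝ, D' = D - D b' • (Ico b' b).indicator (fun _ => (1 : ℝ)) :=
        ⟨_, rfl⟩
      have hin : ∀ τ, b' ≤ τ → D' τ = 0 := by
        intro τ hτ
        rw [hD']
        simp only [Pi.sub_apply, Pi.smul_apply, smul_eq_mul]
        by_cases hτb : τ < b
        · rw [indicator_of_mem (show τ ∈ Ico b' b from ⟨hτ, hτb⟩), mul_one]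
          rcases hτ.lt_or_eq with h | h
          · rw [← h1 b' τ h (fun c hc hc' => by
              by_cases hcb : c = b
              · rw [hcb] at hc'
                linarith [hc'.2]
              · have := hle' c (Finset.mem_erase.2 ⟨hcb, hc⟩)
                linarith [hc'.1]), sub_self]
          · rw [← h, sub_self]
        · rw [indicator_of_notMem (fun h => hτb h.2), mul_zero, sub_zero]
          exact hz τ (not_lt.1 hτb)
      have hout : ∀ τ, τ < b' → D' τ = D τ := by
        intro τ hτ
        rw [hD']
        simp only [Pi.sub_apply, Pi.smul_apply, smul_eq_mul]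
        rw [indicator_of_notMem (fun h => not_lt.2 h.1 hτ), mul_zero, sub_zero]
      have hD'SF : D' ∈ SF := by
        refine ih D' (B.erase b) R hcard (fun τ τ' hττ' hb => ?_) (fun τ hτ => ?_)
        · by_cases h : b' ≤ τ
          · rw [hin τ h, hin τ' (h.trans hττ'.le)]
          · push Not at h
            have h3 : τ' < b' := by
              by_contra h4
              exact hb b' hbB' ⟨h, not_lt.1 h4⟩
            rw [hout τ h, hout τ' h3]
            refine h1 τ τ' hττ' fun c hc hc' => ?_
            by_cases hcb : c = b
            · rw [hcb] at hc'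
              linarith [hc'.2]
            · exact hb c (Finset.mem_erase.2 ⟨hcb, hc⟩) hc'
        · by_cases h : b' ≤ τ
          · exact hin τ h
          · rw [hout τ (not_le.1 h)]
            exact h2 τ hτ
      have h5 : D = D' + D b' • (Ico b' b).indicator (fun _ => (1 : ℝ)) := by
        rw [hD', sub_add_cancel]
      rw [h5]
      exact SF.add_mem hD'SF (SF.smul_mem _ (Submodule.subset_span ⟨(b', b), rfl⟩))
    · rw [Finset.not_nonempty_iff_eq_empty] at hB'
      have h0 : D = 0 := by
        funext τ
        by_cases hτ : b ≤ τ
        · exact hz τ hτ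
        · push Not at hτ
          have h3 : -(|R| + |τ| + 1) < τ := by
            have := neg_abs_le τ
            have := abs_nonneg R
            linarith
          rw [← h1 _ τ h3 (fun c hc hc' => by
            have hcb : c = b := by
              by_contra hcb
              have := Finset.mem_erase.2 ⟨hcb, hc⟩
              rw [hB'] at this
              exact absurd this (Finset.notMem_empty c)
            rw [hcb] at hc'
            linarith [hc'.2])]
          refine h2 _ ?_
          rw [abs_neg, abs_of_pos (by positivity)]
          have := le_abs_self R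
          have := abs_nonneg τ
          linarith
      rw [h0]
      exact SF.zero_mem

theorem t_STP : S_STP := fun D B R h1 h2 => stp_aux B.card D B R rfl h1 h2

end T2h42.AP
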