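import Pool.Agent.T2h42.AP.Stm

set_option autoImplicit false

open Set Filter Topology Complex

namespace T2h42.AP

theorem SYF_fib (hK : H74R2.WT.T_K0) (x y a b : ℂ) (hxy : x ≠ y) :
    {w : ℂ ≃ᵢ ℂ | w x = a ∧ w y = b}.Finite := by
  have hxy' : x - y ≠ 0 := sub_ne_zero.2 hxy
  have hxy2 : cj x - cj y ≠ 0 := by
    intro hc
    apply hxy
    have : cj x = cj y := sub_eq_zero.1 hc
    exact (starRingEnd ℂ).injective this
  set u1 : ℂ := (a - b) / (x - y) with hu1
  set u2 : ℂ := (a - b) / (cj x - cj y) with hu2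
  have sub : {w : ℂ ≃ᵢ ℂ | w x = a ∧ w y = b} ⊆
      {w : ℂ ≃ᵢ ℂ | ∀ z, w z = u1 * z + (a - u1 * x)} ∪
      {w : ℂ ≃ᵢ ℂ | ∀ z, w z = u2 * cj z + (a - u2 * cj x)} := by
    rintro w ⟨h1, h2⟩
    obtain ⟨u, β, -, hw | hw⟩ := hK w
    · left
      have e1 : u * x + β = a := by rw [← hw, h1]
      have e2 : u * y + β = b := by rw [← hw, h2]
      have e3 : u = u1 := by
        rw [hu1, eq_div_iff hxy']
        linear_combination e1 - e2
      intro z
      rw [hw z, ← e3]
      linear_combination e1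
    · right
      have e1 : u * cj x + β = a := by rw [← h1, hw]
      have e2 : u * cj y + β = b := by rw [← h2, hw]
      have e3 : u = u2 := by
        rw [hu2, eq_div_iff hxy2]
        linear_combination e1 - e2
      intro z
      rw [hw z, ← e3]
      show u * cj z + β = u * cj z + (a - u * cj x)
      linear_combination e1
  refine Finite.subset (Finite.union (Subsingleton.finite ?_) (Subsingleton.finite ?_)) sub
  · intro w hw w' hw'
    ext z
    rw [hw z, hw' z]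
  · intro w hw w' hw'
    ext z
    rw [hw z, hw' z]

/-- points of `P` having a partner at distance `D` -/
def SYF_F (P : Set ℂ) (D : ℝ) : Set ℂ := {x | x ∈ P ∧ ∃ y ∈ P, dist x y = D}

theorem SYF_line (P : Set ℂ) (D : ℝ) (hD : ∀ x ∈ P, ∀ y ∈ P, dist x y ≤ D) (q : Circle × ℝ) :
    (ln q ∩ SYF_F P D).Finite := by
  have hD0 : ∀ x ∈ SYF_F P D, 0 ≤ D := by
    rintro x ⟨_, y, _, h⟩
    rw [← h]; exact dist_nonneg
  have hd : (q.1 : ℂ) * cj (q.1 : ℂ) = 1 := by
    rw [Complex.mul_conj, Complex.normSq_eq_norm_sq, Circle.norm_coe]; simp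
  set f : ℝ → ℂ := fun τ => ((τ : ℂ) + (q.2 : ℂ) * I) * (q.1 : ℂ) with hf
  have hsub : ln q ∩ SYF_F P D ⊆ f '' {τ | f τ ∈ SYF_F P D} := by
    rintro x ⟨hx1, hx2⟩
    have key : f ((x * cj (q.1 : ℂ)).re) = x := by
      have : (((x * cj (q.1 : ℂ)).re : ℂ) + (q.2 : ℂ) * I) = x * cj (q.1 : ℂ) := by
        have hx1' : (x * cj (q.1 : ℂ)).im = q.2 := hx1
        rw [← hx1']
        exact Complex.re_add_im _
      simp only [hf]
      rw [this, mul_assoc, mul_comm (cj (q.1 : ℂ)), hd, mul_one]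
    refine ⟨_, ?_, key⟩
    show f ((x * cj (q.1 : ℂ)).re) ∈ SYF_F P D
    rw [key]; exact hx2
  refine Finite.subset (Finite.image f ?_) hsub
  by_contra hinf
  obtain ⟨t, ht, htc⟩ := Set.Infinite.exists_subset_card_eq hinf 3
  set o := t.orderEmbOfFin htc with ho
  have hmem : ∀ i, f (o i) ∈ SYF_F P D := fun i => ht (t.orderEmbOfFin_mem htc i)
  have h01 : o 0 < o 1 := o.strictMono (by decide)
  have h12 : o 1 < o 2 := o.strictMono (by decide)
  obtain ⟨hP1, y, hy, hyD⟩ := hmem 1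
  have hDD := hD0 _ (hmem 1)
  have k0 := hD _ (hmem 0).1 y hy
  have k2 := hD _ (hmem 2).1 y hy
  set α : ℝ := (y * cj (q.1 : ℂ)).re with hα
  set β : ℝ := (y * cj (q.1 : ℂ)).im with hβ
  have dd : ∀ τ : ℝ, dist (f τ) y ^ 2 = (τ - α) ^ 2 + (q.2 - β) ^ 2 := by
    intro τ
    have e1 : dist (f τ) y = ‖((τ : ℂ) + (q.2 : ℂ) * I) - y * cj (q.1 : ℂ)‖ := by
      have : f τ - y = (((τ : ℂ) + (q.2 : ℂ) * I) - y * cj (q.1 : ℂ)) * (q.1 : ℂ) := by
        simp only [hf]
        rw [sub_mul, mul_assoc y, mul_comm (cj (q.1 : ℂ)), hd, mul_one]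
      rw [dist_eq_norm, this, norm_mul, Circle.norm_coe, mul_one]
    rw [e1, ← Complex.normSq_eq_norm_sq, Complex.normSq_apply]
    simp only [Complex.sub_re, Complex.sub_im, Complex.add_re, Complex.add_im, Complex.mul_re,
      Complex.mul_im, Complex.ofReal_re, Complex.ofReal_im, Complex.I_re, Complex.I_im]
    rw [hα, hβ]
    simp only [Complex.mul_re, Complex.mul_im]
    ring
  have s1 := dd (o 1)
  have s0 : dist (f (o 0)) y ^ 2 ≤ D ^ 2 := pow_le_pow_left₀ dist_nonneg k0 2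
  have s2 : dist (f (o 2)) y ^ 2 ≤ D ^ 2 := pow_le_pow_left₀ dist_nonneg k2 2
  rw [hyD] at s1
  rw [dd] at s0 s2
  have t0 : 0 ≤ o 0 + o 1 - 2 * α := by
    by_contra hc
    push Not at hc
    nlinarith
  have t2 : o 1 + o 2 - 2 * α ≤ 0 := by
    by_contra hc
    push Not at hc
    nlinarith
  linarith

theorem t_SYF : S_SYF := by
  intro hK P hP
  obtain ⟨L, hL⟩ := hP.fr
  -- two different points of `P`
  obtain ⟨z0, hz0⟩ := hP.conn.nonempty
  have hne : P.Nonempty := ⟨z0, interior_subset hz0⟩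
  obtain ⟨ε, hε, hball⟩ := Metric.isOpen_iff.1 isOpen_interior z0 hz0
  have hz1 : z0 + (ε / 2 : ℝ) ∈ P := by
    apply interior_subset
    apply hball
    rw [Metric.mem_ball, dist_eq_norm]
    simp only [add_sub_cancel_left, Complex.norm_real, Real.norm_eq_abs]
    rw [abs_of_pos (by linarith)]
    linarith
  -- a farthest pair
  obtain ⟨xy, hxy, hmax⟩ := (hP.cpt.prod hP.cpt).exists_isMaxOn (hne.prod hne)
    (continuous_dist.continuousOn)
  obtain ⟨hx, hy⟩ := hxy
  set D : ℝ := dist xy.1 xy.2 with hDdef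
  have hD : ∀ x ∈ P, ∀ y ∈ P, dist x y ≤ D := fun x hx y hy =>
    hmax (show (x, y) ∈ P ×ˢ P from ⟨hx, hy⟩)
  have hDpos : 0 < D := by
    have h1 := hD _ hz1 _ (interior_subset hz0)
    rw [dist_eq_norm] at h1
    simp only [add_sub_cancel_left, Complex.norm_real, Real.norm_eq_abs] at h1
    rw [abs_of_pos (by linarith)] at h1
    linarith
  have hxyne : xy.1 ≠ xy.2 := dist_pos.1 hDpos
  -- the set `F` is finite
  have hFfr : SYF_F P D ⊆ frontier P := by
    rintro x ⟨hxP, y, hyP, hxyD⟩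
    refine ⟨subset_closure hxP, ?_⟩
    intro hint
    obtain ⟨δ, hδ, hb⟩ := Metric.isOpen_iff.1 isOpen_interior x hint
    set η : ℝ := δ / (2 * D) with hη
    have hη0 : 0 < η := by positivity
    have hmem : x + (η : ℂ) * (x - y) ∈ P := by
      apply interior_subset
      apply hb
      rw [Metric.mem_ball, dist_eq_norm]
      simp only [add_sub_cancel_left, norm_mul, Complex.norm_real, Real.norm_eq_abs]
      rw [abs_of_pos hη0, ← dist_eq_norm, hxyD, hη]
      have : δ / (2 * D) * D = δ / 2 := by field_simp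
      rw [this]; linarith
    have h1 := hD _ hmem y hyP
    rw [dist_eq_norm] at h1
    have h2 : x + (η : ℂ) * (x - y) - y = ((1 + η : ℝ) : ℂ) * (x - y) := by
      push_cast; ring
    rw [h2, norm_mul, Complex.norm_real, Real.norm_eq_abs, abs_of_pos (by linarith),
      ← dist_eq_norm, hxyD] at h1
    nlinarith
  have hF : (SYF_F P D).Finite := by
    have : SYF_F P D ⊆ ⋃ q ∈ L, (ln q ∩ SYF_F P D) := by
      intro x hx
      have := hL (hFfr hx)
      simp only [NL, mem_iUnion] at this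
      obtain ⟨q, hq, hxq⟩ := this
      simp only [mem_iUnion]
      exact ⟨q, hq, hxq, hx⟩
    refine Finite.subset (Finite.biUnion L.finite_toSet (fun q _ => SYF_line P D hD q)) this
  have hsub : {w : ℂ ≃ᵢ ℂ | (fun z => w z) '' P = P} ⊆
      ⋃ ab ∈ (SYF_F P D) ×ˢ (SYF_F P D), {w : ℂ ≃ᵢ ℂ | w xy.1 = ab.1 ∧ w xy.2 = ab.2} := by
    intro w hw
    have hw' : (fun z => w z) '' P = P := hw
    have m1 : w xy.1 ∈ P := by
      rw [← hw']; exact mem_image_of_mem _ hx
    have m2 : w xy.2 ∈ P := by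
      rw [← hw']; exact mem_image_of_mem _ hy
    simp only [mem_iUnion]
    refine ⟨(w xy.1, w xy.2), ⟨⟨m1, w xy.2, m2, ?_⟩, ⟨m2, w xy.1, m1, ?_⟩⟩, rfl, rfl⟩
    · rw [w.isometry.dist_eq]
    · rw [w.isometry.dist_eq, dist_comm]
  refine Finite.subset (Finite.biUnion (hF.prod hF) (fun ab _ => ?_)) hsub
  exact SYF_fib hK _ _ _ _ hxyne

end T2h42.AP
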