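import Pool.Agent.T2h42.AP.ADD

/-!
# Task TRD: the six jump functions of the triangle
-/

set_option autoImplicit false

open Set Filter Topology Complex

namespace T2h42.AP

namespace TRD

open ADD

/-- lexicographic positivity -/
def Pos1 (b c : ℝ) : Prop := 0 < b ∨ (b = 0 ∧ 0 < c)

/-- lexicographic positivity -/
def Pos (a b c : ℝ) : Prop := 0 < a ∨ (a = 0 ∧ Pos1 b c)

theorem ev_gt : ∀ᶠ t : ℝ in (U : Filter ℝ), 0 < t := U_le self_mem_nhdsWithin

theorem ev_small (a c : ℝ) (ha : 0 < a) : ∀ᶠ t : ℝ in (U : Filter ℝ), 0 < a + t * c := by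
  refine U_le (nhdsWithin_le_nhds ?_)
  have h1 : Tendsto (fun t : ℝ => a + t * c) (𝓝 0) (𝓝 (a + 0 * c)) :=
    Continuous.tendsto (by fun_prop) 0
  rw [zero_mul, add_zero] at h1
  exact h1.eventually (lt_mem_nhds ha)

theorem ev_pos1 (b c : ℝ) : ∀ᶠ δ : ℝ in (U : Filter ℝ), (0 < b + δ * c ↔ Pos1 b c) := by
  rcases lt_trichotomy b 0 with h | h | h
  · filter_upwards [ev_small (-b) (-c) (by linarith)] with δ hδ
    constructor
    · intro h1; linarith
    · rintro (h1 | h1)
      · linarith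
      · linarith [h1.1]
  · filter_upwards [ev_gt] with δ hδ
    rw [h, zero_add, mul_pos_iff_of_pos_left hδ]
    simp [Pos1]
  · filter_upwards [ev_small b c h] with δ hδ
    simp [Pos1, h, hδ]

theorem ev_pos (a b c : ℝ) : ∀ᶠ δ : ℝ in (U : Filter ℝ), ∀ᶠ ε : ℝ in (U : Filter ℝ),
    (0 < a + ε * (b + δ * c) ↔ Pos a b c) := by
  rcases lt_trichotomy a 0 with h | h | h
  · refine Eventually.of_forall fun δ => ?_
    filter_upwards [ev_small (-a) (-(b + δ * c)) (by linarith)] with ε hε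
    constructor
    · intro h1; linarith
    · rintro (h1 | h1)
      · linarith
      · linarith [h1.1]
  · filter_upwards [ev_pos1 b c] with δ hδ
    filter_upwards [ev_gt] with ε hε
    rw [h, zero_add, mul_pos_iff_of_pos_left hε, hδ]
    simp [Pos]
  · refine Eventually.of_forall fun δ => ?_
    filter_upwards [ev_small a (b + δ * c) h] with ε hε
    simp [Pos, h, hε]

theorem ev_const {A : ℝ → ℝ → Prop} {c : Prop}
    (h : ∀ᶠ δ : ℝ in (U : Filter ℝ), ∀ᶠ ε : ℝ in (U : Filter ℝ), (A δ ε ↔ c)) :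
    (∀ᶠ δ : ℝ in (U : Filter ℝ), ∀ᶠ ε : ℝ in (U : Filter ℝ), A δ ε) ↔ c := by
  constructor
  · intro h1
    obtain ⟨δ, h2, h3⟩ := (h.and h1).exists
    obtain ⟨ε, h4, h5⟩ := (h2.and h3).exists
    exact h4.1 h5
  · intro hc
    filter_upwards [h] with δ hδ
    filter_upwards [hδ] with ε hε
    exact hε.2 hc

theorem evP_tri (p q : ℝ) (x d : ℂ) (σ : ℝ) : EvP (Tri p q) x d σ ↔
    Pos x.re d.re (-(σ * d.im)) ∧ Pos x.im d.im (σ * d.re) ∧
      Pos (1 - x.re / p - x.im / q) (-(d.re / p) - d.im / q) (σ * (d.im / p - d.re / q)) := by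
  unfold EvP
  refine ev_const ?_
  filter_upwards [ev_pos x.re d.re (-(σ * d.im)), ev_pos x.im d.im (σ * d.re),
    ev_pos (1 - x.re / p - x.im / q) (-(d.re / p) - d.im / q) (σ * (d.im / p - d.re / q))]
    with δ h1 h2 h3
  filter_upwards [h1, h2, h3] with ε h4 h5 h6
  have hre : (pt x d σ δ ε).re = x.re + ε * (d.re + δ * (-(σ * d.im))) := by
    simp [pt, Complex.mul_im, Complex.mul_re]
    ring
  have him : (pt x d σ δ ε).im = x.im + ε * (d.im + δ * (σ * d.re)) := by
    simp [pt, Complex.mul_im, Complex.mul_re]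
    ring
  have hla : (pt x d σ δ ε).re / p + (pt x d σ δ ε).im / q < 1 ↔
      0 < (1 - x.re / p - x.im / q) +
        ε * ((-(d.re / p) - d.im / q) + δ * (σ * (d.im / p - d.re / q))) := by
    rw [hre, him, ← sub_pos]
    have : 1 - ((x.re + ε * (d.re + δ * (-(σ * d.im)))) / p +
        (x.im + ε * (d.im + δ * (σ * d.re))) / q) = (1 - x.re / p - x.im / q) +
        ε * ((-(d.re / p) - d.im / q) + δ * (σ * (d.im / p - d.re / q))) := by
      ring
    rw [this]
  show (0 < (pt x d σ δ ε).re ∧ 0 < (pt x d σ δ ε).im ∧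
    (pt x d σ δ ε).re / p + (pt x d σ δ ε).im / q < 1) ↔ _
  rw [hla, hre, him, h4, h5, h6]

theorem jmp_left {G : Set ℂ} {x d : ℂ} {a b τ : ℝ} (hL : EvP G x d 1 ↔ (a ≤ τ ∧ τ < b))
    (hR : ¬ EvP G x d (-1)) : jmp G x d = (Ico a b).indicator (fun _ => (1 : ℝ)) τ := by
  rw [jmp_eq]
  have h2 : val G x d (-1) = 0 := if_neg hR
  rw [h2, sub_zero]
  by_cases h : a ≤ τ ∧ τ < b
  · have h1 : val G x d 1 = 1 := if_pos (hL.2 h)
    have h3 : τ ∈ Ico a b := h
    rw [h1, Set.indicator_of_mem h3]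
  · have h1 : val G x d 1 = 0 := if_neg fun h' => h (hL.1 h')
    have h3 : τ ∉ Ico a b := h
    rw [h1, Set.indicator_of_notMem h3]

theorem jmp_right {G : Set ℂ} {x d : ℂ} {a b τ : ℝ} (hR : EvP G x d (-1) ↔ (a ≤ τ ∧ τ < b))
    (hL : ¬ EvP G x d 1) : jmp G x d = - (Ico a b).indicator (fun _ => (1 : ℝ)) τ := by
  rw [jmp_eq]
  have h2 : val G x d 1 = 0 := if_neg hL
  rw [h2, zero_sub]
  congr 1
  by_cases h : a ≤ τ ∧ τ < b
  · have h1 : val G x d (-1) = 1 := if_pos (hR.2 h)
    have h3 : τ ∈ Ico a b := h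
    rw [h1, Set.indicator_of_mem h3]
  · have h1 : val G x d (-1) = 0 := if_neg fun h' => h (hR.1 h')
    have h3 : τ ∉ Ico a b := h
    rw [h1, Set.indicator_of_notMem h3]

theorem pos_of_b_neg {a b c : ℝ} (hb : b < 0) : Pos a b c ↔ 0 < a := by
  constructor
  · rintro (h | ⟨_, h | ⟨h, _⟩⟩)
    · exact h
    · linarith
    · linarith
  · exact Or.inl

theorem pos_of_b_pos {a b c : ℝ} (hb : 0 < b) : Pos a b c ↔ 0 ≤ a := by
  constructor
  · rintro (h | ⟨h, _⟩)
    · exact h.le
    · exact h.ge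
  · intro h
    rcases h.lt_or_eq with h | h
    · exact Or.inl h
    · exact Or.inr ⟨h.symm, Or.inl hb⟩

theorem pos_zero_zero {a b c : ℝ} (ha : a = 0) (hb : b = 0) : Pos a b c ↔ 0 < c := by
  subst ha hb
  simp [Pos, Pos1]

end TRD

open TRD ADD in
theorem t_TRD : S_TRD := by
  intro p q hp hq r w hr hw
  have hsq : r ^ 2 = p ^ 2 + q ^ 2 := by rw [hr]; exact Real.sq_sqrt (by positivity)
  have hr0 : 0 < r := by rw [hr]; exact Real.sqrt_pos.2 (by positivity)
  have hwre : w.re = -(p / r) := by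
    rw [hw, Complex.div_ofReal_re]
    simp
    ring
  have hwim : w.im = q / r := by
    rw [hw, Complex.div_ofReal_im]
    simp
  refine ⟨?_, ?_, ?_, ?_, ?_, ?_⟩
  · funext τ
    have hre : (((τ : ℂ) + ((0 : ℝ) : ℂ) * I) * 1).re = τ := by simp
    have him : (((τ : ℂ) + ((0 : ℝ) : ℂ) * I) * 1).im = 0 := by simp
    refine jmp_left (τ := τ) ?_ ?_
    · rw [evP_tri, hre, him, pos_of_b_pos (by simp), pos_zero_zero rfl (by simp),
        pos_of_b_neg (by simp [hp])]
      simp [div_lt_one hp]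
    · rw [evP_tri, him, pos_zero_zero (b := (1 : ℂ).im) rfl (by simp)]
      simp
  · funext τ
    have hre : (((τ : ℂ) + ((0 : ℝ) : ℂ) * I) * (-1)).re = -τ := by simp
    have him : (((τ : ℂ) + ((0 : ℝ) : ℂ) * I) * (-1)).im = 0 := by simp
    show _ = -((Ico (-p) 0).indicator (fun _ => (1 : ℝ)) τ)
    refine jmp_right (τ := τ) ?_ ?_
    · rw [evP_tri, hre, him, pos_of_b_neg (by simp), pos_zero_zero rfl (by simp),
        pos_of_b_pos (by simp [neg_div, hp])]
      simp only [zero_div, sub_zero, sub_nonneg, Left.neg_pos_iff]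
      rw [div_le_one hp]
      simp
      constructor
      · rintro ⟨h1, h2⟩; exact ⟨by linarith, h1⟩
      · rintro ⟨h1, h2⟩; exact ⟨h2, by linarith⟩
    · rw [evP_tri, him, pos_zero_zero (b := (-1 : ℂ).im) rfl (by simp)]
      simp
  · funext τ
    have hre : (((τ : ℂ) + ((0 : ℝ) : ℂ) * I) * (-I)).re = 0 := by simp
    have him : (((τ : ℂ) + ((0 : ℝ) : ℂ) * I) * (-I)).im = -τ := by simp
    refine jmp_left (τ := τ) ?_ ?_
    · rw [evP_tri, hre, him, pos_zero_zero rfl (by simp), pos_of_b_neg (by simp),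
        pos_of_b_pos (by simp [neg_div, hq])]
      simp only [zero_div, sub_zero, sub_nonneg, Left.neg_pos_iff]
      rw [div_le_one hq]
      simp
      constructor
      · rintro ⟨h1, h2⟩; exact ⟨by linarith, h1⟩
      · rintro ⟨h1, h2⟩; exact ⟨h2, by linarith⟩
    · rw [evP_tri, hre, pos_zero_zero (b := (-I : ℂ).re) rfl (by simp)]
      simp
  · funext τ
    have hre : (((τ : ℂ) + ((0 : ℝ) : ℂ) * I) * I).re = 0 := by simp
    have him : (((τ : ℂ) + ((0 : ℝ) : ℂ) * I) * I).im = τ := by simp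
    show _ = -((Ico 0 q).indicator (fun _ => (1 : ℝ)) τ)
    refine jmp_right (τ := τ) ?_ ?_
    · rw [evP_tri, hre, him, pos_zero_zero rfl (by simp), pos_of_b_pos (by simp),
        pos_of_b_neg (by simp [hq])]
      simp [div_lt_one hq]
    · rw [evP_tri, hre, pos_zero_zero (b := (I : ℂ).re) rfl (by simp)]
      simp
  · funext τ
    have hre : (((τ : ℂ) + ((-(p * q / r) : ℝ) : ℂ) * I) * w).re = p / r * (q ^ 2 / r - τ) := by
      simp [hwre, hwim, Complex.mul_re]
      ring
    have him : (((τ : ℂ) + ((-(p * q / r) : ℝ) : ℂ) * I) * w).im = q / r * (τ + p ^ 2 / r) := by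
      simp [hwre, hwim, Complex.mul_im]
      ring
    have hla : 1 - (p / r * (q ^ 2 / r - τ)) / p - (q / r * (τ + p ^ 2 / r)) / q = 0 := by
      field_simp
      linarith
    have hb : -(w.re / p) - w.im / q = 0 := by
      rw [hwre, hwim]
      field_simp
      ring
    have hc : w.im / p - w.re / q = q / r / p + p / r / q := by
      rw [hwre, hwim]
      ring
    have hc0 : 0 < q / r / p + p / r / q := by positivity
    have hpr : 0 < p / r := by positivity
    have hqr : 0 < q / r := by positivity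
    refine jmp_left (τ := τ) ?_ ?_
    · rw [evP_tri, hre, him, hla, pos_of_b_neg (by rw [hwre]; linarith),
        pos_of_b_pos (by rw [hwim]; exact hqr), pos_zero_zero rfl hb, hc, one_mul]
      rw [mul_pos_iff_of_pos_left hpr, mul_nonneg_iff_of_pos_left hqr]
      constructor
      · rintro ⟨h1, h2, _⟩; exact ⟨by linarith, by linarith⟩
      · rintro ⟨h1, h2⟩; exact ⟨by linarith, by linarith, hc0⟩
    · rw [evP_tri, hre, him, hla, pos_zero_zero (a := 0) (b := -(w.re / p) - w.im / q) rfl hb, hc]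
      rintro ⟨_, _, h⟩
      linarith
  · funext τ
    have hre : (((τ : ℂ) + ((p * q / r : ℝ) : ℂ) * I) * (-w)).re = p / r * (τ + q ^ 2 / r) := by
      simp [hwre, hwim, Complex.mul_re]
      ring
    have him : (((τ : ℂ) + ((p * q / r : ℝ) : ℂ) * I) * (-w)).im = q / r * (p ^ 2 / r - τ) := by
      simp [hwre, hwim, Complex.mul_im]
      ring
    have hla : 1 - (p / r * (τ + q ^ 2 / r)) / p - (q / r * (p ^ 2 / r - τ)) / q = 0 := by
      field_simp
      linarith
    have hb : -((-w).re / p) - (-w).im / q = 0 := by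
      rw [Complex.neg_re, Complex.neg_im, hwre, hwim]
      field_simp
      ring
    have hc : (-w).im / p - (-w).re / q = -(q / r / p + p / r / q) := by
      rw [Complex.neg_re, Complex.neg_im, hwre, hwim]
      ring
    have hc0 : 0 < q / r / p + p / r / q := by positivity
    have hpr : 0 < p / r := by positivity
    have hqr : 0 < q / r := by positivity
    show _ = -((Ico (-(q ^ 2 / r)) (p ^ 2 / r)).indicator (fun _ => (1 : ℝ)) τ)
    refine jmp_right (τ := τ) ?_ ?_
    · rw [evP_tri, hre, him, hla, pos_of_b_pos (by rw [Complex.neg_re, hwre]; linarith),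
        pos_of_b_neg (by rw [Complex.neg_im, hwim]; linarith), pos_zero_zero rfl hb, hc]
      rw [mul_pos_iff_of_pos_left hqr, mul_nonneg_iff_of_pos_left hpr]
      constructor
      · rintro ⟨h1, h2, _⟩; exact ⟨by linarith, by linarith⟩
      · rintro ⟨h1, h2⟩; exact ⟨by linarith, by linarith, by linarith⟩
    · rw [evP_tri, hre, him, hla,
        pos_zero_zero (a := 0) (b := -((-w).re / p) - (-w).im / q) rfl hb, hc]
      rintro ⟨_, _, h⟩
      linarith

end T2h42.AP
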