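import Pool.Agent.T2h42.AP.Stm

set_option autoImplicit false

open Set Filter Topology Complex

namespace T2h42.AP

theorem TRG_open (p q : ℝ) : IsOpen (Tri p q) := by
  have h1 : IsOpen {z : ℂ | 0 < z.re} := isOpen_lt continuous_const Complex.continuous_re
  have h2 : IsOpen {z : ℂ | 0 < z.im} := isOpen_lt continuous_const Complex.continuous_im
  have h3 : IsOpen {z : ℂ | z.re / p + z.im / q < 1} :=
    isOpen_lt ((Complex.continuous_re.div_const p).add (Complex.continuous_im.div_const q))
      continuous_const
  have := h1.inter (h2.inter h3)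
  exact this

theorem TRG_closure (p q : ℝ) :
    closure (Tri p q) ⊆ {z : ℂ | 0 ≤ z.re ∧ 0 ≤ z.im ∧ z.re / p + z.im / q ≤ 1} := by
  apply closure_minimal
  · rintro z ⟨h1, h2, h3⟩
    exact ⟨h1.le, h2.le, h3.le⟩
  · have h1 : IsClosed {z : ℂ | 0 ≤ z.re} := isClosed_le continuous_const Complex.continuous_re
    have h2 : IsClosed {z : ℂ | 0 ≤ z.im} := isClosed_le continuous_const Complex.continuous_im
    have h3 : IsClosed {z : ℂ | z.re / p + z.im / q ≤ 1} :=
      isClosed_le ((Complex.continuous_re.div_const p).add (Complex.continuous_im.div_const q))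
        continuous_const
    exact h1.inter (h2.inter h3)

theorem t_TRG : S_TRG := by
  intro p q hp hq w hw e he
  constructor
  · rw [isBounded_iff_forall_norm_le]
    refine ⟨p + q, ?_⟩
    rintro z ⟨h1, h2, h3⟩
    have h4 : z.re < p := by
      have : z.re / p < 1 := by
        have : 0 < z.im / q := div_pos h2 hq
        linarith
      rwa [div_lt_one hp] at this
    have h5 : z.im < q := by
      have : z.im / q < 1 := by
        have : 0 < z.re / p := div_pos h1 hp
        linarith
      rwa [div_lt_one hq] at this
    calc ‖z‖ ≤ |z.re| + |z.im| := Complex.norm_le_abs_re_add_abs_im z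
      _ ≤ p + q := by
        rw [abs_of_pos h1, abs_of_pos h2]
        linarith
  · intro z hz
    have hz1 := TRG_closure p q hz.1
    have hz2 : z ∉ Tri p q := by
      have := hz.2
      rwa [(TRG_open p q).interior_eq] at this
    obtain ⟨h1, h2, h3⟩ := hz1
    by_cases c1 : z.im = 0
    · left; left
      show (z * cj ((1 : Circle) : ℂ)).im = 0
      simp [c1]
    by_cases c2 : z.re = 0
    · left; right
      show (z * cj (e : ℂ)).im = 0
      rw [he]
      simp [c2]
    · right
      have c3 : z.re / p + z.im / q = 1 := by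
        by_contra hne
        exact hz2 ⟨lt_of_le_of_ne h1 (Ne.symm c2), lt_of_le_of_ne h2 (Ne.symm c1),
          lt_of_le_of_ne h3 hne⟩
      have hr : 0 < Real.sqrt (p ^ 2 + q ^ 2) := Real.sqrt_pos.2 (by positivity)
      show (z * cj (w : ℂ)).im = -(p * q / Real.sqrt (p ^ 2 + q ^ 2))
      rw [hw]
      have e1 : (z * cj ((-p + q * I) / ((Real.sqrt (p ^ 2 + q ^ 2) : ℝ) : ℂ))).im
          = (-(z.im * p) - z.re * q) / Real.sqrt (p ^ 2 + q ^ 2) := by
        have : cj ((-p + q * I) / ((Real.sqrt (p ^ 2 + q ^ 2) : ℝ) : ℂ))
            = (-p - q * I) / ((Real.sqrt (p ^ 2 + q ^ 2) : ℝ) : ℂ) := by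
          simp [cj]
          ring
        rw [this, ← mul_div_assoc, Complex.div_ofReal_im]
        congr 1
        simp
        ring
      rw [e1]
      have e2 : z.im * p + z.re * q = p * q := by
        field_simp at c3
        linarith
      rw [show -(z.im * p) - z.re * q = -(p * q) by linarith]
      ring

end T2h42.AP
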