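import Pool.Agent.T2h42.AP.Stm

set_option autoImplicit false

open Set Filter Topology Complex

namespace T2h42.AP

theorem TRN_mul_half (T : Set (Set ℂ)) (ψ g : ℂ ≃ᵢ ℂ) (h : ∀ A ∈ T, (fun z => g z) '' A ∈ T) :
    ∀ A ∈ (fun A : Set ℂ => (fun z => ψ z) '' A) '' T,
      (fun z => (ψ * g * ψ⁻¹) z) '' A ∈ (fun A : Set ℂ => (fun z => ψ z) '' A) '' T := by
  rintro _ ⟨A, hA, rfl⟩
  refine ⟨(fun z => g z) '' A, h A hA, ?_⟩
  simp only [image_image]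
  apply image_congr
  intro z _
  simp

theorem TRN_sym (T : Set (Set ℂ)) (ψ g : ℂ ≃ᵢ ℂ) (h : g ∈ H74R2.WT.Sym T) :
    ψ * g * ψ⁻¹ ∈ H74R2.WT.Sym ((fun A : Set ℂ => (fun z => ψ z) '' A) '' T) := by
  have h1 : ∀ A ∈ T, (fun z => g z) '' A ∈ T := h.1
  have h2 : ∀ A ∈ T, (fun z => g⁻¹ z) '' A ∈ T := h.2
  refine ⟨TRN_mul_half T ψ g h1, ?_⟩
  have h3 := TRN_mul_half T ψ g⁻¹ h2
  have e : (ψ * g * ψ⁻¹)⁻¹ = ψ * g⁻¹ * ψ⁻¹ := by group
  rw [e]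
  exact h3

theorem t_TRN : S_TRN := by
  intro P T ψ p q hT hR
  refine ⟨(fun A : Set ℂ => (fun z => ψ z) '' A) '' T, ⟨?_, ?_, ?_⟩, ?_⟩
  · rintro _ ⟨A, hA, rfl⟩
    obtain ⟨g, rfl⟩ := hT.tile A hA
    refine ⟨ψ * g, ?_⟩
    simp only [image_image]
    rfl
  · rw [eq_univ_iff_forall]
    intro z
    have hz : ψ.symm z ∈ ⋃₀ T := by rw [hT.cover]; trivial
    obtain ⟨A, hA, hzA⟩ := hz
    refine ⟨_, ⟨A, hA, rfl⟩, ψ.symm z, hzA, ?_⟩
    simp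
  · rintro _ ⟨A, hA, rfl⟩ _ ⟨B, hB, rfl⟩ hne
    have hAB : A ≠ B := by
      rintro rfl
      exact hne rfl
    have hd := hT.disj hA hB hAB
    have e1 : interior ((fun z => ψ z) '' A) = (fun z => ψ z) '' interior A :=
      (ψ.toHomeomorph.image_interior A).symm
    have e2 : interior ((fun z => ψ z) '' B) = (fun z => ψ z) '' interior B :=
      (ψ.toHomeomorph.image_interior B).symm
    show Disjoint (interior ((fun z => ψ z) '' A)) (interior ((fun z => ψ z) '' B))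
    rw [e1, e2]
    exact (disjoint_image_iff ψ.injective).2 hd
  · obtain ⟨⟨a, ha, ha'⟩, ⟨c, hc, hc'⟩, ⟨b, hb, hb'⟩⟩ := hR
    refine ⟨⟨_, TRN_sym T ψ a ha, ?_⟩, ⟨_, TRN_sym T ψ c hc, ?_⟩, ⟨_, TRN_sym T ψ b hb, ?_⟩⟩
    · intro z
      have := ha' (ψ⁻¹ z)
      simpa using this
    · intro z
      have := hc' (ψ⁻¹ z)
      simpa using this
    · intro z
      have := hb' (ψ⁻¹ z)
      simpa using this

end T2h42.AP
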