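import Pool.Agent.T2h42.AP.Stm

set_option autoImplicit false

open Set Filter Topology Complex

namespace T2h42.AP

theorem TRV_circ (z : ℂ) (hz : ‖z‖ = 1) : ∃ c : Circle, (c : ℂ) = z :=
  ⟨⟨z, by simpa [Submonoid.unitSphere] using hz⟩, rfl⟩

theorem t_TRV : S_TRV := by
  classical
  intro hLINE hTRG hTRD Φ hΦ g p q r hp hq hr
  have hr0 : 0 < r := by rw [hr]; exact Real.sqrt_pos.2 (by positivity)
  have hr2 : r * r = p ^ 2 + q ^ 2 := by
    rw [hr]; exact Real.mul_self_sqrt (by positivity)
  have hrC : (r : ℂ) ≠ 0 := by exact_mod_cast hr0.ne'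
  set w0 : ℂ := (-p + q * I) / (r : ℂ) with hw0
  have hw0n : ‖w0‖ = 1 := by
    have h1 : ‖(-p + q * I : ℂ)‖ = r := by
      have : (-p + q * I : ℂ) = ((-p : ℝ) : ℂ) + (q : ℝ) * I := by push_cast; ring
      rw [this, Complex.norm_add_mul_I, hr]
      congr 1
      ring
    rw [hw0, norm_div, h1, Complex.norm_real, Real.norm_eq_abs, abs_of_pos hr0,
      div_self hr0.ne']
  obtain ⟨w, hw⟩ := TRV_circ w0 hw0n
  obtain ⟨w', hw'⟩ := TRV_circ (-w0) (by rw [norm_neg]; exact hw0n)
  obtain ⟨e, he⟩ := TRV_circ (-I) (by simp)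
  obtain ⟨e', he'⟩ := TRV_circ I (by simp)
  obtain ⟨f, hf⟩ := TRV_circ (-1) (by simp)
  set h : ℝ := p * q / r with hh
  have hh0 : 0 < h := by positivity
  obtain ⟨hB, hF⟩ := hTRG p q hp hq w (by rw [hw, hw0, hr]) e he
  rw [← hr, ← hh] at hF
  have hL : frontier (Tri p q) ⊆ NL {((1 : Circle), (0 : ℝ)), (e, 0), (w, -h)} := by
    intro z hz
    have := hF hz
    simp only [NL, mem_iUnion]
    rcases this with (h1 | h1) | h1
    · exact ⟨_, by simp, h1⟩
    · exact ⟨(e, 0), by simp, h1⟩
    · exact ⟨(w, -h), by simp, h1⟩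
  have hGood : Good (Tri p q) := ⟨hB, _, hL⟩
  obtain ⟨d1, d2, d3, d4, d5, d6⟩ := hTRD p q hp hq r w0 hr hw0
  set S : Finset (Circle × ℝ) :=
    {((1 : Circle), (0 : ℝ)), (f, 0), (e, 0), (e', 0), (w, -h), (w', h)} with hS
  have hsupp : ∀ x : Circle × ℝ, x ∉ S → Dn (Tri p q) (x.1 : ℂ) x.2 = 0 := by
    intro x hx
    apply hLINE (Tri p q) _ hL x
    intro y hy
    have hyS : y ∈ S := by
      simp only [Finset.mem_insert, Finset.mem_singleton] at hy
      rcases hy with rfl | rfl | rfl <;> simp [hS]
    refine ⟨fun hxy => hx (hxy ▸ hyS), ?_⟩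
    rintro ⟨k1, k2⟩
    apply hx
    have k1' : (x.1 : ℂ) = -(y.1 : ℂ) := by rw [k1]; ring
    have k2' : x.2 = - y.2 := by rw [k2]; ring
    simp only [Finset.mem_insert, Finset.mem_singleton] at hy
    rcases hy with rfl | rfl | rfl
    · have : x = (f, 0) := by
        apply Prod.ext
        · apply Circle.ext
          rw [k1', hf]; simp
        · rw [k2']; simp
      rw [this]; simp [hS]
    · have : x = (e', 0) := by
        apply Prod.ext
        · apply Circle.ext
          rw [k1', he', he]; simp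
        · rw [k2']; simp
      rw [this]; simp [hS]
    · have : x = (w', h) := by
        apply Prod.ext
        · apply Circle.ext
          rw [k1', hw', hw]
        · rw [k2']; simp
      rw [this]; simp [hS]
  -- distinctness
  have n1f : (1 : Circle) ≠ f := by
    intro hc
    have := congrArg (fun c : Circle => (c : ℂ).re) hc
    simp only [hf] at this
    norm_num at this
  have n1e : (1 : Circle) ≠ e := by
    intro hc
    have := congrArg (fun c : Circle => (c : ℂ).re) hc
    simp only [he] at this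
    norm_num at this
  have n1e' : (1 : Circle) ≠ e' := by
    intro hc
    have := congrArg (fun c : Circle => (c : ℂ).re) hc
    simp only [he'] at this
    norm_num at this
  have nfe : f ≠ e := by
    intro hc
    have := congrArg (fun c : Circle => (c : ℂ).re) hc
    simp only [hf, he] at this
    norm_num at this
  have nfe' : f ≠ e' := by
    intro hc
    have := congrArg (fun c : Circle => (c : ℂ).re) hc
    simp only [hf, he'] at this
    norm_num at this
  have nee' : e ≠ e' := by
    intro hc
    have := congrArg (fun c : Circle => (c : ℂ).im) hc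
    simp only [he, he'] at this
    norm_num at this
  have hne1 : (0 : ℝ) ≠ -h := by linarith
  have hne2 : (0 : ℝ) ≠ h := by linarith
  have hne3 : (-h : ℝ) ≠ h := by linarith
  have hg0 : g 0 = 0 := map_zero g
  have hgr : g (q ^ 2 / r) + g (p ^ 2 / r) = g r := by
    rw [← map_add]
    congr 1
    field_simp
    linarith
  have I1 : Φ g (Dn (Tri p q) ((1 : Circle) : ℂ) 0) = g p := by
    rw [Circle.coe_one, d1, hΦ g 0 p hp.le, hg0, sub_zero]
  have I2 : Φ g (Dn (Tri p q) (f : ℂ) 0) = - g p := by
    rw [hf, d2, map_neg, hΦ g (-p) 0 (by linarith), hg0, map_neg]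
    ring
  have I3 : Φ g (Dn (Tri p q) (e : ℂ) 0) = g q := by
    rw [he, d3, hΦ g (-q) 0 (by linarith), hg0, map_neg]
    ring
  have I4 : Φ g (Dn (Tri p q) (e' : ℂ) 0) = - g q := by
    rw [he', d4, map_neg, hΦ g 0 q hq.le, hg0]
    ring
  have I5 : Φ g (Dn (Tri p q) (w : ℂ) (-h)) = g r := by
    have hle : -(p ^ 2 / r) ≤ q ^ 2 / r := by
      have h1 : 0 ≤ p ^ 2 / r := by positivity
      have h2 : 0 ≤ q ^ 2 / r := by positivity
      linarith
    rw [hw, d5, hΦ g _ _ hle, map_neg, sub_neg_eq_add, hgr]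
  have I6 : Φ g (Dn (Tri p q) (w' : ℂ) h) = - g r := by
    have hle : -(q ^ 2 / r) ≤ p ^ 2 / r := by
      have h1 : 0 ≤ p ^ 2 / r := by positivity
      have h2 : 0 ≤ q ^ 2 / r := by positivity
      linarith
    rw [hw', d6, map_neg, hΦ g _ _ hle, map_neg, sub_neg_eq_add, add_comm, hgr]
  refine ⟨hGood, ?_, ?_⟩
  · rw [VV, finsum_eq_sum_of_support_subset (s := S)]
    · rw [hS, Finset.sum_insert, Finset.sum_insert, Finset.sum_insert, Finset.sum_insert,
        Finset.sum_insert, Finset.sum_singleton]
      · simp only [I1, I2, I3, I4, I5, I6]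
        rw [hf, he, he', hw, hw', Circle.coe_one]
        push_cast
        ring
      · simp [hne3]
      · simp [hne1, hne2]
      · simp [nee', hne1, hne2]
      · simp [nfe, nfe', hne1, hne2]
      · simp [n1f, n1e, n1e', hne1, hne2]
    · intro x hx
      by_contra hxS
      apply hx
      simp only [hsupp x hxS, map_zero, Complex.ofReal_zero, zero_mul]
  · rw [MM, finsum_eq_sum_of_support_subset (s := S)]
    · rw [hS, Finset.sum_insert, Finset.sum_insert, Finset.sum_insert, Finset.sum_insert,
        Finset.sum_insert, Finset.sum_singleton]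
      · simp only [I1, I2, I3, I4, I5, I6]
        ring
      · simp [hne3]
      · simp [hne1, hne2]
      · simp [nee', hne1, hne2]
      · simp [nfe, nfe', hne1, hne2]
      · simp [n1f, n1e, n1e', hne1, hne2]
    · intro x hx
      by_contra hxS
      apply hx
      simp only [hsupp x hxS, map_zero, mul_zero, neg_zero]

end T2h42.AP
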