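import Pool.Agent.T2h42.AP.Stm

set_option autoImplicit false

open Set Filter Topology Complex

namespace T2h42.AP

noncomputable section

theorem t_VMA : S_VMA := by
  intro hSTP hSTEP hLINE hFINS hISO hADD hVMI hK0 Φ hΦ g Q T N hQ hT hTile hV
  obtain ⟨φ, L, hL⟩ := hTile
  have hj := hADD N T (fun i => (fun w => φ i w) '' Q) L hL
  have hDn : ∀ q : Circle × ℝ, Dn T (q.1 : ℂ) q.2 =
      ∑ i, Dn ((fun w => φ i w) '' Q) (q.1 : ℂ) q.2 := by
    intro q
    funext τ
    rw [Finset.sum_apply]
    exact hj _ _ (Circle.coe_ne_zero q.1)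
  have hI := fun i => hVMI hSTP hSTEP hLINE hFINS hISO hK0 Φ hΦ g Q (φ i) hQ
  have hfin : ∀ i, {q : Circle × ℝ | Dn ((fun w => φ i w) '' Q) (q.1 : ℂ) q.2 ≠ 0}.Finite :=
    fun i => hFINS hLINE _ (hI i).1
  constructor
  · have e : VV Φ g T = ∑ i, VV Φ g ((fun w => φ i w) '' Q) := by
      unfold VV
      rw [← finsum_sum_comm]
      · refine finsum_congr fun q => ?_
        rw [hDn, map_sum, Complex.ofReal_sum, Finset.sum_mul]
      · intro i _
        refine (hfin i).subset ?_
        intro q hq h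
        apply hq
        show ((Φ g (Dn ((fun w => φ i w) '' Q) (q.1 : ℂ) q.2) : ℝ) : ℂ) * (q.1 : ℂ) = 0
        rw [h, map_zero, Complex.ofReal_zero, zero_mul]
    rw [e]
    exact Finset.sum_eq_zero fun i _ => ((hI i).2 hV).1
  · have e : MM Φ g T = ∑ i, MM Φ g ((fun w => φ i w) '' Q) := by
      unfold MM
      rw [← finsum_sum_comm]
      · refine finsum_congr fun q => ?_
        rw [hDn, map_sum, Finset.mul_sum, Finset.sum_neg_distrib]
      · intro i _
        refine (hfin i).subset ?_
        intro q hq h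
        apply hq
        show -(q.2 * Φ g (Dn ((fun w => φ i w) '' Q) (q.1 : ℂ) q.2)) = 0
        rw [h, map_zero, mul_zero, neg_zero]
    rw [e, Finset.sum_congr rfl fun i _ => ((hI i).2 hV).2]
    simp

end

end T2h42.AP
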