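import Pool.Agent.T2h42.AP.Stm

set_option autoImplicit false

open Set Filter Topology Complex

namespace T2h42.AP

noncomputable section

theorem shift_inv (Φ : (ℝ →+ ℝ) →ₗ[ℝ] (ℝ → ℝ) →ₗ[ℝ] ℝ) (hΦ : IsInt Φ) (g : ℝ →+ ℝ)
    (D : ℝ → ℝ) (hD : D ∈ SF) (c : ℝ) : Φ g (fun τ => D (τ - c)) = Φ g D := by
  let Tc : (ℝ → ℝ) →ₗ[ℝ] (ℝ → ℝ) := LinearMap.funLeft ℝ ℝ (fun τ => τ - c)
  have h : Set.EqOn (Φ g ∘ₗ Tc) (Φ g) (SF : Set (ℝ → ℝ)) := by
    refine LinearMap.eqOn_span ?_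
    rintro _ ⟨⟨x, y⟩, rfl⟩
    show Φ g (fun τ => (Ico x y).indicator (fun _ => (1 : ℝ)) (τ - c)) = _
    have e : (fun τ => (Ico x y).indicator (fun _ => (1 : ℝ)) (τ - c)) =
        (Ico (x + c) (y + c)).indicator (fun _ => (1 : ℝ)) := by
      funext τ
      simp only [Set.indicator_apply, Set.mem_Ico]
      have : (x ≤ τ - c ∧ τ - c < y) ↔ (x + c ≤ τ ∧ τ < y + c) := by
        constructor
        · rintro ⟨h1, h2⟩; exact ⟨by linarith, by linarith⟩
        · rintro ⟨h1, h2⟩; exact ⟨by linarith, by linarith⟩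
      simp only [this]
    rw [e]
    rcases le_total x y with hxy | hxy
    · rw [hΦ g _ _ (by linarith), hΦ g _ _ hxy, map_add, map_add]
      ring
    · have e1 : Ico x y = ∅ := Set.Ico_eq_empty (not_lt.2 hxy)
      have e2 : Ico (x + c) (y + c) = ∅ :=
        Set.Ico_eq_empty (by intro h; linarith : ¬ x + c < y + c)
      show _ = Φ g ((Ico x y).indicator (fun _ => (1 : ℝ)))
      rw [e1, e2]
  exact h hD

theorem mem_ln {q : Circle × ℝ} {z : ℂ} : z ∈ ln q ↔ (z * cj (q.1 : ℂ)).im = q.2 := Iff.rfl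

theorem mem_NL {L : Finset (Circle × ℝ)} {z : ℂ} : z ∈ NL L ↔ ∃ q ∈ L, z ∈ ln q := by
  simp [NL]

theorem frontier_img (φ : ℂ ≃ᵢ ℂ) (G : Set ℂ) :
    frontier ((fun w => φ w) '' G) = (fun w => φ w) '' frontier G :=
  (φ.toHomeomorph.image_frontier G).symm

/-- the oriented lines under `u z + b` -/
def E1 (u : Circle) (b : ℂ) : Circle × ℝ ≃ Circle × ℝ where
  toFun q := (u * q.1, q.2 + (b * cj ((u * q.1 : Circle) : ℂ)).im)
  invFun q := (u⁻¹ * q.1, q.2 - (b * cj (q.1 : ℂ)).im)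
  left_inv := by
    rintro ⟨d, h⟩
    simp
  right_inv := by
    rintro ⟨d, h⟩
    simp

/-- the oriented lines under `u cj z + b` -/
def E2 (u : Circle) (b : ℂ) : Circle × ℝ ≃ Circle × ℝ where
  toFun q := (u * q.1⁻¹, -q.2 + (b * cj ((u * q.1⁻¹ : Circle) : ℂ)).im)
  invFun q := (u * q.1⁻¹, -q.2 + (b * cj (q.1 : ℂ)).im)
  left_inv := by
    rintro ⟨d, h⟩
    refine Prod.ext ?_ ?_
    · show u * (u * d⁻¹)⁻¹ = d
      simp
    · show -(-h + (b * cj ((u * d⁻¹ : Circle) : ℂ)).im) + (b * cj ((u * d⁻¹ : Circle) : ℂ)).im = h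
      ring
  right_inv := by
    rintro ⟨d, h⟩
    have e : u * (u * d⁻¹)⁻¹ = d := by simp
    refine Prod.ext ?_ ?_
    · show u * (u * d⁻¹)⁻¹ = d
      exact e
    · show -(-h + (b * cj (d : ℂ)).im) + (b * cj ((u * (u * d⁻¹)⁻¹ : Circle) : ℂ)).im = h
      rw [e]
      ring

theorem mul_cj_circle (u : Circle) : (u : ℂ) * cj (u : ℂ) = 1 := by
  show (u : ℂ) * (starRingEnd ℂ) (u : ℂ) = 1
  rw [Complex.mul_conj]
  simp

theorem coe_inv' (u : Circle) : ((u⁻¹ : Circle) : ℂ) = cj (u : ℂ) := Circle.coe_inv_eq_conj u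

theorem ln_img1 (u : Circle) (b z : ℂ) (q : Circle × ℝ) (hz : z ∈ ln q) :
    (u : ℂ) * z + b ∈ ln (E1 u b q) := by
  rw [mem_ln] at hz ⊢
  show (((u : ℂ) * z + b) * cj ((u * q.1 : Circle) : ℂ)).im =
    q.2 + (b * cj ((u * q.1 : Circle) : ℂ)).im
  have e : ((u : ℂ) * z + b) * cj ((u * q.1 : Circle) : ℂ) =
      z * cj (q.1 : ℂ) + b * cj ((u * q.1 : Circle) : ℂ) := by
    have h1 := mul_cj_circle u
    simp only [cj, Circle.coe_mul, map_mul] at h1 ⊢
    linear_combination (z * (starRingEnd ℂ) (q.1 : ℂ)) * h1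
  rw [e, Complex.add_im, hz]

theorem ln_img2 (u : Circle) (b z : ℂ) (q : Circle × ℝ) (hz : z ∈ ln q) :
    (u : ℂ) * cj z + b ∈ ln (E2 u b q) := by
  rw [mem_ln] at hz ⊢
  show (((u : ℂ) * cj z + b) * cj ((u * q.1⁻¹ : Circle) : ℂ)).im =
    -q.2 + (b * cj ((u * q.1⁻¹ : Circle) : ℂ)).im
  have e : ((u : ℂ) * cj z + b) * cj ((u * q.1⁻¹ : Circle) : ℂ) =
      cj (z * cj (q.1 : ℂ)) + b * cj ((u * q.1⁻¹ : Circle) : ℂ) := by
    have h1 := mul_cj_circle u
    rw [Circle.coe_mul, coe_inv']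
    simp only [cj, map_mul, Complex.conj_conj] at h1 ⊢
    linear_combination ((starRingEnd ℂ) z * (q.1 : ℂ)) * h1
  rw [e, Complex.add_im, ← hz]
  show -(z * cj (q.1 : ℂ)).im + _ = _
  rfl

theorem good_img (hK0 : H74R2.WT.T_K0) (G : Set ℂ) (φ : ℂ ≃ᵢ ℂ) (hG : Good G) :
    Good ((fun w => φ w) '' G) := by
  classical
  obtain ⟨hb, L, hL⟩ := hG
  refine ⟨φ.isometry.lipschitz.isBounded_image hb, ?_⟩
  rw [frontier_img]
  obtain ⟨u, b, hu, h | h⟩ := hK0 φ
  · let uc : Circle := ⟨u, mem_sphere_zero_iff_norm.2 hu⟩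
    refine ⟨L.image (E1 uc b), ?_⟩
    rintro _ ⟨z, hz, rfl⟩
    obtain ⟨q, hq, hzq⟩ := mem_NL.1 (hL hz)
    refine mem_NL.2 ⟨_, Finset.mem_image_of_mem _ hq, ?_⟩
    show φ z ∈ _
    rw [h]
    exact ln_img1 uc b z q hzq
  · let uc : Circle := ⟨u, mem_sphere_zero_iff_norm.2 hu⟩
    refine ⟨L.image (E2 uc b), ?_⟩
    rintro _ ⟨z, hz, rfl⟩
    obtain ⟨q, hq, hzq⟩ := mem_NL.1 (hL hz)
    refine mem_NL.2 ⟨_, Finset.mem_image_of_mem _ hq, ?_⟩
    show φ z ∈ _
    rw [h]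
    exact ln_img2 uc b z q hzq

theorem t_VMI : S_VMI := by
  intro hSTP hSTEP hLINE hFINS hISO hK0 Φ hΦ g G φ hG
  refine ⟨good_img hK0 G φ hG, fun hV => ?_⟩
  have hSF := hSTEP hSTP G hG
  have hfin := hFINS hLINE G hG
  set a : Circle × ℝ → ℝ := fun q => Φ g (Dn G (q.1 : ℂ) q.2) with ha
  have hsa : (Function.support a).Finite := by
    refine hfin.subset ?_
    intro q hq h
    apply hq
    show Φ g (Dn G (q.1 : ℂ) q.2) = 0
    rw [h, map_zero]
  have hV' : ∑ᶠ q : Circle × ℝ, ((a q : ℝ) : ℂ) * (q.1 : ℂ) = 0 := hV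
  have hsup : (Function.support fun q : Circle × ℝ => ((a q : ℝ) : ℂ) * (q.1 : ℂ)).Finite := by
    refine hsa.subset ?_
    intro q hq h
    apply hq
    show ((a q : ℝ) : ℂ) * (q.1 : ℂ) = 0
    rw [h, Complex.ofReal_zero, zero_mul]
  -- a real linear map applied to the closing relation
  have key : ∀ Λ : ℂ →+ ℝ, (∑ᶠ q : Circle × ℝ, Λ (((a q : ℝ) : ℂ) * (q.1 : ℂ))) = 0 := by
    intro Λ
    rw [← AddMonoidHom.map_finsum Λ hsup, hV', map_zero]
  have keyC : ∀ Λ : ℂ →+ ℂ, (∑ᶠ q : Circle × ℝ, Λ (((a q : ℝ) : ℂ) * (q.1 : ℂ))) = 0 := by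
    intro Λ
    rw [← AddMonoidHom.map_finsum Λ hsup, hV', map_zero]
  have hfinM : (Function.support fun q : Circle × ℝ => -(q.2 * a q)).Finite := by
    refine hsa.subset ?_
    intro q hq h
    apply hq
    show -(q.2 * a q) = 0
    rw [h, mul_zero, neg_zero]
  obtain ⟨u, b, hu, h | h⟩ := hK0 φ
  · let uc : Circle := ⟨u, mem_sphere_zero_iff_norm.2 hu⟩
    have huc : (uc : ℂ) = u := rfl
    have hD : ∀ q : Circle × ℝ, Φ g (Dn ((fun w => φ w) '' G) ((E1 uc b q).1 : ℂ) (E1 uc b q).2) =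
        a q := by
      intro q
      have e : Dn ((fun w => φ w) '' G) ((E1 uc b q).1 : ℂ) (E1 uc b q).2 =
          fun τ => Dn G (q.1 : ℂ) q.2 (τ - (b * cj (u * (q.1 : ℂ))).re) := by
        funext τ
        exact (hISO φ u b G (q.1 : ℂ) q.2 τ hu (Circle.norm_coe _)).1 h
      rw [e, shift_inv Φ hΦ g _ (hSF q)]
    constructor
    · unfold VV
      rw [← finsum_comp_equiv (E1 uc b)]
      have := keyC (AddMonoidHom.mulLeft u)
      rw [← this]
      refine finsum_congr fun q => ?_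
      rw [hD]
      show ((a q : ℝ) : ℂ) * ((uc * q.1 : Circle) : ℂ) = u * (((a q : ℝ) : ℂ) * (q.1 : ℂ))
      rw [Circle.coe_mul, huc]
      ring
    · unfold MM
      rw [← finsum_comp_equiv (E1 uc b)]
      have k := key (Complex.imAddGroupHom.comp ((AddMonoidHom.mulLeft b).comp
        ((starRingEnd ℂ).toAddMonoidHom.comp (AddMonoidHom.mulLeft u))))
      have k' : ∀ q : Circle × ℝ, (Complex.imAddGroupHom.comp ((AddMonoidHom.mulLeft b).comp
        ((starRingEnd ℂ).toAddMonoidHom.comp (AddMonoidHom.mulLeft u))))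
          (((a q : ℝ) : ℂ) * (q.1 : ℂ)) = a q * (b * cj (u * (q.1 : ℂ))).im := by
        intro q
        show (b * (starRingEnd ℂ) (u * (((a q : ℝ) : ℂ) * (q.1 : ℂ)))).im = _
        have : b * (starRingEnd ℂ) (u * (((a q : ℝ) : ℂ) * (q.1 : ℂ))) =
            ((a q : ℝ) : ℂ) * (b * cj (u * (q.1 : ℂ))) := by
          simp only [cj, map_mul, Complex.conj_ofReal]
          ring
        rw [this, Complex.im_ofReal_mul]
      rw [finsum_congr k'] at k
      have hk : (Function.support fun q : Circle × ℝ =>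
          -(a q * (b * cj (u * (q.1 : ℂ))).im)).Finite := by
        refine hsa.subset ?_
        intro q hq h
        apply hq
        show -(a q * (b * cj (u * (q.1 : ℂ))).im) = 0
        rw [h, zero_mul, neg_zero]
      have e1 : (∑ᶠ q : Circle × ℝ, -(a q * (b * cj (u * (q.1 : ℂ))).im)) = 0 := by
        rw [finsum_neg_distrib, k, neg_zero]
      show _ = ∑ᶠ q : Circle × ℝ, -(q.2 * a q)
      rw [← add_zero (∑ᶠ q : Circle × ℝ, -(q.2 * a q)), ← e1, ← finsum_add_distrib hfinM hk]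
      refine finsum_congr fun q => ?_
      rw [hD]
      show -((q.2 + (b * cj ((uc * q.1 : Circle) : ℂ)).im) * a q) = _
      rw [Circle.coe_mul, huc]
      ring
  · let uc : Circle := ⟨u, mem_sphere_zero_iff_norm.2 hu⟩
    have huc : (uc : ℂ) = u := rfl
    have hD : ∀ q : Circle × ℝ, Φ g (Dn ((fun w => φ w) '' G) ((E2 uc b q).1 : ℂ) (E2 uc b q).2) =
        - a q := by
      intro q
      have e : Dn ((fun w => φ w) '' G) ((E2 uc b q).1 : ℂ) (E2 uc b q).2 =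
          -(fun τ => Dn G (q.1 : ℂ) q.2 (τ - (b * cj (u * cj (q.1 : ℂ))).re)) := by
        funext τ
        have h1 := (hISO φ u b G (q.1 : ℂ) q.2 τ hu (Circle.norm_coe _)).2 h
        have h2 : ((E2 uc b q).1 : ℂ) = u * cj (q.1 : ℂ) := by
          show ((uc * q.1⁻¹ : Circle) : ℂ) = _
          rw [Circle.coe_mul, coe_inv', huc]
        have h3 : (E2 uc b q).2 = -q.2 + (b * cj (u * cj (q.1 : ℂ))).im := by
          show -q.2 + (b * cj ((uc * q.1⁻¹ : Circle) : ℂ)).im = _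
          rw [Circle.coe_mul, coe_inv', huc]
        rw [h2, h3]
        exact h1
      rw [e, map_neg, shift_inv Φ hΦ g _ (hSF q)]
    constructor
    · unfold VV
      rw [← finsum_comp_equiv (E2 uc b)]
      have := keyC ((AddMonoidHom.mulLeft (-u)).comp (starRingEnd ℂ).toAddMonoidHom)
      rw [← this]
      refine finsum_congr fun q => ?_
      rw [hD]
      show ((-a q : ℝ) : ℂ) * ((uc * q.1⁻¹ : Circle) : ℂ) =
        (-u) * (starRingEnd ℂ) (((a q : ℝ) : ℂ) * (q.1 : ℂ))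
      rw [Circle.coe_mul, coe_inv', huc, map_mul, Complex.conj_ofReal, Complex.ofReal_neg]
      ring
    · unfold MM
      rw [← finsum_comp_equiv (E2 uc b)]
      have k := key (Complex.imAddGroupHom.comp ((AddMonoidHom.mulLeft b).comp
        ((starRingEnd ℂ).toAddMonoidHom.comp ((AddMonoidHom.mulLeft u).comp
          (starRingEnd ℂ).toAddMonoidHom))))
      have k' : ∀ q : Circle × ℝ, (Complex.imAddGroupHom.comp ((AddMonoidHom.mulLeft b).comp
        ((starRingEnd ℂ).toAddMonoidHom.comp ((AddMonoidHom.mulLeft u).comp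
          (starRingEnd ℂ).toAddMonoidHom))))
          (((a q : ℝ) : ℂ) * (q.1 : ℂ)) = a q * (b * cj (u * cj (q.1 : ℂ))).im := by
        intro q
        show (b * (starRingEnd ℂ) (u * (starRingEnd ℂ) (((a q : ℝ) : ℂ) * (q.1 : ℂ)))).im = _
        have : b * (starRingEnd ℂ) (u * (starRingEnd ℂ) (((a q : ℝ) : ℂ) * (q.1 : ℂ))) =
            ((a q : ℝ) : ℂ) * (b * cj (u * cj (q.1 : ℂ))) := by
          simp only [cj, map_mul, Complex.conj_ofReal]
          ring
        rw [this, Complex.im_ofReal_mul]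
      rw [finsum_congr k'] at k
      have hk : (Function.support fun q : Circle × ℝ =>
          (a q * (b * cj (u * cj (q.1 : ℂ))).im)).Finite := by
        refine hsa.subset ?_
        intro q hq h
        apply hq
        show (a q * (b * cj (u * cj (q.1 : ℂ))).im) = 0
        rw [h, zero_mul]
      show _ = ∑ᶠ q : Circle × ℝ, -(q.2 * a q)
      rw [← add_zero (∑ᶠ q : Circle × ℝ, -(q.2 * a q)), ← k, ← finsum_add_distrib hfinM hk]
      refine finsum_congr fun q => ?_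
      rw [hD]
      show -((-q.2 + (b * cj ((uc * q.1⁻¹ : Circle) : ℂ)).im) * (- a q)) = _
      rw [Circle.coe_mul, coe_inv', huc]
      ring

end

end T2h42.AP
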