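import Pool.Agent.T2h42.AP.Fin
import Pool.Agent.T2h42.AP.INT
import Pool.Agent.T2h42.AP.STP
import Pool.Agent.T2h42.AP.STEP
import Pool.Agent.T2h42.AP.LINE
import Pool.Agent.T2h42.AP.FINS
import Pool.Agent.T2h42.AP.ADD
import Pool.Agent.T2h42.AP.ISO
import Pool.Agent.T2h42.AP.VMI
import Pool.Agent.T2h42.AP.VMA
import Pool.Agent.T2h42.AP.VLIN
import Pool.Agent.T2h42.AP.TRG
import Pool.Agent.T2h42.AP.TRD
import Pool.Agent.T2h42.AP.TRV
import Pool.Agent.T2h42.AP.ALG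
import Pool.Agent.T2h42.AP.AREA
import Pool.Agent.T2h42.AP.SYF
import Pool.Agent.T2h42.AP.GENP
import Pool.Agent.T2h42.AP.CELL
import Pool.Agent.T2h42.AP.SIDE
import Pool.Agent.T2h42.AP.DIR
import Pool.Agent.T2h42.AP.TRN
import Pool.Agent.T2h42.AP.GE4
import Pool.Agent.T2h42.AP.GE6
import Pool.Agent.T2h42.AP.GG
import Pool.Agent.T2h42.AP.GRP
import Pool.Agent.H368WT.K0
import Pool.Agent.H965R3.WT_O

set_option autoImplicit false

namespace T2h42.AP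

/-- no prototile realises both p4m and p6m. Tasks by helper3 (INT, STP, STEP, LINE), helper6 (SYF,
TRG, TRN, TRV), helper22 (GENP, GRP), helper30 (AREA), helper32 (ALG, DIR, GG), helper45 (ADD, ISO,
TRD), helper97 (CELL, GE4, GE6, SIDE), helper42 (rest). -/
theorem main (P : Set ℂ) (hP : Poly P) (T T' : Set (Set ℂ)) (hT : H74R2.WT.IsTiling P T)
    (hT' : H74R2.WT.IsTiling P T') (e : Nonempty (H74R2.WT.Sym T ≃* G4))
    (e' : Nonempty (H74R2.WT.Sym T' ≃* G6)) : False :=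
  noBoth t_INT t_STP t_STEP t_LINE t_FINS t_ADD t_ISO t_VMI t_VMA t_VLIN t_TRG t_TRD t_TRV t_ALG
    t_AREA H74R2.WT.t_K0 t_SYF t_GENP t_CELL t_SIDE H74R2.WT.t_O t_DIR t_TRN t_GE4 t_GE6 t_GG t_GRP
    P hP T T' hT hT' e e'

end T2h42.AP
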