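import Pool.Agent.T2h42.AP.Stm

set_option autoImplicit false

open Set Filter Topology Complex

namespace T2h42.AP

noncomputable section

theorem re_rel (A B C p q r : ℝ) (hr : r ≠ 0)
    (h : 2 * ((A : ℂ) + (B : ℂ) * ((-(p : ℂ) + (q : ℂ) * I) / (r : ℂ)) - I * (C : ℂ)) = 0) :
    A * r = B * p := by
  have hrc : (r : ℂ) ≠ 0 := Complex.ofReal_ne_zero.2 hr
  have h20 : (2 : ℂ) ≠ 0 := by norm_num
  have e2 := (mul_eq_zero.1 h).resolve_left h20
  have e3 : (A : ℂ) * r + (B : ℂ) * (-(p : ℂ) + (q : ℂ) * I) - I * (C : ℂ) * r = 0 := by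
    have e4 := congrArg (fun x => x * (r : ℂ)) e2
    simp only [zero_mul] at e4
    rw [← e4]
    field_simp
  have e5 := congrArg Complex.re e3
  simp at e5
  linarith

/-- the core: no good set tiles both triangles -/
theorem core (hINT : S_INT) (hSTP : S_STP) (hSTEP : S_STEP) (hLINE : S_LINE) (hFINS : S_FINS)
    (hADD : S_ADD) (hISO : S_ISO) (hVMI : S_VMI) (hVMA : S_VMA) (hVLIN : S_VLIN) (hTRG : S_TRG)
    (hTRD : S_TRD) (hTRV : S_TRV) (hALG : S_ALG) (hAREA : S_AREA) (hK0 : H74R2.WT.T_K0)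
    (Q : Set ℂ) (hQ : Good Q) (m s : ℝ) (hm : 0 < m) (hs : 0 < s) (N1 N2 : ℕ)
    (h1 : TiledBy Q (Tri (Real.sqrt 3 * m) m) N1) (h2 : TiledBy Q (Tri s s) N2) : False := by
  obtain ⟨Φ, hΦ⟩ := hINT
  have h3 : 0 < Real.sqrt 3 := Real.sqrt_pos.2 (by norm_num)
  have h2' : 0 < Real.sqrt 2 := Real.sqrt_pos.2 (by norm_num)
  have h33 : Real.sqrt 3 * Real.sqrt 3 = 3 := Real.mul_self_sqrt (by norm_num)
  have h22 : Real.sqrt 2 * Real.sqrt 2 = 2 := Real.mul_self_sqrt (by norm_num)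
  have hp : 0 < Real.sqrt 3 * m := mul_pos h3 hm
  have A1 := hAREA Q _ _ N1 hQ hp hm h1
  have A2 := hAREA Q _ _ N2 hQ hs hs h2
  set v := (MeasureTheory.volume Q).toReal with hv
  have hv0 : 0 ≤ v := ENNReal.toReal_nonneg
  have hN1 : 0 < N1 := by
    rcases Nat.eq_zero_or_pos N1 with h | h
    · rw [h] at A1
      have : 0 < Real.sqrt 3 * m * m / 2 := by positivity
      simp at A1
      rcases A1 with A1 | A1 <;> linarith
    · exact h
  have hN2 : 0 < N2 := by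
    rcases Nat.eq_zero_or_pos N2 with h | h
    · rw [h] at A2
      have : 0 < s * s / 2 := by positivity
      simp at A2
      linarith
    · exact h
  have hN1' : (0 : ℝ) < N1 := by exact_mod_cast hN1
  have hN2' : (0 : ℝ) < N2 := by exact_mod_cast hN2
  have hrel : (N2 : ℝ) * (Real.sqrt 3 * m ^ 2) = N1 * s ^ 2 := by
    linear_combination (2 * (N2 : ℝ)) * A1 - (2 * (N1 : ℝ)) * A2
  obtain ⟨V, hV⟩ := hVLIN hLINE hFINS Φ Q hQ
  refine hALG m s N1 N2 hm hs hN1 hN2 hrel V ?_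
  intro g hg
  rw [hV] at hg
  -- the hypotenuses
  have r1 : 2 * m = Real.sqrt ((Real.sqrt 3 * m) ^ 2 + m ^ 2) := by
    have : (Real.sqrt 3 * m) ^ 2 + m ^ 2 = (2 * m) ^ 2 := by
      linear_combination (m ^ 2) * h33
    rw [this, Real.sqrt_sq (by positivity)]
  have r2 : Real.sqrt 2 * s = Real.sqrt (s ^ 2 + s ^ 2) := by
    have : s ^ 2 + s ^ 2 = (Real.sqrt 2 * s) ^ 2 := by
      linear_combination (-s ^ 2) * h22
    rw [this, Real.sqrt_sq (by positivity)]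
  obtain ⟨G1, V1, M1⟩ := hTRV hLINE hTRG hTRD Φ hΦ g _ _ _ hp hm r1
  obtain ⟨G2, V2, M2⟩ := hTRV hLINE hTRG hTRD Φ hΦ g _ _ _ hs hs r2
  obtain ⟨a1, b1⟩ := hVMA hSTP hSTEP hLINE hFINS hISO hADD hVMI hK0 Φ hΦ g Q _ N1 hQ G1 h1 hg
  obtain ⟨a2, b2⟩ := hVMA hSTP hSTEP hLINE hFINS hISO hADD hVMI hK0 Φ hΦ g Q _ N2 hQ G2 h2 hg
  rw [V1] at a1
  rw [V2] at a2
  rw [M1] at b1
  rw [M2] at b2
  have g2m : g (2 * m) = 2 * g m := by rw [two_mul, map_add, two_mul]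
  -- first relation
  have c1 : g (Real.sqrt 3 * m) = Real.sqrt 3 * g m := by
    have e := re_rel _ _ _ _ _ _ (by positivity) a1
    rw [g2m] at e
    have : 2 * m * (g (Real.sqrt 3 * m) - Real.sqrt 3 * g m) = 0 := by
      linear_combination e
    rcases mul_eq_zero.1 this with h | h
    · exfalso; linarith
    · linarith
  have c2 : g (Real.sqrt 2 * s) = Real.sqrt 2 * g s := by
    have e := re_rel _ _ _ _ _ _ (by positivity) a2
    have : s * (g (Real.sqrt 2 * s) - Real.sqrt 2 * g s) = 0 := by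
      linear_combination -e
    rcases mul_eq_zero.1 this with h | h
    · exfalso; linarith
    · linarith
  refine ⟨c1, c2, ?_⟩
  -- third relation
  have d1 : 2 * (Real.sqrt 3 * m * g m) = N1 * MM Φ g Q := by
    rw [← b1, g2m]
    field_simp
  have d2 : 2 * (s * g s) = N2 * MM Φ g Q := by
    rw [← b2, c2]
    field_simp
  have d3 : (N1 : ℝ) * (s * g s) = N2 * (Real.sqrt 3 * m * g m) := by
    linear_combination (1 / 2 * (N1 : ℝ)) * d2 - (1 / 2 * (N2 : ℝ)) * d1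
  have d4 : (N1 : ℝ) * s * (m * g s - s * g m) = 0 := by
    linear_combination m * d3 + (g m) * hrel
  rcases mul_eq_zero.1 d4 with h | h
  · exfalso
    have : 0 < (N1 : ℝ) * s := by positivity
    linarith
  · linarith

/-- no prototile realises both p4m and p6m -/
theorem noBoth (hINT : S_INT) (hSTP : S_STP) (hSTEP : S_STEP) (hLINE : S_LINE) (hFINS : S_FINS)
    (hADD : S_ADD) (hISO : S_ISO) (hVMI : S_VMI) (hVMA : S_VMA) (hVLIN : S_VLIN) (hTRG : S_TRG)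
    (hTRD : S_TRD) (hTRV : S_TRV) (hALG : S_ALG) (hAREA : S_AREA) (hK0 : H74R2.WT.T_K0)
    (hSYF : S_SYF) (hGENP : S_GENP) (hCELL : S_CELL) (hSIDE : S_SIDE) (hO : H74R2.WT.T_O)
    (hDIR : S_DIR) (hTRN : S_TRN) (hGE4 : S_GE4) (hGE6 : S_GE6) (hGG : S_GG) (hGRP : S_GRP)
    (P : Set ℂ) (hP : Poly P) (T T' : Set (Set ℂ)) (hT : H74R2.WT.IsTiling P T)
    (hT' : H74R2.WT.IsTiling P T') (e : Nonempty (H74R2.WT.Sym T ≃* G4))
    (e' : Nonempty (H74R2.WT.Sym T' ≃* G6)) : False := by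
  obtain ⟨g4, g6⟩ := hGRP hGE4 hGE6 hGG hK0
  obtain ⟨ψ, s, hs, r4⟩ := g4 _ e
  obtain ⟨ψ', p, m, hm, hpm, r6⟩ := g6 _ e'
  obtain ⟨T1, t1, q1⟩ := hTRN P T ψ s s hT r4
  obtain ⟨T2, t2, q2⟩ := hTRN P T' ψ' p m hT' r6
  obtain ⟨Q, hQ, hh⟩ := hDIR hSYF hGENP hCELL hSIDE hK0 hO P hP
  have hp : 0 < p := by
    rw [hpm]; exact mul_pos (Real.sqrt_pos.2 (by norm_num)) hm
  obtain ⟨N2, n2⟩ := hh T1 t1 s s hs hs q1
  obtain ⟨N1, n1⟩ := hh T2 t2 p m hp hm q2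
  rw [hpm] at n1
  exact core hINT hSTP hSTEP hLINE hFINS hADD hISO hVMI hVMA hVLIN hTRG hTRD hTRV hALG hAREA hK0
    Q hQ m s hm hs N1 N2 n1 n2

end

end T2h42.AP
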