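import Pool.Agent.H940R.WT.N3
import Pool.Agent.H940R.WT.N4

/-!
# Project AP (helper42): full answer (NO) to MP_2c7cbe_co, all-purpose polygonal tiles

THEOREM. For every polygon `P`, at least one of the wallpaper groups p4m, p6m is not (isomorphic to)
the symmetry group of a monohedral tiling with prototile `P`.

PROOF. A tiling with symmetry group p4m (p6m) is symmetric in the three sides of a 45-45-90
(30-60-90) triangle; a fundamental piece `Q` of `P` for the finite group `Sym P` then tiles this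
triangle. So `N2` congruent copies of `Q` tile the triangle `0, s, i s` and `N1` copies tile
`0, √3 m, i m`. For additive `g : ℝ → ℝ` and a polygonal region `G` put
`V_g(G) = Σ g(|e|) d_e` and `M_g(G) = Σ h_e g(|e|)` over the edges `e` of `G` (counterclockwise unit
direction `d_e`, signed distance `h_e` of the line of `e` from `0`). Both are additive, and for
`V_g(Q) = 0` we get `V_g = 0`, `M_g = M_g(Q)` for all congruent copies of `Q`. So for `V_g(Q) = 0`:
`g(√3 m) = √3 g(m)`, `g(√2 s) = √2 g(s)` (from `V_g` of the triangles) and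
`√3 m g(m) = N1 M_g(Q)`, `s g(s) = N2 M_g(Q)`, while the areas give `√3 m² N2 = s² N1`; hence
`m g(s) = s g(m)`. But `m, √3 m, s, √2 s` are linearly independent over `ℚ`, so their values under
`g` are arbitrary, and `V_g(Q) = 0` is only a system of two real linear equations on
the four values: contradiction.

All statements below are `def ... : Prop`; land `theorem t_X : S_X` in
`Pool/Agent/T2h42/AP/X.lean` (namespace `T2h42.AP`).
-/

set_option autoImplicit false

open Set Filter Topology Complex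

namespace T2h42.AP

noncomputable section

/-! ## Definitions -/

/-- an ultrafilter of positive reals converging to `0` -/
def U : Ultrafilter ℝ := Ultrafilter.of (𝓝[>] (0 : ℝ))

theorem U_le : (U : Filter ℝ) ≤ 𝓝[>] (0 : ℝ) := Ultrafilter.of_le _

/-- complex conjugation -/
abbrev cj (z : ℂ) : ℂ := (starRingEnd ℂ) z

/-- `G` contains the germ of points slightly to the left of the ray from `x` in direction `d` -/
def LfP (G : Set ℂ) (x d : ℂ) : Prop :=
  ∀ᶠ δ : ℝ in (U : Filter ℝ), ∀ᶠ ε : ℝ in (U : Filter ℝ), x + (ε : ℂ) * d * (1 + (δ : ℂ) * I) ∈ G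

/-- `G` contains the germ of points slightly to the right of the ray from `x` in direction `d` -/
def RtP (G : Set ℂ) (x d : ℂ) : Prop :=
  ∀ᶠ δ : ℝ in (U : Filter ℝ), ∀ᶠ ε : ℝ in (U : Filter ℝ), x + (ε : ℂ) * d * (1 - (δ : ℂ) * I) ∈ G

open Classical in
/-- left membership minus right membership -/
def jmp (G : Set ℂ) (x d : ℂ) : ℝ := (if LfP G x d then 1 else 0) - (if RtP G x d then 1 else 0)

/-- the jump function along the oriented line with direction `d` (a unit vector) at height `h`,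
i.e. `{(τ + i h) d : τ ∈ ℝ}` -/
def Dn (G : Set ℂ) (d : ℂ) (h : ℝ) : ℝ → ℝ := fun τ => jmp G (((τ : ℂ) + (h : ℂ) * I) * d) d

/-- the line `{(τ + i h) d : τ ∈ ℝ}`, `q = (d, h)` -/
def ln (q : Circle × ℝ) : Set ℂ := {z | (z * cj (q.1 : ℂ)).im = q.2}

/-- finite union of lines -/
def NL (L : Finset (Circle × ℝ)) : Set ℂ := ⋃ q ∈ L, ln q

/-- good sets (polygonal regions): bounded, frontier in a finite union of lines -/
def Good (G : Set ℂ) : Prop := Bornology.IsBounded G ∧ ∃ L : Finset (Circle × ℝ), frontier G ⊆ NL L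

/-- indicator function -/
def ind (G : Set ℂ) (z : ℂ) : ℝ := G.indicator (fun _ => (1 : ℝ)) z

/-- `T` is tiled by `N` congruent copies of `Q` (off finitely many lines) -/
def TiledBy (Q T : Set ℂ) (N : ℕ) : Prop :=
  ∃ (φ : Fin N → (ℂ ≃ᵢ ℂ)) (L : Finset (Circle × ℝ)),
    ∀ z, z ∉ NL L → ind T z = ∑ i, ind ((fun w => φ i w) '' Q) z

/-- step functions: the span of the indicator functions of half-open intervals -/
def SF : Submodule ℝ (ℝ → ℝ) :=
  Submodule.span ℝ (Set.range fun p : ℝ × ℝ => (Ico p.1 p.2).indicator (fun _ => (1 : ℝ)))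

/-- `Φ g` is the `g`-length integral of step functions -/
def IsInt (Φ : (ℝ →+ ℝ) →ₗ[ℝ] (ℝ → ℝ) →ₗ[ℝ] ℝ) : Prop :=
  ∀ (g : ℝ →+ ℝ) (a b : ℝ), a ≤ b → Φ g ((Ico a b).indicator (fun _ => (1 : ℝ))) = g b - g a

/-- the `g`-perimeter vector (twice) -/
def VV (Φ : (ℝ →+ ℝ) →ₗ[ℝ] (ℝ → ℝ) →ₗ[ℝ] ℝ) (g : ℝ →+ ℝ) (G : Set ℂ) : ℂ :=
  ∑ᶠ q : Circle × ℝ, ((Φ g (Dn G (q.1 : ℂ) q.2) : ℝ) : ℂ) * (q.1 : ℂ)

/-- the mixed area (four times) -/
def MM (Φ : (ℝ →+ ℝ) →ₗ[ℝ] (ℝ → ℝ) →ₗ[ℝ] ℝ) (g : ℝ →+ ℝ) (G : Set ℂ) : ℝ :=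
  ∑ᶠ q : Circle × ℝ, -(q.2 * Φ g (Dn G (q.1 : ℂ) q.2))

/-- open right triangle with vertices `0, p, i q` -/
def Tri (p q : ℝ) : Set ℂ := {z | 0 < z.re ∧ 0 < z.im ∧ z.re / p + z.im / q < 1}

/-- prototiles: compact, closure of the connected interior, frontier in finitely many lines.
Every polygon is one. -/
structure Poly (P : Set ℂ) : Prop where
  cpt : IsCompact P
  conn : IsConnected (interior P)
  reg : P ⊆ closure (interior P)
  fr : ∃ L : Finset (Circle × ℝ), frontier P ⊆ NL L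

/-- `G` contains the reflections in the three sides of the triangle with vertices
`ψ⁻¹ 0, ψ⁻¹ p, ψ⁻¹ (i q)` -/
def RefIn (G : Subgroup (ℂ ≃ᵢ ℂ)) (ψ : ℂ ≃ᵢ ℂ) (p q : ℝ) : Prop :=
  (∃ a ∈ G, ∀ z, ψ (a z) = cj (ψ z)) ∧ (∃ c ∈ G, ∀ z, ψ (c z) = - cj (ψ z)) ∧
  (∃ b ∈ G, ∀ z, ψ (b z) = p + ((-p + q * I) / (-p - q * I)) * cj (ψ z - p))

/-- the relations of the triangle groups used -/
def Rel {G : Type} [Group G] (k l : ℕ) (a b c : G) : Prop :=
  a * a = 1 ∧ b * b = 1 ∧ c * c = 1 ∧ orderOf (a * b) = k ∧ orderOf (b * c) = l ∧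
    orderOf (a * c) = 2 ∧ (a * b * c) * (a * b * c) ≠ 1

/-! ## Tasks -/

/-- INT (about 120 lines, pure algebra). Existence of the `g`-length integral.
PROOF. Let `F = (ℝ × ℝ) →₀ ℝ`, `T : F → (ℝ → ℝ)` linear, `T (single p c) = c • indicator (Ico p.1 p.2)`,
and `S : (ℝ →+ ℝ) →ₗ F →ₗ ℝ` with `S g (single p c) = c * (if p.1 ≤ p.2 then g p.2 - g p.1 else 0)`.
(For instance `F = Finsupp`, `T = Finsupp.linearCombination ℝ _`, `S g = Finsupp.linearCombination ℝ _`.)
CLAIM: `T f = 0` implies `S g f = 0`. Indeed `S g f = Σ_τ g τ * κ(τ)` with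
`κ(τ) = Σ_{p : p.1 < p.2} f p ([p.2 = τ] - [p.1 = τ])` (finite sums over `τ` in the set of endpoints), and
`-κ(τ) = (T f)(τ) - (T f)(τ - ε)` for every small `ε > 0` (so small that no endpoint lies in
`[τ - ε, τ)`): for `p.1 < p.2`, `ind_{[p.1,p.2)}(τ) - ind(τ - ε) = [p.1 = τ] - [p.2 = τ]`. So `κ = 0`.
Now let `R = range T ≤ (ℝ → ℝ)`, `σ : R →ₗ F` a linear right inverse of `T : F → R`
(`LinearMap.exists_rightInverse_of_surjective`), `π : (ℝ → ℝ) →ₗ R` a linear projection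
(`Submodule.exists_isCompl`, or `LinearMap.exists_extend` applied to `σ`); put `Φ g D = S g (σ (π D))`.
For `D = T f` we have `T (σ (π D) - f) = 0`, so `Φ g D = S g f`. -/
def S_INT : Prop := ∃ Φ : (ℝ →+ ℝ) →ₗ[ℝ] (ℝ → ℝ) →ₗ[ℝ] ℝ, IsInt Φ

/-- STP (about 70 lines). Step functions given by breakpoints are in `SF`.
PROOF. Induction on the finite set `B` (strong induction on the cardinality, for all `D`). If
`B = ∅` then `D` is constant, hence `0` (bounded support). Otherwise let `b = max B`; `D` is constant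
on `[b, ∞)`, hence `0` there. If `B = {b}`, `D` is constant on `(-∞, b)`, hence `D = 0`. Else let
`b' = max (B \ {b})`, `b' < b`; `D' = D - D b' • indicator (Ico b' b)` vanishes on `[b', ∞)` and
satisfies the hypothesis with `B \ {b}` (if `τ < τ'` and `B \ {b}` does not meet `(τ, τ']`, then either
`τ ≥ b'` and both values are `0`, or `τ' < b'`, where `D' = D`). So `D' ∈ SF`. -/
def S_STP : Prop := ∀ (D : ℝ → ℝ) (B : Finset ℝ) (R : ℝ),
  (∀ τ τ' : ℝ, τ < τ' → (∀ b ∈ B, ¬ (τ < b ∧ b ≤ τ')) → D τ = D τ') →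
  (∀ τ : ℝ, R < |τ| → D τ = 0) → D ∈ SF

/-- STEP (about 150 lines). The jump functions of good sets are step functions.
PROOF (uses S_STP). Let `frontier G ⊆ NL L`, `G ⊆ closedBall 0 R0`. For `q = (d0, h0) ∈ L` put
`w = d * cj d0` (unit). If `w.im ≠ 0` let `b_q = (h0 - h * w.re) / w.im` (the line `ln q` meets our line
at `τ = b_q`), and `B = {b_q}`. Let `τ < τ'` and no `b_q` in `(τ, τ']`.
CLAIM: for `δ > 0` small, for `ε > 0` small, the segment `S` from `(τ + i h) d + ε d (1 + iδ)` to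
`(τ' + i h) d + ε d (1 + iδ)` does not meet `NL L`. Its points are `(σ + ε + i (h + εδ)) d`, `σ ∈ [τ, τ']`;
such a point is in `ln q` iff `(σ + ε) w.im + (h + εδ) w.re = h0`. If `w.im = 0` then `w.re = ±1` and this says
`h + εδ = ± h0`, false for small `ε > 0` (for fixed `δ > 0`; at most one `ε` satisfies it). If `w.im ≠ 0` it
says `σ + ε = b_q - εδ w.re / w.im`, i.e. `σ = b_q - ε (1 + δ w.re / w.im)` and for
`δ |w.re / w.im| < 1` the right-hand side is `< b_q` and tends to `b_q` for `ε → 0`: if `b_q ≤ τ` it is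
`< τ`, and if `b_q > τ'` it is `> τ'` for small `ε`. So `S` is connected and does not meet `frontier G`,
and its end points are both in `G` or both not in `G` (`IsPreconnected` / `isPreconnected_iff...`:
`S ⊆ interior G ∪ (closure G)ᶜ`; for instance `IsPreconnected.subset_or_subset` or
`IsPreconnected.inter_frontier_nonempty`). Hence `LfP G` agrees at `τ` and `τ'`; same for `RtP`
(replace `δ` by `-δ`). So `Dn G d h τ = Dn G d h τ'`. For `|τ| > R0` the point `(τ + i h) d` has norm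
`≥ |τ| > R0`, so its small neighbourhood misses `G` and `Dn = 0`. -/
def S_STEP : Prop := S_STP → ∀ G : Set ℂ, Good G → ∀ q : Circle × ℝ, Dn G (q.1 : ℂ) q.2 ∈ SF

/-- LINE (about 100 lines). Off the lines of `L` there are no jumps.
PROOF. Suppose for all `(d0, h0) ∈ L` neither `d0 = d, h0 = h` nor `d0 = -d, h0 = -h`. Let
`x = (τ + i h) d`. CLAIM: for `δ > 0` small, for `ε > 0` small, the segment from `x + ε d (1 + iδ)` to
`x + ε d (1 - iδ)`, i.e. the points `x + ε d (1 + iη)`, `|η| ≤ δ`, does not meet `NL L`. For `(d0, h0) ∈ L`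
and `w = d * cj d0` the point is in `ln (d0, h0)` iff `(x * cj d0).im + ε (w.im + η w.re) = h0`.
If `(x * cj d0).im ≠ h0` this is false for `δ ≤ 1`, `ε` small (`|w.im + η w.re| ≤ 2`). If
`(x * cj d0).im = h0` and `w.im ≠ 0`, it is false for `δ < |w.im|` (`ε > 0`). If
`(x * cj d0).im = h0` and `w.im = 0` then `w = ±1`, so `d0 = ± d` and `h0 = (x * cj d0).im = ± h`:
excluded. So both end points are in `G` or both are not (as in STEP), `LfP G x d ↔ RtP G x d`. -/
def S_LINE : Prop := ∀ (G : Set ℂ) (L : Finset (Circle × ℝ)), frontier G ⊆ NL L →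
  ∀ q : Circle × ℝ, (∀ q' ∈ L, q' ≠ q ∧ ¬ ((q'.1 : ℂ) = - (q.1 : ℂ) ∧ q'.2 = - q.2)) →
    Dn G (q.1 : ℂ) q.2 = 0

/-- FINS (about 30 lines). Finite support.
PROOF. By S_LINE, `Dn ≠ 0` implies `q ∈ L` or `(-q.1, -q.2) ∈ L`; both sets are finite. -/
def S_FINS : Prop := S_LINE → ∀ G : Set ℂ, Good G →
  {q : Circle × ℝ | Dn G (q.1 : ℂ) q.2 ≠ 0}.Finite

/-- ADD (about 90 lines). Additivity of the jumps.
PROOF. (1) For `d ≠ 0`, `∀ᶠ δ in U, ∀ᶠ ε in U, x + ε d (1 + iδ) ∉ NL L` (and same with `1 - iδ`): for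
one line `(d0, h0)` with `w = d * cj d0 ≠ 0` the point is on the line iff
`(x * cj d0).im + ε (w.im + δ w.re) = h0`; for all but at most one `δ` the coefficient of `ε` is not `0`
(if `w.re = 0` then `w.im ≠ 0`), and then at most one `ε` is bad; `U ≤ 𝓝[>] 0`, and for every real `a`
eventually in `𝓝[>] 0` the variable is `≠ a`. (2) `U` is an ultrafilter: for each set `G` either
`LfP G x d` or `∀ᶠ δ in U, ∀ᶠ ε in U, .. ∉ G` (`Ultrafilter.eventually_not`). Intersecting finitely many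
eventual properties choose `δ, ε` such that for `z = x + ε d (1 + iδ)`: `z ∉ NL L`, `ind T z` is `1` or `0`
according to `LfP T x d`, and the same for each `Q i`. Then `ind T z = Σ ind (Q i) z` gives the equality for
`LfP`; same for `RtP`; subtract. -/
def S_ADD : Prop := ∀ (N : ℕ) (T : Set ℂ) (Q : Fin N → Set ℂ) (L : Finset (Circle × ℝ)),
  (∀ z, z ∉ NL L → ind T z = ∑ i, ind (Q i) z) → ∀ x d : ℂ, d ≠ 0 → jmp T x d = ∑ i, jmp (Q i) x d

/-- ISO (about 80 lines). Jumps of congruent copies.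
PROOF. First: `x' + ε (u d) (1 + iδ) = φ (x + ε d (1 + iδ))` for `x' = φ x`, so `LfP (φ '' G) (φ x) (u d) ↔
LfP G x d` (`φ` injective: `Function.Injective.mem_set_image`), same for `RtP`; and with `|u d| = 1`,
`x = (τ' + i h) d`: `φ x = u x + b = (τ' + i h + b * cj (u d)) (u d)`. Second:
`φ (x + ε d (1 + iδ)) = φ x + ε (u * cj d) (1 - iδ)`, so `RtP (φ '' G) (φ x) (u * cj d) ↔ LfP G x d` and
vice versa; for `x = (τ' + i h) d`: `φ x = (τ' - i h + b * cj (u * cj d)) (u * cj d)`. -/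
def S_ISO : Prop := ∀ (φ : ℂ ≃ᵢ ℂ) (u b : ℂ) (G : Set ℂ) (d : ℂ) (h τ : ℝ), ‖u‖ = 1 → ‖d‖ = 1 →
  ((∀ z, φ z = u * z + b) →
    Dn ((fun w => φ w) '' G) (u * d) (h + (b * cj (u * d)).im) τ =
      Dn G d h (τ - (b * cj (u * d)).re)) ∧
  ((∀ z, φ z = u * cj z + b) →
    Dn ((fun w => φ w) '' G) (u * cj d) (-h + (b * cj (u * cj d)).im) τ =
      - Dn G d h (τ - (b * cj (u * cj d)).re))

/-- VMI (about 150 lines). Congruent copies for `V_g(Q) = 0`.
PROOF. `Good` is invariant (frontier of the image is the image of the frontier; the image of `ln (d,h)` under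
`u z + b` is `ln (u d, h + im (b cj(u d)))`, under `u cj z + b` it is `ln (u cj d, -h + im (b cj (u cj d)))`).
For `D ∈ SF` and `D'(τ) = D (τ - c)`: `Φ g D' = Φ g D` (check on the generators of the span:
`indicator (Ico (a+c) (b+c))`, `g (b+c) - g (a+c) = g b - g a`; for `b < a` the indicator is `0`).
Case 1, `φ z = u z + b`. Reindex the sums by the bijection `(d, h) ↦ (u d, h + im (b cj (u d)))` of
`Circle × ℝ` (finite supports by S_FINS): `V_g(φ G) = u V_g(G)` and
`M_g(φ G) = M_g(G) - im (b * cj (u * V_g(G)))`. Case 2, `φ z = u cj z + b`: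
`V_g(φ G) = - u * cj (V_g(G))`, `M_g(φ G) = M_g(G) + im (b * cj (u * cj (V_g(G))))`. With `V_g(G) = 0` all
extra terms vanish. (T_K0 of H74R2: each isometry is of one of the two kinds; file
Pool/Agent/H368WT/K0.lean.) -/
def S_VMI : Prop := S_STP → S_STEP → S_LINE → S_FINS → S_ISO → H74R2.WT.T_K0 →
  ∀ Φ, IsInt Φ → ∀ (g : ℝ →+ ℝ) (G : Set ℂ) (φ : ℂ ≃ᵢ ℂ), Good G →
    Good ((fun w => φ w) '' G) ∧ (VV Φ g G = 0 →
      VV Φ g ((fun w => φ w) '' G) = 0 ∧ MM Φ g ((fun w => φ w) '' G) = MM Φ g G)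

/-- VMA (about 80 lines). Conclusion for tilings.
PROOF. By S_ADD `Dn T d h = Σ_i Dn (φ i '' Q) d h` for unit `d`; apply `Φ g` (linear), multiply and sum over the
finite supports (`finsum_add_distrib`, or `finsum` over a common finite support
`finsum_eq_sum_of_support_subset`, then `Finset.sum_comm`): `V_g(T) = Σ_i V_g(φ_i Q) = 0`,
`M_g(T) = Σ_i M_g(φ_i Q) = N M_g(Q)`. -/
def S_VMA : Prop := S_STP → S_STEP → S_LINE → S_FINS → S_ISO → S_ADD → S_VMI → H74R2.WT.T_K0 →
  ∀ Φ, IsInt Φ → ∀ (g : ℝ →+ ℝ) (Q T : Set ℂ) (N : ℕ), Good Q → Good T → TiledBy Q T N →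
    VV Φ g Q = 0 → VV Φ g T = 0 ∧ MM Φ g T = N * MM Φ g Q

/-- VLIN (about 20 lines). `V_g` is linear in `g`.
PROOF. Finite support (S_FINS) independent of `g`, `Φ` linear. -/
def S_VLIN : Prop := S_LINE → S_FINS → ∀ Φ : (ℝ →+ ℝ) →ₗ[ℝ] (ℝ → ℝ) →ₗ[ℝ] ℝ, ∀ G : Set ℂ, Good G →
  ∃ V : (ℝ →+ ℝ) →ₗ[ℝ] ℂ, ∀ g, V g = VV Φ g G

/-- TRG (about 60 lines). `Tri p q` is good, with the three side lines.
PROOF. Bounded: `0 < re < p`, `0 < im < q`. If `z` is not on one of the three lines `im = 0`, `re = 0`,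
`re / p + im / q = 1`, then `z` has a neighbourhood inside or outside `Tri p q` (each of the three strict
inequalities or its strict negation is an open condition). Here `im = 0` is `ln (1, 0)`, `re = 0` is
`ln (-i, 0)`, and with `r = √(p²+q²)`, `w = (-p + i q)/r`, the hypotenuse is `ln (w, -pq/r)`:
`(z * cj w).im = (-(z.im) p - z.re q) / r`. -/
def S_TRG : Prop := ∀ (p q : ℝ), 0 < p → 0 < q → ∀ w : Circle,
  (w : ℂ) = (-p + q * I) / (Real.sqrt (p ^ 2 + q ^ 2) : ℝ) →
  ∀ e : Circle, (e : ℂ) = -I →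
  Bornology.IsBounded (Tri p q) ∧
  frontier (Tri p q) ⊆ ln (1, 0) ∪ ln (e, 0) ∪ ln (w, -(p * q / Real.sqrt (p ^ 2 + q ^ 2)))

/-- TRD (about 200 lines). The six jump functions of the triangle.
PROOF. Write the germ points explicitly; membership in `Tri p q` is three strict inequalities, each affine in
`ε`, so for fixed small `δ` it is eventually (in `ε`) true iff the constant term is positive or it is
zero and the coefficient of `ε` is positive. Line `(1, 0)`: point `τ + ε (1 ± iδ)`; left germ in iff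
`0 < τ + ε`, `0 < εδ`, `(τ + ε)/p + εδ/q < 1`, i.e. iff `0 ≤ τ < p`; right germ never (`im < 0`). Line
`(-1, 0)`: point `-τ - ε (1 ± iδ)`, right germ in iff `0 < -τ - ε` and `(-τ-ε)/p + .. < 1`
iff `-p ≤ τ < 0` (at `τ = -p`: `(p - ε)/p + εδ/q < 1` iff `δ/q < 1/p`, true for small `δ`), left germ never.
Similarly for the others. -/
def S_TRD : Prop := ∀ (p q : ℝ), 0 < p → 0 < q → ∀ (r : ℝ) (w : ℂ), r = Real.sqrt (p ^ 2 + q ^ 2) →
  w = (-p + q * I) / (r : ℂ) →
  Dn (Tri p q) 1 0 = (Ico 0 p).indicator (fun _ => (1 : ℝ)) ∧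
  Dn (Tri p q) (-1) 0 = - (Ico (-p) 0).indicator (fun _ => (1 : ℝ)) ∧
  Dn (Tri p q) (-I) 0 = (Ico (-q) 0).indicator (fun _ => (1 : ℝ)) ∧
  Dn (Tri p q) I 0 = - (Ico 0 q).indicator (fun _ => (1 : ℝ)) ∧
  Dn (Tri p q) w (-(p * q / r)) = (Ico (-(p ^ 2 / r)) (q ^ 2 / r)).indicator (fun _ => (1 : ℝ)) ∧
  Dn (Tri p q) (-w) (p * q / r) = - (Ico (-(q ^ 2 / r)) (p ^ 2 / r)).indicator (fun _ => (1 : ℝ))

/-- TRV (about 80 lines). `V_g` and `M_g` of the triangle.
PROOF. By S_TRG and S_LINE only the six oriented lines of S_TRD contribute (they are distinct). Sum: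
`V_g`: `(g p - g 0) * 1 + (-(g 0 - g (-p))) * (-1) = 2 g p`, `(g 0 - g (-q)) * (-i) + (-(g q - g 0)) * i = -2 i g q`,
`(g (q²/r) - g (-p²/r)) w + (-(g (p²/r) - g (-q²/r))) (-w) = 2 g(r) w` (`p²/r + q²/r = r`).
`M_g`: only the hypotenuse has `h ≠ 0`: `(pq/r) g(r) + (pq/r) g(r)`. -/
def S_TRV : Prop := S_LINE → S_TRG → S_TRD → ∀ Φ, IsInt Φ → ∀ (g : ℝ →+ ℝ) (p q r : ℝ), 0 < p → 0 < q →
  r = Real.sqrt (p ^ 2 + q ^ 2) → Good (Tri p q) ∧
  VV Φ g (Tri p q) = 2 * ((g p : ℝ) + (g r : ℝ) * ((-p + q * I) / (r : ℂ)) - I * (g q : ℝ)) ∧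
  MM Φ g (Tri p q) = 2 * (p * q / r) * g r

/-- ALG (about 130 lines). The linear algebra.
PROOF. (1) `m, √3 m, s, √2 s` are linearly independent over `ℚ`: if `m (a + b √3) = - s (c + d √2)` with
rational `a, b, c, d`, then squaring and `s² = (N2/N1) √3 m²` give
`(a + b √3)² = k √3 (c + d √2)²`, `k = N2/N1`, i.e. `(a² + 3b²) + √3 (2ab - k (c² + 2d²)) - 2kcd √6 = 0`, and
`1, √3, √6` are linearly independent over `ℚ` (`A = -√3 (B + C √2)` implies
`A² = 3B² + 6C² + 6BC √2`, so `BC = 0` etc.), so `a² + 3b² = 0`, `a = b = 0`, `c + d √2 = 0`, `c = d = 0`.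
(2) So there are `ℚ`-linear, hence additive `π_j : ℝ → ℝ`, `j = 0..3`, with `π_j (x_k) = δ_{jk}` for
`x = (m, √3 m, s, √2 s)` (extend to a `ℚ`-basis of `ℝ`, or `LinearIndependent` +
`LinearMap.exists_extend`). (3) The real linear map `ℝ⁴ → ℂ`, `c ↦ Σ c_j V(π_j) = V (Σ c_j π_j)`, has a kernel of
real dimension at least `2`. For `c` in the kernel, `g = Σ c_j π_j` has `V g = 0` and `g(x_j) = c_j`, so
`c_1 = √3 c_0`, `c_3 = √2 c_2`, `m c_2 = s c_0`: the kernel is contained in the line spanned by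
`(m, √3 m, s, √2 s)`. Contradiction. -/
def S_ALG : Prop := ∀ (m s : ℝ) (N1 N2 : ℕ), 0 < m → 0 < s → 0 < N1 → 0 < N2 →
  (N2 : ℝ) * (Real.sqrt 3 * m ^ 2) = N1 * s ^ 2 → ∀ V : (ℝ →+ ℝ) →ₗ[ℝ] ℂ,
  ¬ (∀ g, V g = 0 → g (Real.sqrt 3 * m) = Real.sqrt 3 * g m ∧
    g (Real.sqrt 2 * s) = Real.sqrt 2 * g s ∧ m * g s = s * g m)

/-- AREA (about 120 lines). Areas.
PROOF. Lines are null sets of `ℂ`; `Q` is null-measurable (its frontier is a null set), the isometries preserve
the Lebesgue measure of `ℂ`; integrate `ind T = Σ ind (φ_i Q)` (a.e.) to get `vol T = N vol Q`, and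
`vol (Tri p q) = p q / 2` (Fubini, or `MeasureTheory.volume_regionBetween_eq_integral`;
`Complex.volume_preserving_equiv_real_prod`). -/
def S_AREA : Prop := ∀ (Q : Set ℂ) (p q : ℝ) (N : ℕ), Good Q → 0 < p → 0 < q →
  TiledBy Q (Tri p q) N → p * q / 2 = N * (MeasureTheory.volume Q).toReal

/-- SYF (about 130 lines). The symmetry group of a prototile is finite.
PROOF. Let `c = (∫_P z) / vol P` be the centroid (`vol P > 0` since `interior P ≠ ∅`, `P` bounded). Every
isometry `w` with `w P = P` fixes `c`: `w` preserves Lebesgue measure and is `u z + b` or `u cj z + b` (T_K0),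
so `w c = (∫_P w z)/vol P = (∫_{wP} z)/vol P = c`. Let `ρ = max_{z ∈ P} |z - c|`, attained, `ρ > 0`; the set
`F = {z ∈ P : |z - c| = ρ}` is not empty, contained in `frontier P` (an interior point is not farthest), hence in
finitely many lines, and a line meets a circle in at most two points: `F` is finite. Fix `f ∈ F`. The map
`w ↦ (w f, w (c + i (f - c)))`: `w f ∈ F` (finite), and given `w f` there are at most two isometries `w` with
`w c = c` (`w z = c + u (z - c)` or `c + u cj (z - c)` with `u` determined by `w f`). So the set is finite. -/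
def S_SYF : Prop := H74R2.WT.T_K0 → ∀ P : Set ℂ, Poly P →
  {w : ℂ ≃ᵢ ℂ | (fun z => w z) '' P = P}.Finite

/-- GENP (about 60 lines). A point in general position.
PROOF. For `w ≠ 1` the fixed point set is contained in a line `ln q` (T_K0: `u z + b = z` has at most one solution
if `u ≠ 1`, none if `u = 1`, `b ≠ 0`; `u cj z + b = z`: two solutions `z, z'` satisfy
`z - z' = u cj (z - z')`, all solutions lie on one line). A finite union of lines is not the plane (it
is a null set, or: choose a direction different from the directions of the lines, a line in this direction meets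
each in at most one point). -/
def S_GENP : Prop := H74R2.WT.T_K0 → ∀ W : Set (ℂ ≃ᵢ ℂ), W.Finite →
  ∃ p0 : ℂ, ∀ w ∈ W, w ≠ 1 → w p0 ≠ p0

/-- the open Dirichlet cell of `p0` for the set `W` of isometries -/
def cell (W : Set (ℂ ≃ᵢ ℂ)) (p0 : ℂ) : Set ℂ := {z | ∀ w ∈ W, w ≠ 1 → dist z p0 < dist z (w p0)}

/-- CELL (about 120 lines). Dirichlet cells.
PROOF. The bisector `{z | dist z a = dist z b}`, `a ≠ b`, is a line `ln q`. Let `L` be the set of the
bisectors of `w p0, w' p0`, `w ≠ w'` in `W` (`w p0 ≠ w' p0` since `w⁻¹ w' ∈ W` is not `1`). `z ∈ w '' cell` iff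
`dist z (w p0) < dist z (w' p0)` for all `w' ≠ w` in `W` (put `w' = w w''`). For `z ∉ NL L` the distances
`dist z (w p0)` are pairwise distinct, so exactly one `w ∈ W` attains the minimum. Two different cells are
disjoint for every `z`. The frontier of `cell` is in the union of the bisectors (`cell` is a finite intersection
of open half planes; off the bisectors each inequality or its strict negation is an open condition). -/
def S_CELL : Prop := ∀ (W : Subgroup (ℂ ≃ᵢ ℂ)) (p0 : ℂ), (W : Set (ℂ ≃ᵢ ℂ)).Finite →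
  (∀ w ∈ W, w ≠ 1 → w p0 ≠ p0) →
  (∃ L : Finset (Circle × ℝ), frontier (cell W p0) ⊆ NL L ∧
    ∀ z, z ∉ NL L → ∃ w ∈ W, z ∈ (fun y => w y) '' cell W p0) ∧
  ∀ w ∈ W, ∀ w' ∈ W, w ≠ w' →
    Disjoint ((fun y => w y) '' cell W p0) ((fun y => w' y) '' cell W p0)

/-- SIDE (about 100 lines). A piece of a tile lies on one side of each mirror.
`lam` is an affine function whose zero set is the mirror of `r`.
PROOF. `r` fixes the points with `lam = 0` (put `y = z`). Let `A = φ P`. If `lam` has no zero in `interior A`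
(connected) it has constant sign on `interior A`, which contains the piece. Otherwise there is `z0 ∈ interior A`
with `r z0 = z0`, so `interior A` and `interior (r A)` meet; `r A` is a tile, so `r A = A`. Put
`w' = φ⁻¹ r φ ∈ W` (where `W = {w | w P = P}`), `w' ≠ 1`, `y = φ (w p0)`, so `r y = φ (w' w p0)`. For `z = φ (w z1)`,
`z1 ∈ cell W p0`: `dist z y = dist z1 p0 < dist z1 (w'' p0) = dist z (r y)` with `w'' = w⁻¹ w' w ∈ W`, `w'' ≠ 1`.
So `c lam(z) lam(y) > 0`: `lam z` has the sign of `lam y` for all `z` in the piece. -/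
def S_SIDE : Prop := ∀ (P : Set ℂ) (T : Set (Set ℂ)) (r φ : ℂ ≃ᵢ ℂ) (lam : ℂ → ℝ) (c : ℝ)
  (W : Subgroup (ℂ ≃ᵢ ℂ)) (p0 : ℂ), Poly P → H74R2.WT.IsTiling P T → r ∈ H74R2.WT.Sym T → r ≠ 1 →
  (fun z => φ z) '' P ∈ T → Continuous lam → 0 < c →
  (∀ z y, dist z (r y) ^ 2 - dist z y ^ 2 = c * (lam z * lam y)) →
  (∀ w, w ∈ W ↔ (fun z => w z) '' P = P) → ∀ w ∈ W,
  (∀ z ∈ interior P ∩ cell W p0, 0 < lam (φ (w z))) ∨
    (∀ z ∈ interior P ∩ cell W p0, lam (φ (w z)) < 0)

/-- DIR (about 180 lines). A fundamental piece of the prototile tiles the triangle.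
PROOF. `W = {w | w P = P}` is a finite group (S_SYF), `p0` from S_GENP, `Q = interior P ∩ cell W p0`, good
(S_CELL, `frontier (A ∩ B) ⊆ frontier A ∪ frontier B`, `frontier (interior P) ⊆ frontier P`). Let the tiling
`T` be symmetric in the sides of `Tri p q`: reflections `r = cj` with `lam = im`, `c = 4`; `r = -cj` with
`lam = re`, `c = 4`; `r` = reflection in the hypotenuse with `lam z = 1 - re z / p - im z / q`,
`c = 4 / (1/p² + 1/q²)`. By T_O only finitely many tiles `A = φ_A P` meet a ball containing `Tri p q`. The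
pieces `φ_A (w (Q))` for these `A` and `w ∈ W`: each is inside `Tri p q` or disjoint from it (S_SIDE three
times). Off the finitely many lines (images of `frontier P`, images of the lines of S_CELL): a point
`z ∈ Tri p q` is in some tile `A` (cover), in `interior A`, `A` is unique, `φ_A⁻¹ z` is in `w (cell)` for exactly
one `w ∈ W`, so `z` is in exactly one piece, which is inside `Tri p q`. So `ind (Tri p q)` is the sum of the
indicators of the pieces inside `Tri p q`. Enumerate them by `Fin N`. -/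
def S_DIR : Prop := S_SYF → S_GENP → S_CELL → S_SIDE → H74R2.WT.T_K0 → H74R2.WT.T_O →
  ∀ P : Set ℂ, Poly P → ∃ Q : Set ℂ, Good Q ∧ ∀ T : Set (Set ℂ), H74R2.WT.IsTiling P T →
    ∀ p q : ℝ, 0 < p → 0 < q → RefIn (H74R2.WT.Sym T) 1 p q → ∃ N, TiledBy Q (Tri p q) N

/-- TRN (about 60 lines). Moving a tiling by an isometry.
PROOF. `T' = {ψ A : A ∈ T}`; conjugate the symmetries by `ψ`. -/
def S_TRN : Prop := ∀ (P : Set ℂ) (T : Set (Set ℂ)) (ψ : ℂ ≃ᵢ ℂ) (p q : ℝ),
  H74R2.WT.IsTiling P T → RefIn (H74R2.WT.Sym T) ψ p q →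
  ∃ T' : Set (Set ℂ), H74R2.WT.IsTiling P T' ∧ RefIn (H74R2.WT.Sym T') 1 p q

/-- the wallpaper group p4m -/
def G4 : Subgroup (ℂ ≃ᵢ ℂ) := H74R2.WT.N34.Grp H74R2.WT.N34.dat4 True

/-- the wallpaper group p6m -/
def G6 : Subgroup (ℂ ≃ᵢ ℂ) :=
  H74R2.WT.N34.Grp (H74R2.WT.N34.dat3 (n := 6) (by norm_num)) True

/-- GE4 (about 80 lines). PROOF. `a z = cj z`, `c z = - cj z`, `b z = -i cj z + (1 + i)` (reflection in the line
`re + im = 1`). `a b : z ↦ i z + (1 - i)`, `b c : z ↦ i z + (1 + i)`, `a c : z ↦ -z`;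
`a b c : z ↦ a (b (-cj z)) = cj (i z + 1 + i)= -i cj z + 1 - i`; its square is
`z ↦ -i (i z + 1 + i) + 1 - i = z + 2 - 2 i`. See N4.lean for similar computations. -/
def S_GE4 : Prop := ∃ a b c : G4, Rel 4 4 a b c

/-- GE6 (about 100 lines). PROOF. With `e = e3 = e^{iπ/3}`: `a z = cj z`, `c z = - cj z`,
`b z = cj e * cj z + e` (reflection in the line through `√3 m, i m`, `m = 1/√3`, normal `e`). `a b : z ↦ e z + cj e`
(order 6), `b c : z ↦ - cj e * z + e` (`- cj e = e^{2πi/3}`, order 3), `a c : z ↦ -z`;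
`(a b c)` is `z ↦ a (b (-cj z)) = cj (- cj e z + e) = - e cj z + cj e`, its square is
`z ↦ - e cj (- e cj z + cj e) + cj e = z - e² + cj e`, `e² ≠ cj e`. -/
def S_GE6 : Prop := ∃ a b c : G6, Rel 6 3 a b c

/-- GG (about 200 lines). Geometry of three involutions.
PROOF. (T_K0) Each of `a, b, c` is `z ↦ u z + β` or `z ↦ u cj z + β`, `|u| = 1`. An involution `u z + β` has `u = 1, β = 0`
or `u = -1`. `a b` has order `k ≥ 3` (`k = 4` or `6`): if both are of the first kind, `a b` has `u = ±1`: it is a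
translation (order `1` or infinite) or has order `2`; if they are of different kinds, `(a b)²` is a translation,
so the order is `2` or infinite (or `1`): impossible. So `a, b` are of the second kind; `b c` has order `3` or
`4`, so `c` too. Let `a z = u_a cj z + β_a` etc.; `a² = 1` gives `u_a cj β_a + β_a = 0`. `a c` has rotation part
`u_a cj u_c`, order 2, so `u_c = - u_a`. There is `z0` with `a z0 = z0 = c z0`
(`z0 = (β_a + β_c)/2`: `a z0 = (u_a cj β_a + u_a cj β_c)/2 + β_a = (-β_a + β_c)/2 + β_a = z0` using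
`u_a cj β_c = - u_c cj β_c = β_c`; similarly for `c`). Choose `ζ` with `ζ² = u_a`, `|ζ| = 1`; `ψ z = cj ζ (z - z0)` satisfies
`ψ (a z) = cj (ψ z)`, `ψ (c z) = - cj (ψ z)`, `ψ (b z) = u' cj (ψ z) + β'` with `u' = u_b cj u_a`,
`u' cj β' + β' = 0`. The rotation part of `a b` is `u_a cj u_b = cj u'`, of order `k`. `β' ≠ 0`, otherwise `a, b, c`
fix `z0` and `(a b c)² = 1` (`a b c` is of the second kind and fixes `z0`). `(β'/|β'|)² = - u'`. For `k = 4`:
`u' = ± i`, for `k = 6`: `u' = e^{± iπ/3}`. So `β'` is not on the coordinate axes, and composing `ψ` with `-1`, `cj`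
or `- cj` (this keeps the formulas for `a, c` and replaces `(u', β')` by `(u', -β')`, `(cj u', cj β')`,
`(cj u', - cj β')`) we may assume `re β' > 0`, `im β' > 0`. Then `β' = ρ e^{iθ}`, `0 < θ < π/2`,
`e^{2iθ} = - u'`: `θ = π/4` for `k = 4`, `θ = π/3` for `k = 6`. The mirror of `b` is the line through `β'/2`
orthogonal to `β'`: it meets the axes in `p = ρ/(2 cos θ)`, `i q`, `q = ρ/(2 sin θ)`, so
`p = q` for `k = 4` and `p = √3 q` for `k = 6`; and `(-p + q i)/(-p - q i) = u'`,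
`p + u' cj (y - p) = u' cj y + β'` (`p = u' p + β'` as `p` is on the mirror). -/
def S_GG : Prop := H74R2.WT.T_K0 →
  (∀ a b c : ℂ ≃ᵢ ℂ, Rel 4 4 a b c → ∃ (ψ : ℂ ≃ᵢ ℂ) (s : ℝ), 0 < s ∧
    (∀ z, ψ (a z) = cj (ψ z)) ∧ (∀ z, ψ (c z) = - cj (ψ z)) ∧
    (∀ z, ψ (b z) = s + ((-s + s * I) / (-s - s * I)) * cj (ψ z - s))) ∧
  (∀ a b c : ℂ ≃ᵢ ℂ, Rel 6 3 a b c → ∃ (ψ : ℂ ≃ᵢ ℂ) (p m : ℝ), 0 < m ∧ p = Real.sqrt 3 * m ∧
    (∀ z, ψ (a z) = cj (ψ z)) ∧ (∀ z, ψ (c z) = - cj (ψ z)) ∧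
    (∀ z, ψ (b z) = p + ((-p + m * I) / (-p - m * I)) * cj (ψ z - p)))

/-- GRP (about 40 lines). PROOF. Transport `a, b, c` from S_GE4 (S_GE6) through the isomorphism (orders and relations are
preserved, `Subgroup.subtype` injective, `orderOf_injective`), apply S_GG. -/
def S_GRP : Prop := S_GE4 → S_GE6 → S_GG → H74R2.WT.T_K0 →
  (∀ G : Subgroup (ℂ ≃ᵢ ℂ), Nonempty (G ≃* G4) → ∃ (ψ : ℂ ≃ᵢ ℂ) (s : ℝ), 0 < s ∧ RefIn G ψ s s) ∧
  (∀ G : Subgroup (ℂ ≃ᵢ ℂ), Nonempty (G ≃* G6) → ∃ (ψ : ℂ ≃ᵢ ℂ) (p m : ℝ), 0 < m ∧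
    p = Real.sqrt 3 * m ∧ RefIn G ψ p m)

end

end T2h42.AP
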